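import Pool.Agent.H31.UR.Def

/-!
# Key: three near-unit vectors
-/

set_option autoImplicit false

namespace Pool.Agent.H31.UR

theorem key_x (x y d : ℝ) (h : |y| ≤ x) (h1 : 1 ≤ x ^ 2 + y ^ 2) (h2 : x ^ 2 + y ^ 2 ≤ 1 + d)
    (hd : d ≤ 1 / 10) : 7 / 10 ≤ x ∧ |y| ≤ 3 / 4 := by
  have h0 : 0 ≤ |y| := abs_nonneg y
  have hx : 0 ≤ x := le_trans h0 h
  have hy : y ^ 2 = |y| ^ 2 := (sq_abs y).symm
  have h3 : |y| ^ 2 ≤ x ^ 2 := by nlinarith
  constructor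
  · by_contra hc
    push Not at hc
    nlinarith
  · by_contra hc
    push Not at hc
    nlinarith

theorem key_mvt (X Y V T w z : ℝ) (hX : 14 / 10 ≤ X) (hY : 14 / 10 ≤ Y) (hV : V ≤ X) (hT : -T ≤ Y)
    (h1 : V = w + z) (h2 : ∃ q, T = q + z ∧ q < w ∧ -q ≤ 3 / 4) (hw : w ≤ 3 / 4) :
    13 / 28 * (X * Y) ≤ X * Y + V * T := by
  obtain ⟨q, hq, hqw, hq3⟩ := h2
  have hXY : 0 ≤ X * Y := mul_nonneg (by linarith) (by linarith)
  rcases le_or_gt 0 (V * T) with h | h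
  · linarith
  · have hTV : T < V := by linarith
    have hV0 : 0 < V := by
      by_contra hc
      push Not at hc
      have hT0 : T ≤ 0 := by linarith
      have := mul_nonneg_of_nonpos_of_nonpos hc hT0
      linarith
    have hT0 : T < 0 := by
      by_contra hc
      push Not at hc
      have := mul_nonneg hV0.le hc
      linarith
    rcases le_or_gt 0 z with hu0 | hu0
    · have h1 : -T ≤ 3 / 4 := by linarith
      have h2 : V * (-T) ≤ X * (3 / 4) := mul_le_mul hV h1 (by linarith) (by linarith)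
      have h3 : X * (14 / 10) ≤ X * Y := mul_le_mul_of_nonneg_left hY (by linarith)
      linarith
    · have h1 : V ≤ 3 / 4 := by linarith
      have h2 : V * (-T) ≤ (3 / 4) * Y := mul_le_mul h1 hT (by linarith) (by norm_num)
      have h3 : (14 / 10) * Y ≤ X * Y := mul_le_mul_of_nonneg_right hX (by linarith)
      linarith

theorem key_abs (a b c x y z : ℝ) (ha : |a| ≤ x) (hb : 0 ≤ b) (hby : b ≤ y) (hc : |c| ≤ z)
    (hx : 0 ≤ x) : a * b * c ≤ x * y * z ∧ -(a * b * c) ≤ x * y * z := by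
  have hz : 0 ≤ z := le_trans (abs_nonneg _) hc
  have h1 : |a * b * c| ≤ x * y * z := by
    rw [abs_mul, abs_mul, abs_of_nonneg hb]
    apply mul_le_mul _ hc (abs_nonneg _) (by nlinarith)
    exact mul_le_mul ha hby hb hx
  exact ⟨le_trans (le_abs_self _) h1, le_trans (neg_le_abs _) h1⟩

theorem key_num (d M R P Q S : ℝ) (hd : 0 < d) (hd' : d ≤ 1 / 10) (hM : 196 / 100 ≤ M)
    (hR : 9 * d * (13 / 28 * M) ≤ R) (hPQ : P + Q ≤ 3 / 2)
    (h : S * M ≤ -R + d * d + d * Q * (3 / 2) + d * P * (3 / 2)) : S < -d := by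
  by_contra hc
  push Not at hc
  have h7 : -d * M ≤ S * M := mul_le_mul_of_nonneg_right hc (by linarith)
  have h8 : d * (P + Q) ≤ d * (3 / 2) := mul_le_mul_of_nonneg_left hPQ hd.le
  have h9 : d * d ≤ d * (1 / 10) := mul_le_mul_of_nonneg_left hd' hd.le
  have h10 : d * (196 / 100) ≤ d * M := mul_le_mul_of_nonneg_left hM hd.le
  nlinarith

theorem key : KeyStmt := by
  intro d e hd hd' he hde u v t hu hv ht hu1 hu2 hv1 hv2 ht1 ht2 hvu hut
  obtain ⟨hux, huy⟩ := key_x u.1 u.2 d hu hu1 hu2 hd'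
  obtain ⟨hvx, hvy⟩ := key_x v.1 v.2 d hv hv1 hv2 hd'
  obtain ⟨htx, hty⟩ := key_x t.1 t.2 d ht ht1 ht2 hd'
  obtain ⟨u1, u2⟩ := u
  obtain ⟨v1, v2⟩ := v
  obtain ⟨t1, t2⟩ := t
  simp only at *
  have huy' := abs_le.mp huy
  have hvy' := abs_le.mp hvy
  have hty' := abs_le.mp hty
  have hu' := abs_le.mp hu
  have hv' := abs_le.mp hv
  have ht' := abs_le.mp ht
  have hmvt := key_mvt (v1 + u1) (t1 + u1) (v2 + u2) (t2 + u2) v2 u2 (by linarith) (by linarith)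
    (by linarith) (by linarith) rfl ⟨t2, rfl, by linarith, by linarith⟩ (by linarith)
  have hPQ : 9 * d ≤ (v2 - u2) * (u2 - t2) := by
    calc 9 * d ≤ e ^ 2 := hde
      _ = e * e := sq e
      _ ≤ _ := mul_le_mul hvu hut he.le (by linarith)
  have hM : 196 / 100 ≤ (v1 + u1) * (t1 + u1) := by
    calc (196 / 100 : ℝ) = 14 / 10 * (14 / 10) := by norm_num
      _ ≤ _ := mul_le_mul (by linarith) (by linarith) (by norm_num) (by linarith)
  have hR : 9 * d * (13 / 28 * ((v1 + u1) * (t1 + u1))) ≤ (v2 - u2) * (u2 - t2) *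
      ((v1 + u1) * (t1 + u1) + (v2 + u2) * (t2 + u2)) :=
    mul_le_mul hPQ hmvt (by linarith) (by linarith)
  have hV2 : |v2 + u2| ≤ 3 / 2 := abs_le.mpr ⟨by linarith, by linarith⟩
  have hT2 : |t2 + u2| ≤ 3 / 2 := abs_le.mpr ⟨by linarith, by linarith⟩
  obtain ⟨a, ha⟩ : ∃ a : ℝ, a = v1 ^ 2 + v2 ^ 2 - (u1 ^ 2 + u2 ^ 2) := ⟨_, rfl⟩
  obtain ⟨b, hb⟩ : ∃ b : ℝ, b = t1 ^ 2 + t2 ^ 2 - (u1 ^ 2 + u2 ^ 2) := ⟨_, rfl⟩
  have haa : |a| ≤ d := abs_le.mpr ⟨by linarith, by linarith⟩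
  have hbb : |b| ≤ d := abs_le.mpr ⟨by linarith, by linarith⟩
  have hab : a * b ≤ d * d := by
    have h1 : |a * b| ≤ d * d := by
      rw [abs_mul]; exact mul_le_mul haa hbb (abs_nonneg _) hd.le
    exact le_trans (le_abs_self _) h1
  have h5 := (key_abs a (u2 - t2) (t2 + u2) d (u2 - t2) (3 / 2) haa (by linarith) le_rfl hT2
    hd.le).1
  have h6 := (key_abs b (v2 - u2) (v2 + u2) d (v2 - u2) (3 / 2) hbb (by linarith) le_rfl hV2
    hd.le).2
  have hid : ((v1 - u1) * (t1 - u1) + (v2 - u2) * (t2 - u2)) * ((v1 + u1) * (t1 + u1)) =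
      -((v2 - u2) * (u2 - t2) * ((v1 + u1) * (t1 + u1) + (v2 + u2) * (t2 + u2))) + a * b +
        a * (u2 - t2) * (t2 + u2) - b * (v2 - u2) * (v2 + u2) := by
    rw [ha, hb]; ring
  have hs := key_num d ((v1 + u1) * (t1 + u1)) _ (v2 - u2) (u2 - t2)
    ((v1 - u1) * (t1 - u1) + (v2 - u2) * (t2 - u2)) hd hd' hM hR (by linarith)
    (by rw [hid]; linarith)
  have hid2 : (v1 + t1 - u1) ^ 2 + (v2 + t2 - u2) ^ 2 = (v1 ^ 2 + v2 ^ 2) + (t1 ^ 2 + t2 ^ 2) -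
      (u1 ^ 2 + u2 ^ 2) + 2 * ((v1 - u1) * (t1 - u1) + (v2 - u2) * (t2 - u2)) := by ring
  rw [hid2]
  linarith

end Pool.Agent.H31.UR
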