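import Pool.Agent.H31.UR.Def

/-!
# MP_31a0d1_lc (average case), module `Are`: two upper bounds for areas
-/

set_option autoImplicit false

namespace Pool.Agent.H31.UR

open MeasureTheory Set

/-- one slice -/
private theorem slice {d : ℝ} (hd : 0 < d) (hd1 : d ≤ 1 / 10) (α w : ℝ) (T : Set ℝ)
    (hT : ∀ x ∈ T, (1 ≤ (α - x) ^ 2 + w ^ 2 ∧ (α - x) ^ 2 + w ^ 2 ≤ 1 + d) ∧ |w| ≤ |α - x|) :
    volume T ≤ ENNReal.ofReal (3 / 2 * d) := by
  by_cases hw : w ^ 2 ≤ 11 / 20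
  · have hs0 : (0 : ℝ) ≤ 1 - w ^ 2 := by linarith
    have hs : Real.sqrt (1 - w ^ 2) ^ 2 = 1 - w ^ 2 := Real.sq_sqrt hs0
    have hs1 : 0 ≤ Real.sqrt (1 - w ^ 2) := Real.sqrt_nonneg _
    generalize Real.sqrt (1 - w ^ 2) = s at hs hs1
    have hs2 : 2 / 3 ≤ s := by nlinarith
    have hsub : T ⊆ Icc (α - s - 3 / 4 * d) (α - s) ∪ Icc (α + s) (α + s + 3 / 4 * d) := by
      intro x hx
      obtain ⟨⟨h1, h2⟩, _⟩ := hT x hx
      have h3 : s ^ 2 ≤ (α - x) ^ 2 := by linarith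
      have h4 : (α - x) ^ 2 ≤ (s + 3 / 4 * d) ^ 2 := by nlinarith
      have h5 : s ≤ |α - x| := by
        have h6 := Real.abs_le_sqrt h3
        rw [Real.sqrt_sq_eq_abs, abs_of_nonneg hs1] at h6
        exact h6
      have h7 : |α - x| ≤ s + 3 / 4 * d := abs_le_of_sq_le_sq h4 (by linarith)
      rcases le_total 0 (α - x) with h8 | h8
      · rw [abs_of_nonneg h8] at h5 h7
        exact Or.inl ⟨by linarith, by linarith⟩
      · rw [abs_of_nonpos h8] at h5 h7
        exact Or.inr ⟨by linarith, by linarith⟩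
    refine (measure_mono hsub).trans ((measure_union_le _ _).trans ?_)
    rw [Real.volume_Icc, Real.volume_Icc, ← ENNReal.ofReal_add (by linarith) (by linarith)]
    exact ENNReal.ofReal_le_ofReal (by linarith)
  · have h0 : T = ∅ := by
      refine eq_empty_iff_forall_notMem.2 fun x hx => ?_
      obtain ⟨⟨_, h2⟩, h3⟩ := hT x hx
      have h4 := sq_le_sq.2 h3
      exact hw (by linarith)
    rw [h0, measure_empty]
    exact bot_le

private theorem meas_near (d : ℝ) (a : ℝ × ℝ) : MeasurableSet {z : ℝ × ℝ | Near d a z} := by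
  have hf : Measurable fun z : ℝ × ℝ => (a.1 - z.1) ^ 2 + (a.2 - z.2) ^ 2 := by fun_prop
  exact (measurableSet_le measurable_const hf).inter (measurableSet_le hf measurable_const)

private theorem integ {d e : ℝ} (hd : 0 < d) (c : ℝ) :
    (∫⁻ y, (Ioo (c - e) (c + e)).indicator (fun _ => ENNReal.ofReal (3 / 2 * d)) y) = ENNReal.ofReal (3 * e * d) := by
  rw [lintegral_indicator_const measurableSet_Ioo, Real.volume_Ioo, ← ENNReal.ofReal_mul (by linarith)]
  exact congrArg _ (by ring)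

private theorem area_h {d e : ℝ} (hd : 0 < d) (hd1 : d ≤ 1 / 10) (a b : ℝ × ℝ) :
    volume {z : ℝ × ℝ | Near d a z ∧ |a.2 - z.2| ≤ |a.1 - z.1| ∧ |z.2 - b.2| < e} ≤ ENNReal.ofReal (3 * e * d) := by
  have hm : MeasurableSet {z : ℝ × ℝ | Near d a z ∧ |a.2 - z.2| ≤ |a.1 - z.1| ∧ |z.2 - b.2| < e} := by
    have h1 : Measurable fun z : ℝ × ℝ => |a.2 - z.2| := (measurable_const.sub measurable_snd).abs
    have h2 : Measurable fun z : ℝ × ℝ => |a.1 - z.1| := (measurable_const.sub measurable_fst).abs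
    have h3 : Measurable fun z : ℝ × ℝ => |z.2 - b.2| := (measurable_snd.sub measurable_const).abs
    exact (meas_near d a).inter ((measurableSet_le h1 h2).inter (measurableSet_lt h3 measurable_const))
  rw [Measure.volume_eq_prod, Measure.prod_apply_symm hm, ← integ hd b.2]
  refine lintegral_mono fun y => ?_
  by_cases hy : y ∈ Ioo (b.2 - e) (b.2 + e)
  · rw [indicator_of_mem hy]
    exact slice hd hd1 a.1 (a.2 - y) _ fun x hx => ⟨hx.1, hx.2.1⟩
  · rw [indicator_of_notMem hy]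
    have h0 : (fun x : ℝ => (x, y)) ⁻¹' {z : ℝ × ℝ | Near d a z ∧ |a.2 - z.2| ≤ |a.1 - z.1| ∧ |z.2 - b.2| < e} = ∅ := by
      refine eq_empty_iff_forall_notMem.2 fun x hx => hy ?_
      have h1 : |y - b.2| < e := hx.2.2
      rw [abs_lt] at h1
      exact ⟨by linarith [h1.1], by linarith [h1.2]⟩
    rw [h0, measure_empty]

private theorem area_v {d e : ℝ} (hd : 0 < d) (hd1 : d ≤ 1 / 10) (a b : ℝ × ℝ) :
    volume {z : ℝ × ℝ | Near d a z ∧ |a.1 - z.1| ≤ |a.2 - z.2| ∧ |z.1 - b.1| < e} ≤ ENNReal.ofReal (3 * e * d) := by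
  have hm : MeasurableSet {z : ℝ × ℝ | Near d a z ∧ |a.1 - z.1| ≤ |a.2 - z.2| ∧ |z.1 - b.1| < e} := by
    have h1 : Measurable fun z : ℝ × ℝ => |a.2 - z.2| := (measurable_const.sub measurable_snd).abs
    have h2 : Measurable fun z : ℝ × ℝ => |a.1 - z.1| := (measurable_const.sub measurable_fst).abs
    have h3 : Measurable fun z : ℝ × ℝ => |z.1 - b.1| := (measurable_fst.sub measurable_const).abs
    exact (meas_near d a).inter ((measurableSet_le h2 h1).inter (measurableSet_lt h3 measurable_const))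
  rw [Measure.volume_eq_prod, Measure.prod_apply hm, ← integ hd b.1]
  refine lintegral_mono fun x => ?_
  by_cases hx : x ∈ Ioo (b.1 - e) (b.1 + e)
  · rw [indicator_of_mem hx]
    refine slice hd hd1 a.2 (a.1 - x) _ fun y hy => ⟨?_, hy.2.1⟩
    have h1 : Near d a (x, y) := hy.1
    obtain ⟨h2, h3⟩ := h1
    exact ⟨by linarith, by linarith⟩
  · rw [indicator_of_notMem hx]
    have h0 : Prod.mk x ⁻¹' {z : ℝ × ℝ | Near d a z ∧ |a.1 - z.1| ≤ |a.2 - z.2| ∧ |z.1 - b.1| < e} = ∅ := by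
      refine eq_empty_iff_forall_notMem.2 fun y hy => hx ?_
      have h1 : |x - b.1| < e := hy.2.2
      rw [abs_lt] at h1
      exact ⟨by linarith [h1.1], by linarith [h1.2]⟩
    rw [h0, measure_empty]

/-- the area of a region -/
theorem area1 : ∀ d e : ℝ, 0 < d → d ≤ 1 / 10 → 0 < e → ∀ a b : ℝ × ℝ,
    volume {z | Reg d e a b z} ≤ ENNReal.ofReal (6 * e * d) := by
  intro d e hd hd1 he a b
  have hsub : {z | Reg d e a b z} ⊆ {z : ℝ × ℝ | Near d a z ∧ |a.2 - z.2| ≤ |a.1 - z.1| ∧ |z.2 - b.2| < e} ∪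
      {z : ℝ × ℝ | Near d a z ∧ |a.1 - z.1| ≤ |a.2 - z.2| ∧ |z.1 - b.1| < e} := by
    rintro z ⟨h1, h2 | h2⟩
    · exact Or.inl ⟨h1, h2⟩
    · exact Or.inr ⟨h1, h2⟩
  refine (measure_mono hsub).trans ((measure_union_le _ _).trans
    ((add_le_add (area_h hd hd1 a b) (area_v hd hd1 a b)).trans ?_))
  have h0 : 0 ≤ 3 * e * d := by positivity
  rw [← ENNReal.ofReal_add h0 h0]
  exact ENNReal.ofReal_le_ofReal (by linarith)

/-- the area of the ring -/
theorem area2 : ∀ d : ℝ, 0 < d → d ≤ 1 / 10 → ∀ a : ℝ × ℝ,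
    volume {z | Near d a z} ≤ ENNReal.ofReal (6 * d) := by
  intro d hd hd1 a
  have key : ∀ u v : ℝ, u ^ 2 + v ^ 2 ≤ 1 + d → |v| ≤ |u| → |v| < 1 := by
    intro u v h1 h2
    have h3 := sq_le_sq.2 h2
    have h4 : v ^ 2 < 1 ^ 2 := by linarith
    have h5 := sq_lt_sq.1 h4
    rwa [abs_one] at h5
  have hsub : {z | Near d a z} ⊆ {z | Reg d 1 a a z} := by
    intro z hz
    obtain ⟨h1, h2⟩ : Near d a z := hz
    refine ⟨⟨h1, h2⟩, ?_⟩
    rcases le_total |a.2 - z.2| |a.1 - z.1| with h3 | h3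
    · exact Or.inl ⟨h3, by rw [abs_sub_comm]; exact key _ _ h2 h3⟩
    · exact Or.inr ⟨h3, by rw [abs_sub_comm]; exact key (a.2 - z.2) _ (by linarith) h3⟩
  refine (measure_mono hsub).trans ((area1 d 1 hd hd1 one_pos a a).trans (ENNReal.ofReal_le_ofReal (by linarith)))

end Pool.Agent.H31.UR
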