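import Pool.Agent.H31.UR.Def

/-!
# Areas: the lower bound, and measurability (MP_31a0d1_lc, average case)
-/

set_option autoImplicit false

namespace Pool.Agent.H31.UR

open MeasureTheory Finset

theorem near_meas (d : ℝ) : MeasurableSet {z : (ℝ × ℝ) × (ℝ × ℝ) | Near d z.1 z.2} := by
  unfold Near
  apply IsClosed.measurableSet
  refine IsClosed.and ?_ ?_
  · exact isClosed_le (by fun_prop) (by fun_prop)
  · exact isClosed_le (by fun_prop) (by fun_prop)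

theorem reg_meas (d e : ℝ) :
    MeasurableSet {z : (ℝ × ℝ) × (ℝ × ℝ) × (ℝ × ℝ) | Reg d e z.1 z.2.1 z.2.2} := by
  have h0 : MeasurableSet {z : (ℝ × ℝ) × (ℝ × ℝ) × (ℝ × ℝ) | Near d z.1 z.2.2} := by
    unfold Near
    apply IsClosed.measurableSet
    refine IsClosed.and ?_ ?_
    · exact isClosed_le (by fun_prop) (by fun_prop)
    · exact isClosed_le (by fun_prop) (by fun_prop)
  have h1 : MeasurableSet {z : (ℝ × ℝ) × (ℝ × ℝ) × (ℝ × ℝ) |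
      |z.1.2 - z.2.2.2| ≤ |z.1.1 - z.2.2.1|} :=
    measurableSet_le (by fun_prop) (by fun_prop)
  have h2 : MeasurableSet {z : (ℝ × ℝ) × (ℝ × ℝ) × (ℝ × ℝ) | |z.2.2.2 - z.2.1.2| < e} :=
    measurableSet_lt (by fun_prop) (by fun_prop)
  have h3 : MeasurableSet {z : (ℝ × ℝ) × (ℝ × ℝ) × (ℝ × ℝ) |
      |z.1.1 - z.2.2.1| ≤ |z.1.2 - z.2.2.2|} :=
    measurableSet_le (by fun_prop) (by fun_prop)
  have h4 : MeasurableSet {z : (ℝ × ℝ) × (ℝ × ℝ) × (ℝ × ℝ) | |z.2.2.1 - z.2.1.1| < e} :=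
    measurableSet_lt (by fun_prop) (by fun_prop)
  exact h0.inter ((h1.inter h2).union (h3.inter h4))

theorem area3 : ∀ d : ℝ, 0 < d → d ≤ 1 / 10 → ∀ a : ℝ × ℝ, a.1 ∈ Set.Icc (0 : ℝ) (1 / 2) →
    a.2 ∈ Set.Icc (1 / 2 : ℝ) (3 / 2) →
    ENNReal.ofReal (2 / 5 * d) ≤ volume ({z | Near d a z} ∩ square) := by
  intro d hd hd1 a ha1 ha2
  obtain ⟨a1, a2⟩ := a
  simp only [Set.mem_Icc] at ha1 ha2
  obtain ⟨ha1, ha1'⟩ := ha1
  obtain ⟨ha2, ha2'⟩ := ha2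
  have hsc : Continuous (fun y : ℝ => Real.sqrt (1 - (y - a2) ^ 2)) := by fun_prop
  generalize hs : (fun y : ℝ => Real.sqrt (1 - (y - a2) ^ 2)) = s at hsc
  have hsy : ∀ y, s y = Real.sqrt (1 - (y - a2) ^ 2) := fun y => by rw [← hs]
  have hRm : MeasurableSet {z : ℝ × ℝ | (a2 - 1 / 2 ≤ z.2 ∧ z.2 ≤ a2 + 1 / 2) ∧
      (a1 + s z.2 ≤ z.1 ∧ z.1 ≤ a1 + s z.2 + 2 / 5 * d)} := by
    apply IsClosed.measurableSet
    refine IsClosed.and (IsClosed.and ?_ ?_) (IsClosed.and ?_ ?_)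
    · exact isClosed_le (by fun_prop) (by fun_prop)
    · exact isClosed_le (by fun_prop) (by fun_prop)
    · exact isClosed_le (by fun_prop) (by fun_prop)
    · exact isClosed_le (by fun_prop) (by fun_prop)
  have hsub : {z : ℝ × ℝ | (a2 - 1 / 2 ≤ z.2 ∧ z.2 ≤ a2 + 1 / 2) ∧
      (a1 + s z.2 ≤ z.1 ∧ z.1 ≤ a1 + s z.2 + 2 / 5 * d)} ⊆
      {z | Near d (a1, a2) z} ∩ square := by
    rintro ⟨x, y⟩ ⟨⟨h1, h2⟩, h3, h4⟩
    simp only at h1 h2 h3 h4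
    have hq : (y - a2) ^ 2 ≤ 1 / 4 := by nlinarith
    have hs0 : 0 ≤ s y := by rw [hsy]; exact Real.sqrt_nonneg _
    have hsq : s y ^ 2 = 1 - (y - a2) ^ 2 := by
      rw [hsy]; exact Real.sq_sqrt (by linarith)
    have hs1 : s y ≤ 1 := by nlinarith [sq_nonneg (y - a2)]
    have hw1 : 0 ≤ x - a1 - s y := by linarith
    have hw2 : 0 ≤ s y + 2 / 5 * d - (x - a1) := by linarith
    refine ⟨⟨?_, ?_⟩, ?_⟩
    · simp only
      nlinarith [mul_nonneg hw1 (add_nonneg hw1 hs0), mul_nonneg hw1 hs0]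
    · simp only
      have e1 : (x - a1) ^ 2 ≤ (s y + 2 / 5 * d) ^ 2 := by
        apply pow_le_pow_left₀ (by linarith) (by linarith)
      have e2 : (s y + 2 / 5 * d) ^ 2 ≤ s y ^ 2 + d := by
        nlinarith [mul_nonneg hd.le (sub_nonneg.2 hs1), mul_nonneg hd.le (sub_nonneg.2 hd1)]
      nlinarith
    · exact ⟨⟨by simp only; linarith, by simp only; linarith⟩,
        ⟨by simp only; linarith, by simp only; linarith⟩⟩
  refine le_trans ?_ (measure_mono hsub)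
  rw [Measure.volume_eq_prod, Measure.prod_apply_symm hRm]
  calc ENNReal.ofReal (2 / 5 * d)
      = ∫⁻ y in Set.Icc (a2 - 1 / 2) (a2 + 1 / 2), ENNReal.ofReal (2 / 5 * d) := by
        rw [setLIntegral_const, Real.volume_Icc]
        have : a2 + 1 / 2 - (a2 - 1 / 2) = 1 := by ring
        rw [this, ENNReal.ofReal_one, mul_one]
    _ ≤ ∫⁻ y in Set.Icc (a2 - 1 / 2) (a2 + 1 / 2),
          volume ((fun x : ℝ => (x, y)) ⁻¹' {z : ℝ × ℝ | (a2 - 1 / 2 ≤ z.2 ∧ z.2 ≤ a2 + 1 / 2) ∧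
            (a1 + s z.2 ≤ z.1 ∧ z.1 ≤ a1 + s z.2 + 2 / 5 * d)}) := by
        apply setLIntegral_mono' measurableSet_Icc
        intro y hy
        have hsl : Set.Icc (a1 + s y) (a1 + s y + 2 / 5 * d) ⊆
            (fun x : ℝ => (x, y)) ⁻¹' {z : ℝ × ℝ | (a2 - 1 / 2 ≤ z.2 ∧ z.2 ≤ a2 + 1 / 2) ∧
            (a1 + s z.2 ≤ z.1 ∧ z.1 ≤ a1 + s z.2 + 2 / 5 * d)} :=
          fun x hx => ⟨⟨hy.1, hy.2⟩, hx.1, hx.2⟩
        refine le_trans (le_of_eq ?_) (measure_mono hsl)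
        rw [Real.volume_Icc]
        congr 1
        ring
    _ ≤ _ := setLIntegral_le_lintegral _ _

end Pool.Agent.H31.UR
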