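import Pool.Agent.H31.UR.Def

/-!
# Blk: blocks decided by few comparisons (after Pool.Agent.H90.UD.Comb)
-/

set_option autoImplicit false

namespace Pool.Agent.H31.UR

open Finset

namespace Bk

open Classical in
/-- the number of pairs of the relation -/
noncomputable def NI {n : ℕ} (R : Fin n → Fin n → Prop) (A B : Finset (Fin n)) : ℕ :=
  ∑ p ∈ A, ∑ l ∈ B, if R p l then 1 else 0

theorem NI_split_left {n : ℕ} (R : Fin n → Fin n → Prop) (A A' B : Finset (Fin n)) (h : A' ⊆ A) :
    NI R A B = NI R A' B + NI R (A \ A') B := by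
  unfold NI
  rw [add_comm, sum_sdiff h]

theorem NI_split_right {n : ℕ} (R : Fin n → Fin n → Prop) (A B : Finset (Fin n))
    (P : Fin n → Prop) [DecidablePred P] :
    NI R A B = NI R A (B.filter P) + NI R A (B.filter (fun l => ¬ P l)) := by
  unfold NI
  rw [← sum_add_distrib]
  exact sum_congr rfl fun p _ => (sum_filter_add_sum_filter_not B P _).symm

theorem cnt_eq {n : ℕ} (d : ℝ) (p : Fin n → ℝ × ℝ) (A B : Finset (Fin n)) :
    cnt d p A B = NI (fun i j => Near d (p i) (p j)) A B := by
  unfold cnt NI
  rw [card_filter, sum_product]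

/-- the lower part of a finite set with respect to a real function -/
theorem lower_part {n : ℕ} (A : Finset (Fin n)) (f : Fin n → ℝ) (m : ℕ) (hm : m ≤ A.card) :
    ∃ A' ⊆ A, A'.card = m ∧ ∀ a ∈ A', ∀ a' ∈ A \ A', f a ≤ f a' := by
  classical
  induction m with
  | zero => exact ⟨∅, empty_subset _, card_empty, fun a ha => absurd ha (notMem_empty a)⟩
  | succ m ih =>
    obtain ⟨A', hA', hc, hf⟩ := ih (by omega)
    have hne : (A \ A').Nonempty := by
      rw [← card_pos, card_sdiff_of_subset hA']
      omega
    obtain ⟨a₀, ha₀, hmin⟩ := exists_min_image (A \ A') f hne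
    obtain ⟨ha₀A, ha₀A'⟩ := mem_sdiff.1 ha₀
    refine ⟨insert a₀ A', insert_subset ha₀A hA', ?_, ?_⟩
    · rw [card_insert_of_notMem ha₀A', hc]
    · intro a ha a' ha'
      obtain ⟨h1, h2⟩ := mem_sdiff.1 ha'
      have h3 : a' ∈ A \ A' := mem_sdiff.2 ⟨h1, fun h => h2 (mem_insert_of_mem h)⟩
      rcases mem_insert.1 ha with rfl | ha
      · exact hmin a' h3
      · exact hf a ha a' h3

/-- one comparison costs a logarithm -/
theorem stair {n : ℕ} (R : Fin n → Fin n → Prop) (f g : Fin n → ℝ) (K : ℕ) : ∀ (N : ℕ) (A B : Finset (Fin n)), A.card ≤ N →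
    (∀ A' ⊆ A, ∀ B' ⊆ B, ((∀ p ∈ A', ∀ l ∈ B', f p < g l) ∨ (∀ p ∈ A', ∀ l ∈ B', ¬ f p < g l)) →
      NI R A' B' ≤ (A'.card + B'.card) * K) →
    NI R A B ≤ (A.card + B.card) * (K * (Nat.clog 2 A.card + 2)) := by
  classical
  intro N
  induction N using Nat.strong_induction_on with
  | _ N ih =>
    intro A B hAN hyp
    rcases Nat.eq_zero_or_pos A.card with h0 | h0
    · have : A = ∅ := card_eq_zero.1 h0
      subst this
      simp [NI]
    rcases Nat.lt_or_ge A.card 2 with h1 | h1
    · have h2 : A.card = 1 := by omega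
      obtain ⟨p, rfl⟩ := card_eq_one.1 h2
      rw [NI_split_right R {p} B (fun l => f p < g l)]
      have a1 := hyp {p} (Subset.refl _) (B.filter (fun l => f p < g l)) (filter_subset _ _)
        (Or.inl fun q hq l hl => by
          rw [mem_singleton.1 hq]
          exact (mem_filter.1 hl).2)
      have a2 := hyp {p} (Subset.refl _) (B.filter (fun l => ¬ f p < g l)) (filter_subset _ _)
        (Or.inr fun q hq l hl => by
          rw [mem_singleton.1 hq]
          exact (mem_filter.1 hl).2)
      have a3 := card_filter_add_card_filter_not (s := B) (fun l => f p < g l)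
      rw [card_singleton] at *
      have a4 : Nat.clog 2 1 = 0 := Nat.clog_one_right 2
      rw [a4]
      set b1 := (B.filter (fun l => f p < g l)).card
      set b2 := (B.filter (fun l => ¬ f p < g l)).card
      calc _ ≤ (1 + b1) * K + (1 + b2) * K := Nat.add_le_add a1 a2
        _ = (2 + (b1 + b2)) * K := by ring
        _ = (2 + B.card) * K := by rw [a3]
        _ ≤ (1 + B.card) * (K * (0 + 2)) := by
            have : (2 + B.card) * K ≤ (2 * (1 + B.card)) * K := Nat.mul_le_mul_right K (by omega)
            calc (2 + B.card) * K ≤ (2 * (1 + B.card)) * K := this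
              _ = (1 + B.card) * (K * (0 + 2)) := by ring
    · obtain ⟨A1, hA1, hc1, hf1⟩ := lower_part A f (A.card / 2) (Nat.div_le_self _ _)
      set A2 := A \ A1 with hA2
      have hA2s : A2 ⊆ A := sdiff_subset
      have hc2 : A2.card = A.card - A.card / 2 := by
        rw [hA2, card_sdiff_of_subset hA1, hc1]
      have hne : A2.Nonempty := by
        rw [← card_pos, hc2]
        omega
      obtain ⟨a₀, ha₀, hmin⟩ := exists_min_image A2 f hne
      have hlog : Nat.clog 2 A.card = Nat.clog 2 ((A.card + 2 - 1) / 2) + 1 :=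
        Nat.clog_of_two_le (by norm_num) h1
      have hl1 : Nat.clog 2 A1.card ≤ Nat.clog 2 ((A.card + 2 - 1) / 2) :=
        Nat.clog_mono_right 2 (by omega)
      have hl2 : Nat.clog 2 A2.card ≤ Nat.clog 2 ((A.card + 2 - 1) / 2) :=
        Nat.clog_mono_right 2 (by omega)
      set c := Nat.clog 2 ((A.card + 2 - 1) / 2) with hc
      set B1 := B.filter (fun l => f a₀ < g l) with hB1
      set B2 := B.filter (fun l => ¬ f a₀ < g l) with hB2
      have hB1s : B1 ⊆ B := filter_subset _ _
      have hB2s : B2 ⊆ B := filter_subset _ _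
      have hb := card_filter_add_card_filter_not (s := B) (fun l => f a₀ < g l)
      have e1 : NI R A B = (NI R A1 B1 + NI R A1 B2) + (NI R A2 B1 + NI R A2 B2) := by
        rw [NI_split_left R A A1 B hA1, NI_split_right R A1 B (fun l => f a₀ < g l),
          NI_split_right R (A \ A1) B (fun l => f a₀ < g l)]
      have b11 : NI R A1 B1 ≤ (A1.card + B1.card) * K := by
        refine hyp A1 hA1 B1 hB1s (Or.inl fun p hp l hl => ?_)
        exact lt_of_le_of_lt (hf1 p hp a₀ ha₀) (mem_filter.1 hl).2
      have b22 : NI R A2 B2 ≤ (A2.card + B2.card) * K := by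
        refine hyp A2 hA2s B2 hB2s (Or.inr fun p hp l hl => ?_)
        have h3 := (mem_filter.1 hl).2
        have h4 := hmin p hp
        intro h5
        exact h3 (lt_of_le_of_lt h4 h5)
      have b12 : NI R A1 B2 ≤ (A1.card + B2.card) * (K * (c + 2)) := by
        have h3 := ih A1.card (by omega) A1 B2 le_rfl fun A' hA' B' hB' h =>
          hyp A' (hA'.trans hA1) B' (hB'.trans hB2s) h
        refine h3.trans (Nat.mul_le_mul_left _ (Nat.mul_le_mul_left _ (by omega)))
      have b21 : NI R A2 B1 ≤ (A2.card + B1.card) * (K * (c + 2)) := by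
        have h3 := ih A2.card (by omega) A2 B1 le_rfl fun A' hA' B' hB' h =>
          hyp A' (hA'.trans hA2s) B' (hB'.trans hB1s) h
        refine h3.trans (Nat.mul_le_mul_left _ (Nat.mul_le_mul_left _ (by omega)))
      have hac : A1.card + A2.card = A.card := by omega
      have hbc : B1.card + B2.card = B.card := hb
      rw [e1, hlog]
      calc (NI R A1 B1 + NI R A1 B2) + (NI R A2 B1 + NI R A2 B2)
          ≤ ((A1.card + B1.card) * K + (A1.card + B2.card) * (K * (c + 2))) +
            ((A2.card + B1.card) * (K * (c + 2)) + (A2.card + B2.card) * K) :=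
            Nat.add_le_add (Nat.add_le_add b11 b12) (Nat.add_le_add b21 b22)
        _ = ((A1.card + A2.card) + (B1.card + B2.card)) * (K * (c + 1 + 2)) := by ring
        _ = (A.card + B.card) * (K * (c + 1 + 2)) := by rw [hac, hbc]

end Bk

theorem blk : BlkStmt := by
  classical
  intro r
  induction r with
  | zero =>
    intro n K d p hyp A B hE
    rw [pow_zero, mul_one]
    obtain ⟨f, g, h⟩ := hE
    by_cases hN : ∃ i ∈ A, ∃ j ∈ B, Near d (p i) (p j)
    · obtain ⟨i, hi, j, hj, hij⟩ := hN
      have hnc : ¬ Close (p i) (p j) := by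
        intro hc
        have h1 := hij.1
        unfold Close at hc
        linarith
      have := hyp A B fun i' hi' j' hj' hc =>
        hnc ((h i hi j hj i' hi' j' hj' fun k => k.elim0).2 hc)
      rw [mul_comm]
      exact this
    · push Not at hN
      have : cnt d p A B = 0 := by
        unfold cnt
        rw [card_eq_zero, filter_eq_empty_iff]
        intro z hz
        rw [mem_product] at hz
        exact hN z.1 hz.1 z.2 hz.2
      omega
  | succ r ih =>
    intro n K d p hyp A B hE
    obtain ⟨f, g, h⟩ := hE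
    have h1 := Bk.stair (fun i j => Near d (p i) (p j)) (f 0) (g 0)
      (K * (Nat.clog 2 n + 2) ^ r) A.card A B le_rfl
      (fun A' hA' B' hB' hc => by
        rw [← Bk.cnt_eq]
        refine ih n K d p hyp A' B' ⟨fun i => f i.succ, fun i => g i.succ,
          fun i hi j hj i' hi' j' hj' hk => ?_⟩
        refine h i (hA' hi) j (hB' hj) i' (hA' hi') j' (hB' hj') fun k => ?_
        refine Fin.cases ?_ (fun k' => hk k') k
        rcases hc with hc | hc
        · exact ⟨fun _ => hc i' hi' j' hj', fun _ => hc i hi j hj⟩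
        · exact ⟨fun hh => absurd hh (hc i hi j hj), fun hh => absurd hh (hc i' hi' j' hj')⟩)
    rw [Bk.cnt_eq]
    refine h1.trans (Nat.mul_le_mul_left _ ?_)
    rw [pow_succ, mul_assoc]
    refine Nat.mul_le_mul_left _ (Nat.mul_le_mul_left _ ?_)
    have h2 : A.card ≤ n := by
      have := card_le_univ A
      rwa [Fintype.card_fin] at this
    have := Nat.clog_mono_right 2 h2
    omega

end Pool.Agent.H31.UR
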