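import Pool.Agent.H31.UR.DefT
import Pool.Agent.H31.UR.Blk

/-!
# BlkT: blocks decided by trees
-/

set_option autoImplicit false

namespace Pool.Agent.H31.UR

open Finset

theorem Dec_mono {n : ℕ} (p : Fin n → ℝ × ℝ) (r : ℕ) : ∀ S S' : Set (Fin n × Fin n), S' ⊆ S →
    Dec p r S → Dec p r S' := by
  induction r with
  | zero =>
    intro S S' hS h z hz z' hz'
    exact h z (hS hz) z' (hS hz')
  | succ r ih =>
    rintro S S' hS ⟨f, g, h1, h2⟩
    exact ⟨f, g, ih _ _ (by rintro z ⟨hz, hz'⟩; exact ⟨hS hz, hz'⟩) h1,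
      ih _ _ (by rintro z ⟨hz, hz'⟩; exact ⟨hS hz, hz'⟩) h2⟩

/-- `r` comparisons are a tree of depth `r` -/
theorem Easy_Dec {n : ℕ} (p : Fin n → ℝ × ℝ) (r : ℕ) : ∀ (S : Set (Fin n × Fin n))
    (f g : Fin r → Fin n → ℝ), (∀ z ∈ S, ∀ z' ∈ S, (∀ k, f k z.1 < g k z.2 ↔ f k z'.1 < g k z'.2) →
      (Close (p z.1) (p z.2) ↔ Close (p z'.1) (p z'.2))) → Dec p r S := by
  induction r with
  | zero =>
    intro S f g h z hz z' hz'
    exact h z hz z' hz' fun k => k.elim0
  | succ r ih =>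
    intro S f g h
    refine ⟨f 0, g 0, ih _ (fun k => f k.succ) (fun k => g k.succ) fun z hz z' hz' hk => ?_,
      ih _ (fun k => f k.succ) (fun k => g k.succ) fun z hz z' hz' hk => ?_⟩
    · refine h z hz.1 z' hz'.1 fun k => ?_
      refine Fin.cases ?_ (fun k' => hk k') k
      exact ⟨fun _ => hz'.2, fun _ => hz.2⟩
    · refine h z hz.1 z' hz'.1 fun k => ?_
      refine Fin.cases ?_ (fun k' => hk k') k
      exact ⟨fun hh => absurd hh hz.2, fun hh => absurd hh hz'.2⟩

theorem blkT (r : ℕ) : ∀ (n K : ℕ) (d : ℝ) (p : Fin n → ℝ × ℝ),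
    (∀ A B : Finset (Fin n), (∀ i ∈ A, ∀ j ∈ B, ¬ Close (p i) (p j)) →
      cnt d p A B ≤ K * (A.card + B.card)) →
    ∀ A B : Finset (Fin n), Dec p r {z | z.1 ∈ A ∧ z.2 ∈ B} →
      cnt d p A B ≤ (A.card + B.card) * (K * (Nat.clog 2 n + 2) ^ r) := by
  classical
  induction r with
  | zero =>
    intro n K d p hyp A B h
    rw [pow_zero, mul_one]
    by_cases hN : ∃ i ∈ A, ∃ j ∈ B, Near d (p i) (p j)
    · obtain ⟨i, hi, j, hj, hij⟩ := hN
      have hnc : ¬ Close (p i) (p j) := by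
        intro hc
        have h1 := hij.1
        unfold Close at hc
        linarith
      have := hyp A B fun i' hi' j' hj' hc =>
        hnc ((h (i, j) ⟨hi, hj⟩ (i', j') ⟨hi', hj'⟩).2 hc)
      rw [mul_comm]
      exact this
    · push Not at hN
      have : cnt d p A B = 0 := by
        unfold cnt
        rw [card_eq_zero, filter_eq_empty_iff]
        intro z hz
        rw [mem_product] at hz
        exact hN z.1 hz.1 z.2 hz.2
      omega
  | succ r ih =>
    intro n K d p hyp A B hE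
    obtain ⟨f, g, h1, h2⟩ := hE
    have h1 := Bk.stair (fun i j => Near d (p i) (p j)) f g
      (K * (Nat.clog 2 n + 2) ^ r) A.card A B le_rfl
      (fun A' hA' B' hB' hc => by
        rw [← Bk.cnt_eq]
        refine ih n K d p hyp A' B' ?_
        rcases hc with hc | hc
        · exact Dec_mono p r _ _ (by
            rintro z ⟨hz1, hz2⟩; exact ⟨⟨hA' hz1, hB' hz2⟩, hc z.1 hz1 z.2 hz2⟩) h1
        · exact Dec_mono p r _ _ (by
            rintro z ⟨hz1, hz2⟩; exact ⟨⟨hA' hz1, hB' hz2⟩, hc z.1 hz1 z.2 hz2⟩) h2)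
    rw [Bk.cnt_eq]
    refine h1.trans (Nat.mul_le_mul_left _ ?_)
    rw [pow_succ, mul_assoc]
    refine Nat.mul_le_mul_left _ (Nat.mul_le_mul_left _ ?_)
    have h2 : A.card ≤ n := by
      have := card_le_univ A
      rwa [Fintype.card_fin] at this
    have := Nat.clog_mono_right 2 h2
    omega

end Pool.Agent.H31.UR
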