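import Pool.Agent.H31.UR.Def

/-!
# General densities: statements of the modules `Cng`, `Spg`, `Low` and of the theorem

The points are independent with a common density `ρ ≤ M` on the plane which is at least `m > 0` on two
discs of radius `s` whose centres have distance `1`.
-/

set_option autoImplicit false

namespace Pool.Agent.H31.UR

open MeasureTheory Finset

/-- module `Cng` (uses `Fub`): the number of near pairs for a general distribution; same proof as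
`count` in `Cnt.lean` -/
def CountG : Prop := ∀ μ : Measure (ℝ × ℝ), IsProbabilityMeasure μ →
  ∀ (n : ℕ) (d q1 q2 : ℝ), 2 ≤ n → 0 < q1 → 0 ≤ q2 →
  (∀ a, μ {z | Near d a z} ≤ ENNReal.ofReal q2) →
  ENNReal.ofReal q1 ≤ (μ.prod μ) {z | Near d z.1 z.2} →
  (Measure.pi fun _ : Fin n => μ) {p | (cnt d p univ univ : ℝ) < (n : ℝ) ^ 2 * q1 / 4} ≤
    ENNReal.ofReal (64 * q2 ^ 2 / (n * q1 ^ 2) + 32 * q2 / ((n : ℝ) ^ 2 * q1 ^ 2))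

/-- module `Spg` (uses `Fub`): same proof as `SparseStmt` -/
def SparseG : Prop := ∀ μ : Measure (ℝ × ℝ), IsProbabilityMeasure μ →
  ∀ (n L : ℕ) (d e q : ℝ), 0 ≤ q → (∀ a b, μ {z | Reg d e a b z} ≤ ENNReal.ofReal q) →
  (Measure.pi fun _ : Fin n => μ) {p | ¬ Sparse d e (L + 2) p} ≤
    ENNReal.ofReal ((n : ℝ) ^ 2 * ((n : ℝ) * q) ^ L)

/-- module `Low`: lower bound for the area -/
def LowG : Prop := ∀ (x y : ℝ × ℝ) (s : ℝ), 0 < s → (x.1 - y.1) ^ 2 + (x.2 - y.2) ^ 2 = 1 →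
  ∃ w d0 c0 : ℝ, 0 < w ∧ 2 * w ^ 2 < s ^ 2 ∧ 0 < d0 ∧ 0 < c0 ∧ ∀ d : ℝ, 0 < d → d ≤ d0 →
  ∀ a : ℝ × ℝ, |a.1 - x.1| ≤ w → |a.2 - x.2| ≤ w → ENNReal.ofReal (c0 * d) ≤
    volume ({z | Near d a z} ∩ {z | (z.1 - y.1) ^ 2 + (z.2 - y.2) ^ 2 < s ^ 2})

/-- the theorem -/
def MainG : Prop := ∀ (ρ : ℝ × ℝ → ENNReal) (M m s : ℝ) (x y : ℝ × ℝ), Measurable ρ →
  ∫⁻ z, ρ z = 1 → (∀ z, ρ z ≤ ENNReal.ofReal M) → 0 < m → 0 < s →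
  (x.1 - y.1) ^ 2 + (x.2 - y.2) ^ 2 = 1 →
  (∀ z, (z.1 - x.1) ^ 2 + (z.2 - x.2) ^ 2 < s ^ 2 → ENNReal.ofReal m ≤ ρ z) →
  (∀ z, (z.1 - y.1) ^ 2 + (z.2 - y.2) ^ 2 < s ^ 2 → ENNReal.ofReal m ≤ ρ z) →
  ∃ c C : ℝ, 0 < c ∧ ∀ n : ℕ, 3 ≤ n → (Measure.pi fun _ : Fin n => volume.withDensity ρ)
    {p | ∃ r, Cheap r (c * (n : ℝ) ^ (4 / 3 : ℝ) / (5 * Real.log n) ^ (r + 1)) p} ≤
      ENNReal.ofReal (C / n)

end Pool.Agent.H31.UR
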