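import Mathlib
import Pool.Agent.H31.UR.Gen

/-!
# The number of near pairs, general distribution (MP_31a0d1_lc)

`CountG` by the second moment method (the file `Cnt.lean` with a general probability measure).
-/

set_option autoImplicit false

namespace Pool.Agent.H31.UR

open MeasureTheory Finset ProbabilityTheory

namespace Cg

theorem near_meas' (d : ℝ) : MeasurableSet {z : (ℝ × ℝ) × (ℝ × ℝ) | Near d z.1 z.2} := by
  have h1 : MeasurableSet {z : (ℝ × ℝ) × (ℝ × ℝ) |
      1 ≤ (z.1.1 - z.2.1) ^ 2 + (z.1.2 - z.2.2) ^ 2} :=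
    measurableSet_le measurable_const (by fun_prop)
  have h2 : MeasurableSet {z : (ℝ × ℝ) × (ℝ × ℝ) |
      (z.1.1 - z.2.1) ^ 2 + (z.1.2 - z.2.2) ^ 2 ≤ 1 + d} :=
    measurableSet_le (by fun_prop) measurable_const
  exact h1.inter h2

theorem near_comm' (d : ℝ) (a b : ℝ × ℝ) (h : Near d a b) : Near d b a := by
  unfold Near at *
  obtain ⟨h1, h2⟩ := h
  constructor <;> nlinarith

/-- The event that the pair `s` is near. -/
def A {n : ℕ} (d : ℝ) (s : Fin n × Fin n) : Set (Fin n → ℝ × ℝ) := {p | Near d (p s.1) (p s.2)}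

theorem A_meas {n : ℕ} (d : ℝ) (s : Fin n × Fin n) : MeasurableSet (A d s) := by
  have h : Measurable fun p : Fin n → ℝ × ℝ => (p s.1, p s.2) := by fun_prop
  exact h (near_meas' d)

variable (μ : Measure (ℝ × ℝ)) [IsProbabilityMeasure μ]

/-- The probability measure. -/
noncomputable abbrev P (n : ℕ) : Measure (Fin n → ℝ × ℝ) := Measure.pi fun _ : Fin n => μ

theorem indep (n : ℕ) : iIndepFun (fun (i : Fin n) (ω : Fin n → ℝ × ℝ) => ω i) (P μ n) :=
  iIndepFun_pi (X := fun _ => id) (fun _ => aemeasurable_id)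

theorem A_eq {n : ℕ} (d : ℝ) (s : Fin n × Fin n) (hs : s.1 ≠ s.2) :
    P μ n (A d s) = (μ.prod μ) {z | Near d z.1 z.2} := by
  have h2 := ((indep μ n).indepFun hs).map_prod_eq_prod_map_map (measurable_pi_apply s.1).aemeasurable
    (measurable_pi_apply s.2).aemeasurable
  have h3 : (P μ n).map (fun ω => ω s.1) = μ := (measurePreserving_eval _ s.1).map_eq
  have h4 : (P μ n).map (fun ω => ω s.2) = μ := (measurePreserving_eval _ s.2).map_eq
  rw [h3, h4] at h2
  rw [← h2, Measure.map_apply (by fun_prop) (near_meas' d)]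
  rfl

theorem A_ge {n : ℕ} (d q1 : ℝ) (h1 : ENNReal.ofReal q1 ≤ (μ.prod μ) {z | Near d z.1 z.2})
    (s : Fin n × Fin n) (hs : s.1 ≠ s.2) : q1 ≤ (P μ n).real (A d s) := by
  rw [← A_eq μ d s hs] at h1
  rw [measureReal_def]
  exact (ENNReal.ofReal_le_iff_le_toReal (measure_ne_top _ _)).1 h1

/-- The set used in `FubStmt`. -/
theorem S_meas (d : ℝ) :
    MeasurableSet {x : (ℝ × ℝ) × (ℝ × ℝ) × (ℝ × ℝ) | Near d x.1 x.2.2} := by
  have h : Measurable fun x : (ℝ × ℝ) × (ℝ × ℝ) × (ℝ × ℝ) => (x.1, x.2.2) := by fun_prop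
  exact h (near_meas' d)

theorem all_near_le (hF : FubStmt) {n : ℕ} (d q : ℝ) (hq : 0 ≤ q)
    (hN : ∀ a, μ {z | Near d a z} ≤ ENNReal.ofReal q)
    (i : Fin n) (T : Finset (Fin n)) (hT : i ∉ T) :
    (P μ n).real {p | ∀ k ∈ T, Near d (p i) (p k)} ≤ q ^ T.card := by
  have h1 := hF n μ inferInstance _ (S_meas d) (ENNReal.ofReal q)
    (fun a b => hN a) i i T hT hT
  rw [← ENNReal.ofReal_pow (by positivity)] at h1
  rw [measureReal_def]
  exact ENNReal.toReal_le_of_le_ofReal (by positivity) h1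

theorem A_le (hF : FubStmt) {n : ℕ} (d q : ℝ) (hq : 0 ≤ q)
    (hN : ∀ a, μ {z | Near d a z} ≤ ENNReal.ofReal q)
    (s : Fin n × Fin n) (hs : s.1 ≠ s.2) : (P μ n).real (A d s) ≤ q := by
  have h1 := all_near_le μ hF d q hq hN s.1 {s.2} (by simpa using hs)
  simp only [Finset.mem_singleton, forall_eq, Finset.card_singleton, pow_one] at h1
  exact h1

theorem two_le (hF : FubStmt) {n : ℕ} (d q : ℝ) (hq : 0 ≤ q)
    (hN : ∀ a, μ {z | Near d a z} ≤ ENNReal.ofReal q)
    (i j l : Fin n) (hij : i ≠ j) (hil : i ≠ l) (hjl : j ≠ l) :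
    (P μ n).real {p | Near d (p i) (p j) ∧ Near d (p i) (p l)} ≤ q ^ 2 := by
  have h1 := all_near_le μ hF d q hq hN i {j, l} (by simp [hij, hil])
  rw [Finset.card_pair hjl] at h1
  simpa using h1

/-- The indicator of the event. -/
noncomputable def Y {n : ℕ} (d : ℝ) (s : Fin n × Fin n) : (Fin n → ℝ × ℝ) → ℝ :=
  (A d s).indicator fun _ => (1 : ℝ)

theorem Y_memLp {n : ℕ} (d : ℝ) (s : Fin n × Fin n) : MemLp (Y d s) 2 (P μ n) :=
  memLp_indicator_const 2 (A_meas d s) 1 (Or.inr (measure_ne_top _ _))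

theorem Y_int {n : ℕ} (d : ℝ) (s : Fin n × Fin n) : ∫ p, Y d s p ∂(P μ n) = (P μ n).real (A d s) := by
  unfold Y
  rw [integral_indicator_const _ (A_meas d s)]
  simp

theorem cov_le {n : ℕ} (d : ℝ) (s t : Fin n × Fin n) :
    covariance (Y d s) (Y d t) (P μ n) ≤ (P μ n).real (A d s ∩ A d t) := by
  rw [covariance_eq_sub (Y_memLp μ d s) (Y_memLp μ d t), Y_int, Y_int]
  have h1 : ∫ p, (Y d s * Y d t) p ∂(P μ n) = (P μ n).real (A d s ∩ A d t) := by
    have h2 : Y d s * Y d t = (A d s ∩ A d t).indicator fun _ => (1 : ℝ) := by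
      funext p
      unfold Y
      by_cases h1 : p ∈ A d s <;> by_cases h2 : p ∈ A d t <;> simp [h1, h2]
    rw [h2, integral_indicator_const _ ((A_meas d s).inter (A_meas d t))]
    simp
  rw [h1]
  have := measureReal_nonneg (μ := P μ n) (s := A d s)
  have := measureReal_nonneg (μ := P μ n) (s := A d t)
  nlinarith

theorem cov_zero {n : ℕ} (d : ℝ) (s t : Fin n × Fin n) (h1 : s.1 ≠ t.1) (h2 : s.1 ≠ t.2)
    (h3 : s.2 ≠ t.1) (h4 : s.2 ≠ t.2) : covariance (Y d s) (Y d t) (P μ n) = 0 := by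
  have h5 := (indep μ n).indepFun_prodMk_prodMk (fun i => measurable_pi_apply i) s.1 s.2 t.1 t.2
    h1 h2 h3 h4
  have hm : Measurable ({z : (ℝ × ℝ) × (ℝ × ℝ) | Near d z.1 z.2}.indicator fun _ => (1 : ℝ)) :=
    measurable_const.indicator (near_meas' d)
  have h6 := h5.comp hm hm
  exact IndepFun.covariance_eq_zero h6 (Y_memLp μ d s) (Y_memLp μ d t)

/-- The bound for the covariance. -/
noncomputable def g {n : ℕ} (q : ℝ) (s t : Fin n × Fin n) : ℝ :=
  q ^ 2 * ((if t.1 = s.1 then 1 else 0) + (if t.1 = s.2 then 1 else 0) +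
    (if t.2 = s.1 then 1 else 0) + (if t.2 = s.2 then 1 else 0)) +
  q * ((if t = s then 1 else 0) + (if t = s.swap then 1 else 0))

theorem g_nonneg {n : ℕ} (q : ℝ) (hq : 0 ≤ q) (s t : Fin n × Fin n) : 0 ≤ g q s t := by
  unfold g
  positivity

theorem sum_fst {n : ℕ} (a : Fin n) :
    ∑ t : Fin n × Fin n, (if t.1 = a then (1 : ℝ) else 0) = n := by
  rw [Fintype.sum_prod_type_right]
  simp only [Finset.sum_ite_eq', Finset.mem_univ, if_true, Finset.sum_const, Finset.card_univ,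
    Fintype.card_fin, nsmul_eq_mul, mul_one]

theorem sum_snd {n : ℕ} (a : Fin n) :
    ∑ t : Fin n × Fin n, (if t.2 = a then (1 : ℝ) else 0) = n := by
  rw [Fintype.sum_prod_type]
  simp only [Finset.sum_ite_eq', Finset.mem_univ, if_true, Finset.sum_const, Finset.card_univ,
    Fintype.card_fin, nsmul_eq_mul, mul_one]

theorem g_sum {n : ℕ} (q : ℝ) (s : Fin n × Fin n) :
    ∑ t, g q s t = q ^ 2 * (4 * n) + q * 2 := by
  unfold g
  rw [Finset.sum_add_distrib, ← Finset.mul_sum, ← Finset.mul_sum]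
  congr 2
  · rw [Finset.sum_add_distrib, Finset.sum_add_distrib, Finset.sum_add_distrib, sum_fst, sum_fst,
      sum_snd, sum_snd]
    ring
  · rw [Finset.sum_add_distrib]
    simp
    norm_num

theorem g_ge_q {n : ℕ} (q : ℝ) (hq : 0 ≤ q) (s t : Fin n × Fin n) (h : t = s ∨ t = s.swap) :
    q ≤ g q s t := by
  have key : ∀ a x y : ℝ, 0 ≤ a → 0 ≤ x → 0 ≤ y → x = 1 ∨ y = 1 →
      q ≤ q ^ 2 * a + q * (x + y) := by
    intro a x y ha hx hy hxy
    have h1 : 0 ≤ q ^ 2 * a := by positivity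
    rcases hxy with h2 | h2 <;> subst h2 <;> nlinarith
  unfold g
  refine key _ _ _ (by positivity) (by positivity) (by positivity) ?_
  rcases h with h | h
  · left; rw [if_pos h]
  · right; rw [if_pos h]

theorem g_ge_q2 {n : ℕ} (q : ℝ) (hq : 0 ≤ q) (s t : Fin n × Fin n)
    (h : t.1 = s.1 ∨ t.1 = s.2 ∨ t.2 = s.1 ∨ t.2 = s.2) : q ^ 2 ≤ g q s t := by
  have key : ∀ a b c e x : ℝ, 0 ≤ a → 0 ≤ b → 0 ≤ c → 0 ≤ e → 0 ≤ x →
      a = 1 ∨ b = 1 ∨ c = 1 ∨ e = 1 → q ^ 2 ≤ q ^ 2 * (a + b + c + e) + q * x := by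
    intro a b c e x ha hb hc he hx h1
    have h2 : 0 ≤ q * x := by positivity
    have h3 : 1 ≤ a + b + c + e := by rcases h1 with h1 | h1 | h1 | h1 <;> linarith
    nlinarith [sq_nonneg q]
  unfold g
  refine key _ _ _ _ _ (by positivity) (by positivity) (by positivity) (by positivity)
    (by positivity) ?_
  rcases h with h | h | h | h
  · left; rw [if_pos h]
  · right; left; rw [if_pos h]
  · right; right; left; rw [if_pos h]
  · right; right; right; rw [if_pos h]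

theorem cov_g (hF : FubStmt) {n : ℕ} (d q : ℝ) (hq : 0 ≤ q)
    (hN : ∀ a, μ {z | Near d a z} ≤ ENNReal.ofReal q)
    (s t : Fin n × Fin n) (hs : s.1 ≠ s.2) (ht : t.1 ≠ t.2) :
    covariance (Y d s) (Y d t) (P μ n) ≤ g q s t := by
  by_cases h0 : t = s ∨ t = s.swap
  · exact ((cov_le μ d s t).trans ((measureReal_mono Set.inter_subset_left).trans
      (A_le μ hF d q hq hN s hs))).trans (g_ge_q _ hq s t h0)
  push Not at h0
  by_cases h1 : t.1 = s.1 ∨ t.1 = s.2 ∨ t.2 = s.1 ∨ t.2 = s.2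
  · refine ((cov_le μ d s t).trans ?_).trans (g_ge_q2 _ hq s t h1)
    obtain ⟨i, j⟩ := s
    obtain ⟨k, l⟩ := t
    simp only [Prod.mk.injEq, ne_eq, not_and, Prod.swap_prod_mk] at hs ht h0 h1
    rcases h1 with h1 | h1 | h1 | h1
    · subst h1
      refine (measureReal_mono ?_).trans (two_le μ hF d q hq hN k j l hs ht
        (fun e => h0.1 rfl e.symm))
      intro p hp
      exact ⟨hp.1, hp.2⟩
    · subst h1
      refine (measureReal_mono ?_).trans (two_le μ hF d q hq hN k i l (Ne.symm hs) ht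
        (fun e => h0.2 rfl e.symm))
      intro p hp
      exact ⟨near_comm' d _ _ hp.1, hp.2⟩
    · subst h1
      refine (measureReal_mono ?_).trans (two_le μ hF d q hq hN l j k hs (Ne.symm ht)
        (fun e => h0.2 e.symm rfl))
      intro p hp
      exact ⟨hp.1, near_comm' d _ _ hp.2⟩
    · subst h1
      refine (measureReal_mono ?_).trans (two_le μ hF d q hq hN l i k (Ne.symm hs) (Ne.symm ht)
        (fun e => h0.1 e.symm rfl))
      intro p hp
      exact ⟨near_comm' d _ _ hp.1, near_comm' d _ _ hp.2⟩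
  · push Not at h1
    rw [cov_zero μ d s t (Ne.symm h1.1) (Ne.symm h1.2.2.1) (Ne.symm h1.2.1) (Ne.symm h1.2.2.2)]
    exact g_nonneg _ hq s t

/-- The index set. -/
abbrev D (n : ℕ) : Finset (Fin n × Fin n) := (univ : Finset (Fin n)).offDiag

theorem D_card (n : ℕ) (hn : 2 ≤ n) : ((D n).card : ℝ) = (n : ℝ) ^ 2 - n := by
  rw [Finset.offDiag_card, Finset.card_univ, Fintype.card_fin, Nat.cast_sub (by nlinarith)]
  push_cast
  ring

/-- The number of near pairs. -/
noncomputable def X {n : ℕ} (d : ℝ) (p : Fin n → ℝ × ℝ) : ℝ := ∑ s ∈ D n, Y d s p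

theorem X_eq {n : ℕ} (d : ℝ) (p : Fin n → ℝ × ℝ) : (cnt d p univ univ : ℝ) = X d p := by
  classical
  unfold cnt X
  have h1 : ((univ ×ˢ univ : Finset (Fin n × Fin n)).filter fun z => Near d (p z.1) (p z.2)) =
      (D n).filter fun z => Near d (p z.1) (p z.2) := by
    ext z
    simp only [Finset.mem_filter, Finset.mem_product, Finset.mem_univ, true_and,
      Finset.mem_offDiag]
    constructor
    · intro hz
      refine ⟨?_, hz⟩
      intro e
      rw [e] at hz
      have := hz.1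
      norm_num at this
    · exact fun hz => hz.2
  have h2 : (((D n).filter fun z => Near d (p z.1) (p z.2)).card : ℝ) = ∑ s ∈ D n, Y d s p := by
    rw [Finset.card_filter]
    push_cast
    apply Finset.sum_congr rfl
    intro s _
    unfold Y A
    by_cases hs : Near d (p s.1) (p s.2) <;> simp [hs]
  rw [← h2, ← h1]

theorem X_memLp {n : ℕ} (d : ℝ) : MemLp (X (n := n) d) 2 (P μ n) := by
  have := memLp_finsetSum (μ := P μ n) (p := 2) (D n) (f := fun s => Y d s)
    (fun s _ => Y_memLp μ d s)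
  exact this

theorem X_int {n : ℕ} (hn : 2 ≤ n) (d q1 : ℝ) (hq1 : 0 < q1)
    (h1 : ENNReal.ofReal q1 ≤ (μ.prod μ) {z | Near d z.1 z.2}) :
    (n : ℝ) ^ 2 * q1 / 2 ≤ ∫ p, X d p ∂(P μ n) := by
  unfold X
  rw [integral_finset_sum _ (fun s _ => (Y_memLp μ d s).integrable (by norm_num))]
  have h5 : ∑ s ∈ D n, q1 ≤ ∑ s ∈ D n, ∫ p, Y d s p ∂(P μ n) := by
    apply Finset.sum_le_sum
    intro s hs
    rw [Y_int]
    exact A_ge μ d q1 h1 s (Finset.mem_offDiag.1 hs).2.2
  rw [Finset.sum_const, nsmul_eq_mul, D_card n hn] at h5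
  refine le_trans ?_ h5
  have h2 : (2 : ℝ) ≤ n := by exact_mod_cast hn
  have h3 : (n : ℝ) ^ 2 / 2 ≤ (n : ℝ) ^ 2 - n := by nlinarith
  nlinarith

theorem X_var (hF : FubStmt) {n : ℕ} (hn : 2 ≤ n) (d q : ℝ) (hq : 0 ≤ q)
    (hN : ∀ a, μ {z | Near d a z} ≤ ENNReal.ofReal q) :
    variance (X (n := n) d) (P μ n) ≤ 4 * (n : ℝ) ^ 3 * q ^ 2 + 2 * (n : ℝ) ^ 2 * q := by
  have h1 : variance (X (n := n) d) (P μ n) =
      ∑ s ∈ D n, ∑ t ∈ D n, covariance (Y d s) (Y d t) (P μ n) :=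
    variance_fun_sum' (fun s _ => Y_memLp μ d s)
  rw [h1]
  have h2 : ∑ s ∈ D n, ∑ t ∈ D n, covariance (Y d s) (Y d t) (P μ n) ≤
      ∑ s ∈ D n, (q ^ 2 * (4 * n) + q * 2) := by
    apply Finset.sum_le_sum
    intro s hs
    rw [← g_sum q s]
    calc ∑ t ∈ D n, covariance (Y d s) (Y d t) (P μ n) ≤ ∑ t ∈ D n, g q s t := by
          apply Finset.sum_le_sum
          intro t ht
          exact cov_g μ hF d q hq hN s t (Finset.mem_offDiag.1 hs).2.2
            (Finset.mem_offDiag.1 ht).2.2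
      _ ≤ ∑ t, g q s t :=
          Finset.sum_le_sum_of_subset_of_nonneg (Finset.subset_univ _)
            (fun t _ _ => g_nonneg _ hq s t)
  rw [Finset.sum_const, nsmul_eq_mul, D_card n hn] at h2
  refine h2.trans ?_
  have h3 : (0 : ℝ) ≤ n := by positivity
  have h4 : ((n : ℝ) ^ 2 - n) * (q ^ 2 * (4 * n) + q * 2) ≤
      (n : ℝ) ^ 2 * (q ^ 2 * (4 * n) + q * 2) :=
    mul_le_mul_of_nonneg_right (by linarith) (by positivity)
  refine h4.trans (le_of_eq ?_)
  ring

end Cg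

/-- `CountG` holds. -/
theorem countG (hF : FubStmt) : CountG := by
  intro μ hμ n d q1 q2 hn hq1 hq2 hN h1
  haveI := hμ
  have hn0 : (0 : ℝ) < n := by exact_mod_cast (by omega : 0 < n)
  have hc : 0 < (n : ℝ) ^ 2 * q1 / 4 := by positivity
  have h3 := meas_ge_le_variance_div_sq (μ := Cg.P μ n) (Cg.X_memLp μ (n := n) d) hc
  refine (measure_mono ?_).trans (h3.trans (ENNReal.ofReal_le_ofReal ?_))
  · intro p hp
    simp only [Set.mem_setOf_eq] at hp ⊢
    rw [Cg.X_eq] at hp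
    have h2 := Cg.X_int μ hn d q1 hq1 h1
    rw [abs_sub_comm]
    refine le_trans ?_ (le_abs_self _)
    linarith
  · have h2 := Cg.X_var μ hF hn d q2 hq2 hN
    rw [div_le_iff₀ (by positivity)]
    refine h2.trans (le_of_eq ?_)
    field_simp
    ring

end Pool.Agent.H31.UR
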