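import Mathlib

/-!
# Random points and blocks decided by few comparisons (MP_31a0d1_lc, average case)

`n` independent uniform random points of the square `[0,2]²`. A block is a product `A × B` of two sets
of (indices of) points; it is easy with `r` comparisons if on it the relation `dist < 1` depends only on
the outcome of `r` comparisons `f k i < g k j` of arbitrary real functions of one point each.
THEOREM. With probability tending to 1 every cover of all pairs by easy blocks has total size at least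
`c n ^ (4/3) / (log n) ^ (r+1)`.

PROOF. `d = n^(-2/3)/100`, `e = 3 √d`. `Near d a b`: `1 ≤ |a-b|² ≤ 1+d`.
(1) (`Key`) u, v, t with `|y| ≤ x`, squared norms in `[1,1+d]`, `v.2-u.2 ≥ e`, `u.2-t.2 ≥ e`, `e² ≥ 9 d`:
then `|v+t-u|² < 1`. (2) (`Del`) if `p` is `Sparse d e K`, and no pair of `A × B` is `Close`, then `A × B`
has at most `4 K (|A|+|B|)` near pairs: in one of the four directions (`|b.2-a.2| ≤ b.1-a.1` and its images)
an edge `ab` which has more than `K` edges `ab'` with `b'.2 ≥ b.2` and more than `K` edges `a'b` with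
`a'.2 ≥ a.2` gives by sparseness such edges with `b'.2 ≥ b.2+e`, `a'.2 ≥ a.2+e`, and then `a'b'` is close
(u = b-a, v = b'-a, t = b-a'). (3) (`Blk`) `r` comparisons cost a factor `(clog n + 2)^r`.
(4) (`Are`) areas. (5) (`Spa`) `p` is sparse with `K = L+2`, `L` about `log n`, up to probability `n^(-3)`.
(6) (`Cnt`) the number of near pairs is at least `n² d/400` up to probability `C (1/n + 1/(n² d))`
(Chebyshev).
-/

set_option autoImplicit false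

namespace Pool.Agent.H31.UR

open MeasureTheory Finset

/-- The distance of `a` and `b` is less than `1`. -/
def Close (a b : ℝ × ℝ) : Prop := (a.1 - b.1) ^ 2 + (a.2 - b.2) ^ 2 < 1

/-- On `A × B` the relation `Close (p i) (p j)` depends only on the outcome of the `r` comparisons
`f k i < g k j`. -/
def Easy {n : ℕ} (r : ℕ) (p : Fin n → ℝ × ℝ) (A B : Finset (Fin n)) : Prop :=
  ∃ f g : Fin r → Fin n → ℝ, ∀ i ∈ A, ∀ j ∈ B, ∀ i' ∈ A, ∀ j' ∈ B,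
    (∀ k, f k i < g k j ↔ f k i' < g k j') → (Close (p i) (p j) ↔ Close (p i') (p j'))

/-- All pairs are covered by easy blocks of total size less than `s`. -/
def Cheap {n : ℕ} (r : ℕ) (s : ℝ) (p : Fin n → ℝ × ℝ) : Prop :=
  ∃ (m : ℕ) (A B : Fin m → Finset (Fin n)), (∀ t, Easy r p (A t) (B t)) ∧
    (∀ i j, i ≠ j → ∃ t, (i ∈ A t ∧ j ∈ B t) ∨ (j ∈ A t ∧ i ∈ B t)) ∧
    ∑ t, (((A t).card : ℝ) + ((B t).card : ℝ)) < s

/-- The square `[0,2]²`. -/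
def square : Set (ℝ × ℝ) := Set.Icc 0 2 ×ˢ Set.Icc 0 2

/-- The uniform distribution on the square. -/
noncomputable def unif : Measure (ℝ × ℝ) := (4 : ENNReal)⁻¹ • volume.restrict square

/-- The squared distance is between `1` and `1 + d`. -/
def Near (d : ℝ) (a b : ℝ × ℝ) : Prop :=
  1 ≤ (a.1 - b.1) ^ 2 + (a.2 - b.2) ^ 2 ∧ (a.1 - b.1) ^ 2 + (a.2 - b.2) ^ 2 ≤ 1 + d

/-- The region of the `z` near `a`, in horizontal direction with `z.2` within `e` of `b.2`, or in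
vertical direction with `z.1` within `e` of `b.1`. -/
def Reg (d e : ℝ) (a b z : ℝ × ℝ) : Prop :=
  Near d a z ∧ ((|a.2 - z.2| ≤ |a.1 - z.1| ∧ |z.2 - b.2| < e) ∨
    (|a.1 - z.1| ≤ |a.2 - z.2| ∧ |z.1 - b.1| < e))

open Classical in
/-- At most `K` points in every region. -/
def Sparse {n : ℕ} (d e : ℝ) (K : ℕ) (p : Fin n → ℝ × ℝ) : Prop :=
  ∀ i j, i ≠ j → (univ.filter fun k => Reg d e (p i) (p j) (p k)).card ≤ K

open Classical in
/-- The number of near pairs of `A × B`. -/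
noncomputable def cnt {n : ℕ} (d : ℝ) (p : Fin n → ℝ × ℝ) (A B : Finset (Fin n)) : ℕ :=
  ((A ×ˢ B).filter fun z => Near d (p z.1) (p z.2)).card

/-- module `Key` -/
def KeyStmt : Prop := ∀ d e : ℝ, 0 < d → d ≤ 1 / 10 → 0 < e → 9 * d ≤ e ^ 2 → ∀ u v t : ℝ × ℝ,
  |u.2| ≤ u.1 → |v.2| ≤ v.1 → |t.2| ≤ t.1 →
  1 ≤ u.1 ^ 2 + u.2 ^ 2 → u.1 ^ 2 + u.2 ^ 2 ≤ 1 + d →
  1 ≤ v.1 ^ 2 + v.2 ^ 2 → v.1 ^ 2 + v.2 ^ 2 ≤ 1 + d →
  1 ≤ t.1 ^ 2 + t.2 ^ 2 → t.1 ^ 2 + t.2 ^ 2 ≤ 1 + d →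
  e ≤ v.2 - u.2 → e ≤ u.2 - t.2 → (v.1 + t.1 - u.1) ^ 2 + (v.2 + t.2 - u.2) ^ 2 < 1

/-- module `Del` (uses `Key`) -/
def DelStmt : Prop := ∀ d e : ℝ, 0 < d → d ≤ 1 / 10 → 0 < e → 9 * d ≤ e ^ 2 →
  ∀ (n K : ℕ) (p : Fin n → ℝ × ℝ), Sparse d e K p → ∀ A B : Finset (Fin n),
  (∀ i ∈ A, ∀ j ∈ B, ¬ Close (p i) (p j)) → cnt d p A B ≤ 4 * K * (A.card + B.card)

/-- module `Blk` -/
def BlkStmt : Prop := ∀ (r n K : ℕ) (d : ℝ) (p : Fin n → ℝ × ℝ),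
  (∀ A B : Finset (Fin n), (∀ i ∈ A, ∀ j ∈ B, ¬ Close (p i) (p j)) →
    cnt d p A B ≤ K * (A.card + B.card)) →
  ∀ A B : Finset (Fin n), Easy r p A B →
    cnt d p A B ≤ (A.card + B.card) * (K * (Nat.clog 2 n + 2) ^ r)

/-- module `Are`: areas -/
def AreaStmt : Prop := (∀ d e : ℝ, 0 < d → d ≤ 1 / 10 → 0 < e → ∀ a b : ℝ × ℝ,
    volume {z | Reg d e a b z} ≤ ENNReal.ofReal (6 * e * d)) ∧
  (∀ d : ℝ, 0 < d → d ≤ 1 / 10 → ∀ a : ℝ × ℝ, volume {z | Near d a z} ≤ ENNReal.ofReal (6 * d)) ∧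
  (∀ d : ℝ, 0 < d → d ≤ 1 / 10 → ∀ a : ℝ × ℝ, a.1 ∈ Set.Icc (0 : ℝ) (1 / 2) →
    a.2 ∈ Set.Icc (1 / 2 : ℝ) (3 / 2) →
    ENNReal.ofReal (2 / 5 * d) ≤ volume ({z | Near d a z} ∩ square))

/-- module `Fub`: conditioning on two points -/
def FubStmt : Prop := ∀ (n : ℕ) (μ : Measure (ℝ × ℝ)), IsProbabilityMeasure μ →
  ∀ S : Set ((ℝ × ℝ) × (ℝ × ℝ) × (ℝ × ℝ)), MeasurableSet S → ∀ q : ENNReal,
  (∀ a b, μ {z | (a, b, z) ∈ S} ≤ q) → ∀ (i j : Fin n) (T : Finset (Fin n)), i ∉ T → j ∉ T →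
  (Measure.pi fun _ : Fin n => μ) {p | ∀ k ∈ T, (p i, p j, p k) ∈ S} ≤ q ^ T.card

/-- module `Spa` (uses `Fub`, `Are`) -/
def SparseStmt : Prop := ∀ (n L : ℕ) (d e : ℝ), 0 < d → d ≤ 1 / 10 → 0 < e →
  (Measure.pi fun _ : Fin n => unif) {p | ¬ Sparse d e (L + 2) p} ≤
    ENNReal.ofReal ((n : ℝ) ^ 2 * ((n : ℝ) * (3 / 2 * e * d)) ^ L)

/-- module `Cnt` (uses `Fub`, `Are`) -/
def CountStmt : Prop := ∃ C : ℝ, 0 < C ∧ ∀ n : ℕ, 2 ≤ n → ∀ d : ℝ, 0 < d → d ≤ 1 / 10 →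
  (Measure.pi fun _ : Fin n => unif) {p | (cnt d p univ univ : ℝ) < (n : ℝ) ^ 2 * d / 400} ≤
    ENNReal.ofReal (C * (1 / n + 1 / ((n : ℝ) ^ 2 * d)))

/-- the theorem -/
def MainStmt : Prop := ∀ r : ℕ, ∃ c : ℝ, 0 < c ∧ Filter.Tendsto (fun n : ℕ =>
  (Measure.pi fun _ : Fin n => unif)
    {p | Cheap r (c * (n : ℝ) ^ (4 / 3 : ℝ) / Real.log n ^ (r + 1)) p}) Filter.atTop (nhds 0)

end Pool.Agent.H31.UR
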