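import Mathlib
import Pool.Agent.H31.UR.Def

/-!
# The number of near pairs (MP_31a0d1_lc, average case)

`CountStmt` by the second moment method.
-/

set_option autoImplicit false

namespace Pool.Agent.H31.UR

open MeasureTheory Finset ProbabilityTheory

namespace Cn

theorem near_meas' (d : ℝ) : MeasurableSet {z : (ℝ × ℝ) × (ℝ × ℝ) | Near d z.1 z.2} := by
  have h1 : MeasurableSet {z : (ℝ × ℝ) × (ℝ × ℝ) |
      1 ≤ (z.1.1 - z.2.1) ^ 2 + (z.1.2 - z.2.2) ^ 2} :=
    measurableSet_le measurable_const (by fun_prop)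
  have h2 : MeasurableSet {z : (ℝ × ℝ) × (ℝ × ℝ) |
      (z.1.1 - z.2.1) ^ 2 + (z.1.2 - z.2.2) ^ 2 ≤ 1 + d} :=
    measurableSet_le (by fun_prop) measurable_const
  exact h1.inter h2

theorem near_comm' (d : ℝ) (a b : ℝ × ℝ) (h : Near d a b) : Near d b a := by
  unfold Near at *
  obtain ⟨h1, h2⟩ := h
  constructor <;> nlinarith

theorem near_meas_left (d : ℝ) (a : ℝ × ℝ) : MeasurableSet {z : ℝ × ℝ | Near d a z} :=
  (measurable_prodMk_left (x := a)) (near_meas' d)

theorem vol_square : volume square = 4 := by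
  unfold square
  rw [Measure.volume_eq_prod, Measure.prod_prod, Real.volume_Icc]
  norm_num

theorem unif_apply (s : Set (ℝ × ℝ)) (hs : MeasurableSet s) :
    unif s = (4 : ENNReal)⁻¹ * volume (s ∩ square) := by
  unfold unif
  rw [Measure.smul_apply, Measure.restrict_apply hs, smul_eq_mul]

instance unif_prob' : IsProbabilityMeasure unif := by
  constructor
  rw [unif_apply _ MeasurableSet.univ, Set.univ_inter, vol_square]
  exact ENNReal.inv_mul_cancel (by norm_num) (by norm_num)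

theorem four_inv : (4 : ENNReal)⁻¹ = ENNReal.ofReal (1 / 4) := by
  rw [one_div, ENNReal.ofReal_inv_of_pos (by norm_num)]
  norm_num

theorem unif_near_le (h : AreaStmt) (d : ℝ) (hd : 0 < d) (hd1 : d ≤ 1 / 10) (a : ℝ × ℝ) :
    unif {z | Near d a z} ≤ ENNReal.ofReal (3 / 2 * d) := by
  rw [unif_apply _ (near_meas_left d a), four_inv]
  calc ENNReal.ofReal (1 / 4) * volume ({z | Near d a z} ∩ square)
      ≤ ENNReal.ofReal (1 / 4) * ENNReal.ofReal (6 * d) :=
        mul_le_mul_right ((measure_mono Set.inter_subset_left).trans (h.2.1 d hd hd1 a)) _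
    _ = ENNReal.ofReal (3 / 2 * d) := by
        rw [← ENNReal.ofReal_mul (by norm_num)]
        congr 1
        ring

theorem le_unif_near (h : AreaStmt) (d : ℝ) (hd : 0 < d) (hd1 : d ≤ 1 / 10) (a : ℝ × ℝ)
    (h1 : a.1 ∈ Set.Icc (0 : ℝ) (1 / 2)) (h2 : a.2 ∈ Set.Icc (1 / 2 : ℝ) (3 / 2)) :
    ENNReal.ofReal (d / 10) ≤ unif {z | Near d a z} := by
  rw [unif_apply _ (near_meas_left d a), four_inv]
  calc ENNReal.ofReal (d / 10) = ENNReal.ofReal (1 / 4) * ENNReal.ofReal (2 / 5 * d) := by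
        rw [← ENNReal.ofReal_mul (by norm_num)]
        congr 1
        ring
    _ ≤ ENNReal.ofReal (1 / 4) * volume ({z | Near d a z} ∩ square) :=
        mul_le_mul_right (h.2.2 d hd hd1 a h1 h2) _

theorem unif_box : ENNReal.ofReal (1 / 8) ≤
    unif (Set.Icc (0 : ℝ) (1 / 2) ×ˢ Set.Icc (1 / 2 : ℝ) (3 / 2)) := by
  rw [unif_apply _ (measurableSet_Icc.prod measurableSet_Icc), four_inv]
  have h : (Set.Icc (0 : ℝ) (1 / 2) ×ˢ Set.Icc (1 / 2 : ℝ) (3 / 2)) ∩ square =
      Set.Icc (0 : ℝ) (1 / 2) ×ˢ Set.Icc (1 / 2 : ℝ) (3 / 2) := by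
    apply Set.inter_eq_left.2
    intro z hz
    simp only [Set.mem_prod, Set.mem_Icc] at hz
    simp only [square, Set.mem_prod, Set.mem_Icc]
    refine ⟨⟨hz.1.1, by linarith [hz.1.2]⟩, by linarith [hz.2.1], by linarith [hz.2.2]⟩
  rw [h, Measure.volume_eq_prod, Measure.prod_prod, Real.volume_Icc, Real.volume_Icc,
    ← ENNReal.ofReal_mul (by norm_num), ← ENNReal.ofReal_mul (by norm_num)]
  apply ENNReal.ofReal_le_ofReal
  norm_num

/-- The lower bound for the product of two uniform measures. -/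
theorem prod_near_ge (h : AreaStmt) (d : ℝ) (hd : 0 < d) (hd1 : d ≤ 1 / 10) :
    ENNReal.ofReal (d / 80) ≤ (unif.prod unif) {z | Near d z.1 z.2} := by
  rw [Measure.prod_apply (near_meas' d)]
  set Q : Set (ℝ × ℝ) := Set.Icc (0 : ℝ) (1 / 2) ×ˢ Set.Icc (1 / 2 : ℝ) (3 / 2) with hQ
  have hQm : MeasurableSet Q := measurableSet_Icc.prod measurableSet_Icc
  calc ENNReal.ofReal (d / 80) = ENNReal.ofReal (d / 10) * ENNReal.ofReal (1 / 8) := by
        rw [← ENNReal.ofReal_mul (by positivity)]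
        congr 1
        ring
    _ ≤ ENNReal.ofReal (d / 10) * unif Q := mul_le_mul_right unif_box _
    _ = ∫⁻ a in Q, ENNReal.ofReal (d / 10) ∂unif := by rw [setLIntegral_const]
    _ ≤ ∫⁻ a in Q, unif (Prod.mk a ⁻¹' {z | Near d z.1 z.2}) ∂unif := by
        apply setLIntegral_mono' hQm
        intro a ha
        exact le_unif_near h d hd hd1 a ha.1 ha.2
    _ ≤ ∫⁻ a, unif (Prod.mk a ⁻¹' {z | Near d z.1 z.2}) ∂unif := setLIntegral_le_lintegral _ _

/-- The event that the pair `s` is near. -/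
def A {n : ℕ} (d : ℝ) (s : Fin n × Fin n) : Set (Fin n → ℝ × ℝ) := {p | Near d (p s.1) (p s.2)}

theorem A_meas {n : ℕ} (d : ℝ) (s : Fin n × Fin n) : MeasurableSet (A d s) := by
  have h : Measurable fun p : Fin n → ℝ × ℝ => (p s.1, p s.2) := by fun_prop
  exact h (near_meas' d)

/-- The probability measure. -/
noncomputable abbrev P (n : ℕ) : Measure (Fin n → ℝ × ℝ) := Measure.pi fun _ : Fin n => unif

theorem indep (n : ℕ) : iIndepFun (fun (i : Fin n) (ω : Fin n → ℝ × ℝ) => ω i) (P n) :=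
  iIndepFun_pi (X := fun _ => id) (fun _ => aemeasurable_id)

theorem A_eq {n : ℕ} (d : ℝ) (s : Fin n × Fin n) (hs : s.1 ≠ s.2) :
    P n (A d s) = (unif.prod unif) {z | Near d z.1 z.2} := by
  have h2 := ((indep n).indepFun hs).map_prod_eq_prod_map_map (measurable_pi_apply s.1).aemeasurable
    (measurable_pi_apply s.2).aemeasurable
  have h3 : (P n).map (fun ω => ω s.1) = unif := (measurePreserving_eval _ s.1).map_eq
  have h4 : (P n).map (fun ω => ω s.2) = unif := (measurePreserving_eval _ s.2).map_eq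
  rw [h3, h4] at h2
  rw [← h2, Measure.map_apply (by fun_prop) (near_meas' d)]
  rfl

theorem A_ge (h : AreaStmt) {n : ℕ} (d : ℝ) (hd : 0 < d) (hd1 : d ≤ 1 / 10) (s : Fin n × Fin n)
    (hs : s.1 ≠ s.2) : d / 80 ≤ (P n).real (A d s) := by
  have h1 := prod_near_ge h d hd hd1
  rw [← A_eq d s hs] at h1
  rw [measureReal_def]
  exact (ENNReal.ofReal_le_iff_le_toReal (measure_ne_top _ _)).1 h1

/-- The set used in `FubStmt`. -/
theorem S_meas (d : ℝ) :
    MeasurableSet {x : (ℝ × ℝ) × (ℝ × ℝ) × (ℝ × ℝ) | Near d x.1 x.2.2} := by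
  have h : Measurable fun x : (ℝ × ℝ) × (ℝ × ℝ) × (ℝ × ℝ) => (x.1, x.2.2) := by fun_prop
  exact h (near_meas' d)

theorem all_near_le (hF : FubStmt) (h : AreaStmt) {n : ℕ} (d : ℝ) (hd : 0 < d) (hd1 : d ≤ 1 / 10)
    (i : Fin n) (T : Finset (Fin n)) (hT : i ∉ T) :
    (P n).real {p | ∀ k ∈ T, Near d (p i) (p k)} ≤ (3 / 2 * d) ^ T.card := by
  have h1 := hF n unif unif_prob' _ (S_meas d) (ENNReal.ofReal (3 / 2 * d))
    (fun a b => unif_near_le h d hd hd1 a) i i T hT hT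
  rw [← ENNReal.ofReal_pow (by positivity)] at h1
  rw [measureReal_def]
  exact ENNReal.toReal_le_of_le_ofReal (by positivity) h1

theorem A_le (hF : FubStmt) (h : AreaStmt) {n : ℕ} (d : ℝ) (hd : 0 < d) (hd1 : d ≤ 1 / 10)
    (s : Fin n × Fin n) (hs : s.1 ≠ s.2) : (P n).real (A d s) ≤ 3 / 2 * d := by
  have h1 := all_near_le hF h d hd hd1 s.1 {s.2} (by simpa using hs)
  simp only [Finset.mem_singleton, forall_eq, Finset.card_singleton, pow_one] at h1
  exact h1

theorem two_le (hF : FubStmt) (h : AreaStmt) {n : ℕ} (d : ℝ) (hd : 0 < d) (hd1 : d ≤ 1 / 10)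
    (i j l : Fin n) (hij : i ≠ j) (hil : i ≠ l) (hjl : j ≠ l) :
    (P n).real {p | Near d (p i) (p j) ∧ Near d (p i) (p l)} ≤ (3 / 2 * d) ^ 2 := by
  have h1 := all_near_le hF h d hd hd1 i {j, l} (by simp [hij, hil])
  rw [Finset.card_pair hjl] at h1
  simpa using h1

/-- The indicator of the event. -/
noncomputable def Y {n : ℕ} (d : ℝ) (s : Fin n × Fin n) : (Fin n → ℝ × ℝ) → ℝ :=
  (A d s).indicator fun _ => (1 : ℝ)

theorem Y_memLp {n : ℕ} (d : ℝ) (s : Fin n × Fin n) : MemLp (Y d s) 2 (P n) :=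
  memLp_indicator_const 2 (A_meas d s) 1 (Or.inr (measure_ne_top _ _))

theorem Y_int {n : ℕ} (d : ℝ) (s : Fin n × Fin n) : ∫ p, Y d s p ∂(P n) = (P n).real (A d s) := by
  unfold Y
  rw [integral_indicator_const _ (A_meas d s)]
  simp

theorem cov_le {n : ℕ} (d : ℝ) (s t : Fin n × Fin n) :
    covariance (Y d s) (Y d t) (P n) ≤ (P n).real (A d s ∩ A d t) := by
  rw [covariance_eq_sub (Y_memLp d s) (Y_memLp d t), Y_int, Y_int]
  have h1 : ∫ p, (Y d s * Y d t) p ∂(P n) = (P n).real (A d s ∩ A d t) := by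
    have h2 : Y d s * Y d t = (A d s ∩ A d t).indicator fun _ => (1 : ℝ) := by
      funext p
      unfold Y
      by_cases h1 : p ∈ A d s <;> by_cases h2 : p ∈ A d t <;> simp [h1, h2]
    rw [h2, integral_indicator_const _ ((A_meas d s).inter (A_meas d t))]
    simp
  rw [h1]
  have := measureReal_nonneg (μ := P n) (s := A d s)
  have := measureReal_nonneg (μ := P n) (s := A d t)
  nlinarith

theorem cov_zero {n : ℕ} (d : ℝ) (s t : Fin n × Fin n) (h1 : s.1 ≠ t.1) (h2 : s.1 ≠ t.2)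
    (h3 : s.2 ≠ t.1) (h4 : s.2 ≠ t.2) : covariance (Y d s) (Y d t) (P n) = 0 := by
  have h5 := (indep n).indepFun_prodMk_prodMk (fun i => measurable_pi_apply i) s.1 s.2 t.1 t.2
    h1 h2 h3 h4
  have hm : Measurable ({z : (ℝ × ℝ) × (ℝ × ℝ) | Near d z.1 z.2}.indicator fun _ => (1 : ℝ)) :=
    measurable_const.indicator (near_meas' d)
  have h6 := h5.comp hm hm
  exact IndepFun.covariance_eq_zero h6 (Y_memLp d s) (Y_memLp d t)

/-- The bound for the covariance. -/
noncomputable def g {n : ℕ} (q : ℝ) (s t : Fin n × Fin n) : ℝ :=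
  q ^ 2 * ((if t.1 = s.1 then 1 else 0) + (if t.1 = s.2 then 1 else 0) +
    (if t.2 = s.1 then 1 else 0) + (if t.2 = s.2 then 1 else 0)) +
  q * ((if t = s then 1 else 0) + (if t = s.swap then 1 else 0))

theorem g_nonneg {n : ℕ} (q : ℝ) (hq : 0 ≤ q) (s t : Fin n × Fin n) : 0 ≤ g q s t := by
  unfold g
  positivity

theorem sum_fst {n : ℕ} (a : Fin n) :
    ∑ t : Fin n × Fin n, (if t.1 = a then (1 : ℝ) else 0) = n := by
  rw [Fintype.sum_prod_type_right]
  simp only [Finset.sum_ite_eq', Finset.mem_univ, if_true, Finset.sum_const, Finset.card_univ,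
    Fintype.card_fin, nsmul_eq_mul, mul_one]

theorem sum_snd {n : ℕ} (a : Fin n) :
    ∑ t : Fin n × Fin n, (if t.2 = a then (1 : ℝ) else 0) = n := by
  rw [Fintype.sum_prod_type]
  simp only [Finset.sum_ite_eq', Finset.mem_univ, if_true, Finset.sum_const, Finset.card_univ,
    Fintype.card_fin, nsmul_eq_mul, mul_one]

theorem g_sum {n : ℕ} (q : ℝ) (s : Fin n × Fin n) :
    ∑ t, g q s t = q ^ 2 * (4 * n) + q * 2 := by
  unfold g
  rw [Finset.sum_add_distrib, ← Finset.mul_sum, ← Finset.mul_sum]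
  congr 2
  · rw [Finset.sum_add_distrib, Finset.sum_add_distrib, Finset.sum_add_distrib, sum_fst, sum_fst,
      sum_snd, sum_snd]
    ring
  · rw [Finset.sum_add_distrib]
    simp
    norm_num

theorem g_ge_q {n : ℕ} (q : ℝ) (hq : 0 ≤ q) (s t : Fin n × Fin n) (h : t = s ∨ t = s.swap) :
    q ≤ g q s t := by
  have key : ∀ a x y : ℝ, 0 ≤ a → 0 ≤ x → 0 ≤ y → x = 1 ∨ y = 1 →
      q ≤ q ^ 2 * a + q * (x + y) := by
    intro a x y ha hx hy hxy
    have h1 : 0 ≤ q ^ 2 * a := by positivity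
    rcases hxy with h2 | h2 <;> subst h2 <;> nlinarith
  unfold g
  refine key _ _ _ (by positivity) (by positivity) (by positivity) ?_
  rcases h with h | h
  · left; rw [if_pos h]
  · right; rw [if_pos h]

theorem g_ge_q2 {n : ℕ} (q : ℝ) (hq : 0 ≤ q) (s t : Fin n × Fin n)
    (h : t.1 = s.1 ∨ t.1 = s.2 ∨ t.2 = s.1 ∨ t.2 = s.2) : q ^ 2 ≤ g q s t := by
  have key : ∀ a b c e x : ℝ, 0 ≤ a → 0 ≤ b → 0 ≤ c → 0 ≤ e → 0 ≤ x →
      a = 1 ∨ b = 1 ∨ c = 1 ∨ e = 1 → q ^ 2 ≤ q ^ 2 * (a + b + c + e) + q * x := by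
    intro a b c e x ha hb hc he hx h1
    have h2 : 0 ≤ q * x := by positivity
    have h3 : 1 ≤ a + b + c + e := by rcases h1 with h1 | h1 | h1 | h1 <;> linarith
    nlinarith [sq_nonneg q]
  unfold g
  refine key _ _ _ _ _ (by positivity) (by positivity) (by positivity) (by positivity)
    (by positivity) ?_
  rcases h with h | h | h | h
  · left; rw [if_pos h]
  · right; left; rw [if_pos h]
  · right; right; left; rw [if_pos h]
  · right; right; right; rw [if_pos h]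

theorem cov_g (hF : FubStmt) (h : AreaStmt) {n : ℕ} (d : ℝ) (hd : 0 < d) (hd1 : d ≤ 1 / 10)
    (s t : Fin n × Fin n) (hs : s.1 ≠ s.2) (ht : t.1 ≠ t.2) :
    covariance (Y d s) (Y d t) (P n) ≤ g (3 / 2 * d) s t := by
  have hq : (0 : ℝ) ≤ 3 / 2 * d := by positivity
  by_cases h0 : t = s ∨ t = s.swap
  · exact ((cov_le d s t).trans ((measureReal_mono Set.inter_subset_left).trans
      (A_le hF h d hd hd1 s hs))).trans (g_ge_q _ hq s t h0)
  push Not at h0
  by_cases h1 : t.1 = s.1 ∨ t.1 = s.2 ∨ t.2 = s.1 ∨ t.2 = s.2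
  · refine ((cov_le d s t).trans ?_).trans (g_ge_q2 _ hq s t h1)
    obtain ⟨i, j⟩ := s
    obtain ⟨k, l⟩ := t
    simp only [Prod.mk.injEq, ne_eq, not_and, Prod.swap_prod_mk] at hs ht h0 h1
    rcases h1 with h1 | h1 | h1 | h1
    · subst h1
      refine (measureReal_mono ?_).trans (two_le hF h d hd hd1 k j l hs ht
        (fun e => h0.1 rfl e.symm))
      intro p hp
      exact ⟨hp.1, hp.2⟩
    · subst h1
      refine (measureReal_mono ?_).trans (two_le hF h d hd hd1 k i l (Ne.symm hs) ht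
        (fun e => h0.2 rfl e.symm))
      intro p hp
      exact ⟨near_comm' d _ _ hp.1, hp.2⟩
    · subst h1
      refine (measureReal_mono ?_).trans (two_le hF h d hd hd1 l j k hs (Ne.symm ht)
        (fun e => h0.2 e.symm rfl))
      intro p hp
      exact ⟨hp.1, near_comm' d _ _ hp.2⟩
    · subst h1
      refine (measureReal_mono ?_).trans (two_le hF h d hd hd1 l i k (Ne.symm hs) (Ne.symm ht)
        (fun e => h0.1 e.symm rfl))
      intro p hp
      exact ⟨near_comm' d _ _ hp.1, near_comm' d _ _ hp.2⟩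
  · push Not at h1
    rw [cov_zero d s t (Ne.symm h1.1) (Ne.symm h1.2.2.1) (Ne.symm h1.2.1) (Ne.symm h1.2.2.2)]
    exact g_nonneg _ hq s t

/-- The index set. -/
abbrev D (n : ℕ) : Finset (Fin n × Fin n) := (univ : Finset (Fin n)).offDiag

theorem D_card (n : ℕ) (hn : 2 ≤ n) : ((D n).card : ℝ) = (n : ℝ) ^ 2 - n := by
  rw [Finset.offDiag_card, Finset.card_univ, Fintype.card_fin, Nat.cast_sub (by nlinarith)]
  push_cast
  ring

/-- The number of near pairs. -/
noncomputable def X {n : ℕ} (d : ℝ) (p : Fin n → ℝ × ℝ) : ℝ := ∑ s ∈ D n, Y d s p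

theorem X_eq {n : ℕ} (d : ℝ) (p : Fin n → ℝ × ℝ) : (cnt d p univ univ : ℝ) = X d p := by
  classical
  unfold cnt X
  have h1 : ((univ ×ˢ univ : Finset (Fin n × Fin n)).filter fun z => Near d (p z.1) (p z.2)) =
      (D n).filter fun z => Near d (p z.1) (p z.2) := by
    ext z
    simp only [Finset.mem_filter, Finset.mem_product, Finset.mem_univ, true_and,
      Finset.mem_offDiag]
    constructor
    · intro hz
      refine ⟨?_, hz⟩
      intro e
      rw [e] at hz
      have := hz.1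
      norm_num at this
    · exact fun hz => hz.2
  have h2 : (((D n).filter fun z => Near d (p z.1) (p z.2)).card : ℝ) = ∑ s ∈ D n, Y d s p := by
    rw [Finset.card_filter]
    push_cast
    apply Finset.sum_congr rfl
    intro s _
    unfold Y A
    by_cases hs : Near d (p s.1) (p s.2) <;> simp [hs]
  rw [← h2, ← h1]

theorem X_memLp {n : ℕ} (d : ℝ) : MemLp (X (n := n) d) 2 (P n) := by
  have := memLp_finsetSum (μ := P n) (p := 2) (D n) (f := fun s => Y d s)
    (fun s _ => Y_memLp d s)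
  exact this

theorem X_int (h : AreaStmt) {n : ℕ} (hn : 2 ≤ n) (d : ℝ) (hd : 0 < d) (hd1 : d ≤ 1 / 10) :
    (n : ℝ) ^ 2 * d / 160 ≤ ∫ p, X d p ∂(P n) := by
  unfold X
  rw [integral_finset_sum _ (fun s _ => (Y_memLp d s).integrable (by norm_num))]
  have h1 : ∑ s ∈ D n, d / 80 ≤ ∑ s ∈ D n, ∫ p, Y d s p ∂(P n) := by
    apply Finset.sum_le_sum
    intro s hs
    rw [Y_int]
    exact A_ge h d hd hd1 s (Finset.mem_offDiag.1 hs).2.2
  rw [Finset.sum_const, nsmul_eq_mul, D_card n hn] at h1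
  refine le_trans ?_ h1
  have h2 : (2 : ℝ) ≤ n := by exact_mod_cast hn
  have h3 : (n : ℝ) ^ 2 / 2 ≤ (n : ℝ) ^ 2 - n := by nlinarith
  nlinarith

theorem X_var (hF : FubStmt) (h : AreaStmt) {n : ℕ} (hn : 2 ≤ n) (d : ℝ) (hd : 0 < d)
    (hd1 : d ≤ 1 / 10) :
    variance (X (n := n) d) (P n) ≤ 9 * (n : ℝ) ^ 3 * d ^ 2 + 3 * (n : ℝ) ^ 2 * d := by
  have hq : (0 : ℝ) ≤ 3 / 2 * d := by positivity
  have h1 : variance (X (n := n) d) (P n) =
      ∑ s ∈ D n, ∑ t ∈ D n, covariance (Y d s) (Y d t) (P n) :=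
    variance_fun_sum' (fun s _ => Y_memLp d s)
  rw [h1]
  have h2 : ∑ s ∈ D n, ∑ t ∈ D n, covariance (Y d s) (Y d t) (P n) ≤
      ∑ s ∈ D n, ((3 / 2 * d) ^ 2 * (4 * n) + (3 / 2 * d) * 2) := by
    apply Finset.sum_le_sum
    intro s hs
    rw [← g_sum (3 / 2 * d) s]
    calc ∑ t ∈ D n, covariance (Y d s) (Y d t) (P n) ≤ ∑ t ∈ D n, g (3 / 2 * d) s t := by
          apply Finset.sum_le_sum
          intro t ht
          exact cov_g hF h d hd hd1 s t (Finset.mem_offDiag.1 hs).2.2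
            (Finset.mem_offDiag.1 ht).2.2
      _ ≤ ∑ t, g (3 / 2 * d) s t :=
          Finset.sum_le_sum_of_subset_of_nonneg (Finset.subset_univ _)
            (fun t _ _ => g_nonneg _ hq s t)
  rw [Finset.sum_const, nsmul_eq_mul, D_card n hn] at h2
  refine h2.trans ?_
  have h3 : (0 : ℝ) ≤ n := by positivity
  have h4 : ((n : ℝ) ^ 2 - n) * ((3 / 2 * d) ^ 2 * (4 * n) + (3 / 2 * d) * 2) ≤
      (n : ℝ) ^ 2 * ((3 / 2 * d) ^ 2 * (4 * n) + (3 / 2 * d) * 2) :=
    mul_le_mul_of_nonneg_right (by linarith) (by positivity)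
  refine h4.trans (le_of_eq ?_)
  ring

end Cn

/-- `CountStmt` holds. -/
theorem count (hF : FubStmt) (h : AreaStmt) : CountStmt := by
  refine ⟨640000, by norm_num, ?_⟩
  intro n hn d hd hd1
  have hn0 : (0 : ℝ) < n := by exact_mod_cast (by omega : 0 < n)
  have hc : 0 < 3 * (n : ℝ) ^ 2 * d / 800 := by positivity
  have h1 := meas_ge_le_variance_div_sq (μ := Cn.P n) (Cn.X_memLp (n := n) d) hc
  refine (measure_mono ?_).trans (h1.trans (ENNReal.ofReal_le_ofReal ?_))
  · intro p hp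
    simp only [Set.mem_setOf_eq] at hp ⊢
    rw [Cn.X_eq] at hp
    have h2 := Cn.X_int h hn d hd hd1
    rw [abs_sub_comm]
    refine le_trans ?_ (le_abs_self _)
    linarith
  · have h2 := Cn.X_var hF h hn d hd hd1
    rw [div_le_iff₀ (by positivity)]
    refine h2.trans ?_
    have h3 : 640000 * (1 / (n : ℝ) + 1 / ((n : ℝ) ^ 2 * d)) * (3 * (n : ℝ) ^ 2 * d / 800) ^ 2 =
        9 * (n : ℝ) ^ 3 * d ^ 2 + 9 * (n : ℝ) ^ 2 * d := by
      field_simp
      ring
    rw [h3]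
    have : 0 < (n : ℝ) ^ 2 * d := by positivity
    linarith

end Pool.Agent.H31.UR
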