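import Pool.Agent.H31.UR.GenN
import Pool.Agent.H31.UR.Cng

/-!
# The number of near pairs, independent points with different distributions (MP_31a0d1_lc)

`CountN` by the second moment method (the file `Cng.lean` with different probability measures).
-/

set_option autoImplicit false

namespace Pool.Agent.H31.UR

open MeasureTheory Finset ProbabilityTheory

namespace CnN

variable {n : ℕ} (μ : Fin n → Measure (ℝ × ℝ)) [∀ k, IsProbabilityMeasure (μ k)]

/-- The probability measure. -/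
noncomputable abbrev P : Measure (Fin n → ℝ × ℝ) := Measure.pi μ

theorem indep : iIndepFun (fun (i : Fin n) (ω : Fin n → ℝ × ℝ) => ω i) (P μ) :=
  iIndepFun_pi (X := fun _ => id) (fun _ => aemeasurable_id)

theorem A_eq (d : ℝ) (s : Fin n × Fin n) (hs : s.1 ≠ s.2) :
    P μ (Cg.A d s) = ((μ s.1).prod (μ s.2)) {z | Near d z.1 z.2} := by
  have h2 := ((indep μ).indepFun hs).map_prod_eq_prod_map_map (measurable_pi_apply s.1).aemeasurable
    (measurable_pi_apply s.2).aemeasurable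
  have h3 : (P μ).map (fun ω => ω s.1) = μ s.1 := (measurePreserving_eval _ s.1).map_eq
  have h4 : (P μ).map (fun ω => ω s.2) = μ s.2 := (measurePreserving_eval _ s.2).map_eq
  rw [h3, h4] at h2
  rw [← h2, Measure.map_apply (by fun_prop) (Cg.near_meas' d)]
  rfl

theorem A_ge (d q1 : ℝ) (s : Fin n × Fin n)
    (h1 : ENNReal.ofReal q1 ≤ ((μ s.1).prod (μ s.2)) {z | Near d z.1 z.2})
    (hs : s.1 ≠ s.2) : q1 ≤ (P μ).real (Cg.A d s) := by
  rw [← A_eq μ d s hs] at h1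
  rw [measureReal_def]
  exact (ENNReal.ofReal_le_iff_le_toReal (measure_ne_top _ _)).1 h1

theorem all_near_le (hF : FubN) (d q : ℝ) (hq : 0 ≤ q)
    (hN : ∀ k a, μ k {z | Near d a z} ≤ ENNReal.ofReal q)
    (i : Fin n) (T : Finset (Fin n)) (hT : i ∉ T) :
    (P μ).real {p | ∀ k ∈ T, Near d (p i) (p k)} ≤ q ^ T.card := by
  have h1 := hF n μ inferInstance _ (Cg.S_meas d) (ENNReal.ofReal q)
    (fun k a b => hN k a) i i T hT hT
  rw [← ENNReal.ofReal_pow (by positivity)] at h1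
  rw [measureReal_def]
  exact ENNReal.toReal_le_of_le_ofReal (by positivity) h1

theorem A_le (hF : FubN) (d q : ℝ) (hq : 0 ≤ q)
    (hN : ∀ k a, μ k {z | Near d a z} ≤ ENNReal.ofReal q)
    (s : Fin n × Fin n) (hs : s.1 ≠ s.2) : (P μ).real (Cg.A d s) ≤ q := by
  have h1 := all_near_le μ hF d q hq hN s.1 {s.2} (by simpa using hs)
  simp only [Finset.mem_singleton, forall_eq, Finset.card_singleton, pow_one] at h1
  exact h1

theorem two_le (hF : FubN) (d q : ℝ) (hq : 0 ≤ q)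
    (hN : ∀ k a, μ k {z | Near d a z} ≤ ENNReal.ofReal q)
    (i j l : Fin n) (hij : i ≠ j) (hil : i ≠ l) (hjl : j ≠ l) :
    (P μ).real {p | Near d (p i) (p j) ∧ Near d (p i) (p l)} ≤ q ^ 2 := by
  have h1 := all_near_le μ hF d q hq hN i {j, l} (by simp [hij, hil])
  rw [Finset.card_pair hjl] at h1
  simpa using h1

theorem Y_memLp (d : ℝ) (s : Fin n × Fin n) : MemLp (Cg.Y d s) 2 (P μ) :=
  memLp_indicator_const 2 (Cg.A_meas d s) 1 (Or.inr (measure_ne_top _ _))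

theorem Y_int (d : ℝ) (s : Fin n × Fin n) :
    ∫ p, Cg.Y d s p ∂(P μ) = (P μ).real (Cg.A d s) := by
  unfold Cg.Y
  rw [integral_indicator_const _ (Cg.A_meas d s)]
  simp

theorem cov_le (d : ℝ) (s t : Fin n × Fin n) :
    covariance (Cg.Y d s) (Cg.Y d t) (P μ) ≤ (P μ).real (Cg.A d s ∩ Cg.A d t) := by
  rw [covariance_eq_sub (Y_memLp μ d s) (Y_memLp μ d t), Y_int, Y_int]
  have h1 : ∫ p, (Cg.Y d s * Cg.Y d t) p ∂(P μ) = (P μ).real (Cg.A d s ∩ Cg.A d t) := by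
    have h2 : Cg.Y d s * Cg.Y d t = (Cg.A d s ∩ Cg.A d t).indicator fun _ => (1 : ℝ) := by
      funext p
      unfold Cg.Y
      by_cases h1 : p ∈ Cg.A d s <;> by_cases h2 : p ∈ Cg.A d t <;> simp [h1, h2]
    rw [h2, integral_indicator_const _ ((Cg.A_meas d s).inter (Cg.A_meas d t))]
    simp
  rw [h1]
  have := measureReal_nonneg (μ := P μ) (s := Cg.A d s)
  have := measureReal_nonneg (μ := P μ) (s := Cg.A d t)
  nlinarith

theorem cov_zero (d : ℝ) (s t : Fin n × Fin n) (h1 : s.1 ≠ t.1) (h2 : s.1 ≠ t.2)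
    (h3 : s.2 ≠ t.1) (h4 : s.2 ≠ t.2) : covariance (Cg.Y d s) (Cg.Y d t) (P μ) = 0 := by
  have h5 := (indep μ).indepFun_prodMk_prodMk (fun i => measurable_pi_apply i) s.1 s.2 t.1 t.2
    h1 h2 h3 h4
  have hm : Measurable ({z : (ℝ × ℝ) × (ℝ × ℝ) | Near d z.1 z.2}.indicator fun _ => (1 : ℝ)) :=
    measurable_const.indicator (Cg.near_meas' d)
  have h6 := h5.comp hm hm
  exact IndepFun.covariance_eq_zero h6 (Y_memLp μ d s) (Y_memLp μ d t)

theorem cov_g (hF : FubN) (d q : ℝ) (hq : 0 ≤ q)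
    (hN : ∀ k a, μ k {z | Near d a z} ≤ ENNReal.ofReal q)
    (s t : Fin n × Fin n) (hs : s.1 ≠ s.2) (ht : t.1 ≠ t.2) :
    covariance (Cg.Y d s) (Cg.Y d t) (P μ) ≤ Cg.g q s t := by
  by_cases h0 : t = s ∨ t = s.swap
  · exact ((cov_le μ d s t).trans ((measureReal_mono Set.inter_subset_left).trans
      (A_le μ hF d q hq hN s hs))).trans (Cg.g_ge_q _ hq s t h0)
  push Not at h0
  by_cases h1 : t.1 = s.1 ∨ t.1 = s.2 ∨ t.2 = s.1 ∨ t.2 = s.2
  · refine ((cov_le μ d s t).trans ?_).trans (Cg.g_ge_q2 _ hq s t h1)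
    obtain ⟨i, j⟩ := s
    obtain ⟨k, l⟩ := t
    simp only [Prod.mk.injEq, ne_eq, not_and, Prod.swap_prod_mk] at hs ht h0 h1
    rcases h1 with h1 | h1 | h1 | h1
    · subst h1
      refine (measureReal_mono ?_).trans (two_le μ hF d q hq hN k j l hs ht
        (fun e => h0.1 rfl e.symm))
      intro p hp
      exact ⟨hp.1, hp.2⟩
    · subst h1
      refine (measureReal_mono ?_).trans (two_le μ hF d q hq hN k i l (Ne.symm hs) ht
        (fun e => h0.2 rfl e.symm))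
      intro p hp
      exact ⟨Cg.near_comm' d _ _ hp.1, hp.2⟩
    · subst h1
      refine (measureReal_mono ?_).trans (two_le μ hF d q hq hN l j k hs (Ne.symm ht)
        (fun e => h0.2 e.symm rfl))
      intro p hp
      exact ⟨hp.1, Cg.near_comm' d _ _ hp.2⟩
    · subst h1
      refine (measureReal_mono ?_).trans (two_le μ hF d q hq hN l i k (Ne.symm hs) (Ne.symm ht)
        (fun e => h0.1 e.symm rfl))
      intro p hp
      exact ⟨Cg.near_comm' d _ _ hp.1, Cg.near_comm' d _ _ hp.2⟩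
  · push Not at h1
    rw [cov_zero μ d s t (Ne.symm h1.1) (Ne.symm h1.2.2.1) (Ne.symm h1.2.1) (Ne.symm h1.2.2.2)]
    exact Cg.g_nonneg _ hq s t

theorem X_memLp (d : ℝ) : MemLp (Cg.X (n := n) d) 2 (P μ) := by
  have := memLp_finsetSum (μ := P μ) (p := 2) (Cg.D n) (f := fun s => Cg.Y d s)
    (fun s _ => Y_memLp μ d s)
  exact this

theorem X_int (d q1 : ℝ) (G : Finset (Fin n × Fin n))
    (hG : ∀ g ∈ G, g.1 ≠ g.2 ∧ ENNReal.ofReal q1 ≤ ((μ g.1).prod (μ g.2)) {z | Near d z.1 z.2}) :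
    (G.card : ℝ) * q1 ≤ ∫ p, Cg.X d p ∂(P μ) := by
  unfold Cg.X
  rw [integral_finset_sum _ (fun s _ => (Y_memLp μ d s).integrable (by norm_num))]
  have hsub : G ⊆ Cg.D n := fun g hg =>
    Finset.mem_offDiag.2 ⟨Finset.mem_univ _, Finset.mem_univ _, (hG g hg).1⟩
  have h5 : ∑ s ∈ G, q1 ≤ ∑ s ∈ G, ∫ p, Cg.Y d s p ∂(P μ) := by
    apply Finset.sum_le_sum
    intro s hs
    rw [Y_int]
    exact A_ge μ d q1 s (hG s hs).2 (hG s hs).1
  rw [Finset.sum_const, nsmul_eq_mul] at h5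
  refine h5.trans (Finset.sum_le_sum_of_subset_of_nonneg hsub fun s _ _ => ?_)
  rw [Y_int]
  exact measureReal_nonneg

theorem X_var (hF : FubN) (hn : 2 ≤ n) (d q : ℝ) (hq : 0 ≤ q)
    (hN : ∀ k a, μ k {z | Near d a z} ≤ ENNReal.ofReal q) :
    variance (Cg.X (n := n) d) (P μ) ≤ (n : ℝ) ^ 2 * (4 * n * q ^ 2 + 2 * q) := by
  have h1 : variance (Cg.X (n := n) d) (P μ) =
      ∑ s ∈ Cg.D n, ∑ t ∈ Cg.D n, covariance (Cg.Y d s) (Cg.Y d t) (P μ) :=
    variance_fun_sum' (fun s _ => Y_memLp μ d s)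
  rw [h1]
  have h2 : ∑ s ∈ Cg.D n, ∑ t ∈ Cg.D n, covariance (Cg.Y d s) (Cg.Y d t) (P μ) ≤
      ∑ s ∈ Cg.D n, (q ^ 2 * (4 * n) + q * 2) := by
    apply Finset.sum_le_sum
    intro s hs
    rw [← Cg.g_sum q s]
    calc ∑ t ∈ Cg.D n, covariance (Cg.Y d s) (Cg.Y d t) (P μ) ≤ ∑ t ∈ Cg.D n, Cg.g q s t := by
          apply Finset.sum_le_sum
          intro t ht
          exact cov_g μ hF d q hq hN s t (Finset.mem_offDiag.1 hs).2.2
            (Finset.mem_offDiag.1 ht).2.2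
      _ ≤ ∑ t, Cg.g q s t :=
          Finset.sum_le_sum_of_subset_of_nonneg (Finset.subset_univ _)
            (fun t _ _ => Cg.g_nonneg _ hq s t)
  rw [Finset.sum_const, nsmul_eq_mul, Cg.D_card n hn] at h2
  refine h2.trans ?_
  have h3 : (0 : ℝ) ≤ n := by positivity
  have h4 : ((n : ℝ) ^ 2 - n) * (q ^ 2 * (4 * n) + q * 2) ≤
      (n : ℝ) ^ 2 * (q ^ 2 * (4 * n) + q * 2) :=
    mul_le_mul_of_nonneg_right (by linarith) (by positivity)
  refine h4.trans (le_of_eq ?_)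
  ring

end CnN

/-- `CountN` holds. -/
theorem countN (hF : FubN) : CountN := by
  intro n μ hμ d q1 q2 G hq1 hq2 hG hN h1
  obtain ⟨g0, hg0⟩ := hG
  have hGc : 0 < (G.card : ℝ) := by exact_mod_cast Finset.card_pos.2 ⟨g0, hg0⟩
  have hn : 2 ≤ n := by
    have h2 := (h1 g0 hg0).1
    have h3 := g0.1.2
    have h4 := g0.2.2
    by_contra hcon
    apply h2
    apply Fin.ext
    omega
  have hc : 0 < (G.card : ℝ) * q1 / 2 := by positivity
  have h3 := meas_ge_le_variance_div_sq (μ := CnN.P μ) (CnN.X_memLp μ d) hc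
  refine (measure_mono ?_).trans (h3.trans (ENNReal.ofReal_le_ofReal ?_))
  · intro p hp
    change |Cg.X d p - ∫ p, Cg.X d p ∂(CnN.P μ)| ≥ (G.card : ℝ) * q1 / 2
    have hp' : (cnt d p univ univ : ℝ) < (G.card : ℝ) * q1 / 2 := hp
    rw [Cg.X_eq] at hp'
    have h2 := CnN.X_int μ d q1 G h1
    rw [abs_sub_comm]
    refine le_trans ?_ (le_abs_self _)
    linarith
  · have h2 := CnN.X_var μ hF hn d q2 hq2 hN
    rw [div_le_iff₀ (by positivity)]
    refine h2.trans (le_of_eq ?_)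
    field_simp
    ring

end Pool.Agent.H31.UR
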