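import Pool.Agent.H31.UR.Def

/-!
# Blocks decided by decision trees of depth `r`
-/

set_option autoImplicit false

namespace Pool.Agent.H31.UR

open Finset

/-- On the set `S` of pairs the relation `Close (p i) (p j)` is decided by a decision tree of depth `r`
whose nodes compare a real function of `i` with a real function of `j`. -/
def Dec {n : ℕ} (p : Fin n → ℝ × ℝ) : ℕ → Set (Fin n × Fin n) → Prop
  | 0, S => ∀ z ∈ S, ∀ z' ∈ S, (Close (p z.1) (p z.2) ↔ Close (p z'.1) (p z'.2))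
  | r + 1, S => ∃ f g : Fin n → ℝ, Dec p r {z | z ∈ S ∧ f z.1 < g z.2} ∧
      Dec p r {z | z ∈ S ∧ ¬ f z.1 < g z.2}

/-- All pairs `i`, `j` with `1 ≤ |p i - p j| ^ 2 ≤ 1 + d` are covered by blocks of total size less than
`s`, each decided by a tree of depth `r`. -/
def CheapT {n : ℕ} (d : ℝ) (r : ℕ) (s : ℝ) (p : Fin n → ℝ × ℝ) : Prop :=
  ∃ (m : ℕ) (A B : Fin m → Finset (Fin n)), (∀ t, Dec p r {z | z.1 ∈ A t ∧ z.2 ∈ B t}) ∧
    (∀ i j, Near d (p i) (p j) → ∃ t, (i ∈ A t ∧ j ∈ B t) ∨ (j ∈ A t ∧ i ∈ B t)) ∧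
    ∑ t, (((A t).card : ℝ) + ((B t).card : ℝ)) < s

end Pool.Agent.H31.UR
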