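import Pool.Agent.H31.UR.Def

/-!
# Few near pairs without close pairs (module `Del`)
-/

set_option autoImplicit false

namespace Pool.Agent.H31.UR

open Finset

private theorem near_symm {d : ℝ} {a b : ℝ × ℝ} (h : Near d a b) : Near d b a := by
  unfold Near at h ⊢
  have e1 : (b.1 - a.1) ^ 2 = (a.1 - b.1) ^ 2 := by ring
  have e2 : (b.2 - a.2) ^ 2 = (a.2 - b.2) ^ 2 := by ring
  rw [e1, e2]
  exact h

private theorem close_symm {a b : ℝ × ℝ} (h : Close a b) : Close b a := by
  unfold Close at h ⊢
  have e1 : (b.1 - a.1) ^ 2 = (a.1 - b.1) ^ 2 := by ring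
  have e2 : (b.2 - a.2) ^ 2 = (a.2 - b.2) ^ 2 := by ring
  rw [e1, e2]
  exact h

private theorem near_ne {d : ℝ} {a : ℝ × ℝ} (h : Near d a a) : False := by
  have h1 := h.1
  simp only [sub_self] at h1
  norm_num at h1

open Classical in
/-- near pairs in the direction `+x` -/
private noncomputable def FF {n : ℕ} (d : ℝ) (p : Fin n → ℝ × ℝ) (A B : Finset (Fin n)) :
    Finset (Fin n × Fin n) :=
  (A ×ˢ B).filter fun z => Near d (p z.1) (p z.2) ∧ |(p z.2).2 - (p z.1).2| ≤ (p z.2).1 - (p z.1).1

open Classical in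
private theorem mem_FF {n : ℕ} {d : ℝ} {p : Fin n → ℝ × ℝ} {A B : Finset (Fin n)} {a b : Fin n} :
    (a, b) ∈ FF d p A B ↔ (a ∈ A ∧ b ∈ B) ∧ Near d (p a) (p b) ∧
      |(p b).2 - (p a).2| ≤ (p b).1 - (p a).1 := by
  unfold FF
  rw [mem_filter, mem_product]

open Classical in
/-- every pair of `FF` is red or blue -/
private theorem red_blue (h : KeyStmt) {d e : ℝ} (hd : 0 < d) (hd1 : d ≤ 1 / 10) (he : 0 < e)
    (hde : 9 * d ≤ e ^ 2) {n K : ℕ} {p : Fin n → ℝ × ℝ} (hS : Sparse d e K p) {A B : Finset (Fin n)}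
    (hc : ∀ i ∈ A, ∀ j ∈ B, ¬ Close (p i) (p j)) {a b : Fin n} (hab : (a, b) ∈ FF d p A B) :
    (univ.filter fun b' => (a, b') ∈ FF d p A B ∧ (p b).2 ≤ (p b').2).card ≤ K ∨
      (univ.filter fun a' => (a', b) ∈ FF d p A B ∧ (p a).2 ≤ (p a').2).card ≤ K := by
  by_contra hcon
  push Not at hcon
  obtain ⟨h1, h2⟩ := hcon
  have hab' := mem_FF.1 hab
  have hne : a ≠ b := by
    intro hh
    rw [hh] at hab'
    exact near_ne hab'.2.1
  -- a partner of a far above b
  obtain ⟨b', hb1, hb2⟩ : ∃ b', (a, b') ∈ FF d p A B ∧ (p b).2 + e ≤ (p b').2 := by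
    by_contra hno
    push Not at hno
    have h3 := hS a b hne
    have h4 : (univ.filter fun b' => (a, b') ∈ FF d p A B ∧ (p b).2 ≤ (p b').2) ⊆
        univ.filter fun k => Reg d e (p a) (p b) (p k) := by
      intro k hk
      rw [mem_filter] at hk ⊢
      obtain ⟨-, hk1, hk2⟩ := hk
      have hk3 := mem_FF.1 hk1
      have hk4 := hno k hk1
      refine ⟨mem_univ _, hk3.2.1, Or.inl ⟨?_, ?_⟩⟩
      · rw [abs_sub_comm]
        refine hk3.2.2.trans ?_
        rw [abs_sub_comm]
        exact le_abs_self _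
      · rw [abs_lt]
        constructor <;> linarith
    have h5 := card_le_card h4
    omega
  obtain ⟨a', ha1, ha2⟩ : ∃ a', (a', b) ∈ FF d p A B ∧ (p a).2 + e ≤ (p a').2 := by
    by_contra hno
    push Not at hno
    have h3 := hS b a (Ne.symm hne)
    have h4 : (univ.filter fun a' => (a', b) ∈ FF d p A B ∧ (p a).2 ≤ (p a').2) ⊆
        univ.filter fun k => Reg d e (p b) (p a) (p k) := by
      intro k hk
      rw [mem_filter] at hk ⊢
      obtain ⟨-, hk1, hk2⟩ := hk
      have hk3 := mem_FF.1 hk1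
      have hk4 := hno k hk1
      refine ⟨mem_univ _, near_symm hk3.2.1, Or.inl ⟨?_, ?_⟩⟩
      · exact hk3.2.2.trans (le_abs_self _)
      · rw [abs_lt]
        constructor <;> linarith
    have h5 := card_le_card h4
    omega
  have hb3 := mem_FF.1 hb1
  have ha3 := mem_FF.1 ha1
  have h3 := h d e hd hd1 he hde ((p b).1 - (p a).1, (p b).2 - (p a).2)
    ((p b').1 - (p a).1, (p b').2 - (p a).2) ((p b).1 - (p a').1, (p b).2 - (p a').2)
    hab'.2.2 hb3.2.2 ha3.2.2 (near_symm hab'.2.1).1 (near_symm hab'.2.1).2 (near_symm hb3.2.1).1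
    (near_symm hb3.2.1).2 (near_symm ha3.2.1).1 (near_symm ha3.2.1).2 (by simp only; linarith)
    (by simp only; linarith)
  apply hc a' ha3.1.1 b' hb3.1.2
  apply close_symm
  unfold Close
  simp only at h3
  have e1 : (p b').1 - (p a).1 + ((p b).1 - (p a').1) - ((p b).1 - (p a).1) = (p b').1 - (p a').1 := by
    ring
  have e2 : (p b').2 - (p a).2 + ((p b).2 - (p a').2) - ((p b).2 - (p a).2) = (p b').2 - (p a').2 := by
    ring
  rw [e1, e2] at h3
  exact h3

open Classical in
private theorem one_dir (h : KeyStmt) {d e : ℝ} (hd : 0 < d) (hd1 : d ≤ 1 / 10) (he : 0 < e)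
    (hde : 9 * d ≤ e ^ 2) {n K : ℕ} {p : Fin n → ℝ × ℝ} (hS : Sparse d e K p) {A B : Finset (Fin n)}
    (hc : ∀ i ∈ A, ∀ j ∈ B, ¬ Close (p i) (p j)) : (FF d p A B).card ≤ K * (A.card + B.card) := by
  obtain ⟨R, hR⟩ : ∃ R, R = (FF d p A B).filter fun z =>
    (univ.filter fun b' => (z.1, b') ∈ FF d p A B ∧ (p z.2).2 ≤ (p b').2).card ≤ K := ⟨_, rfl⟩
  obtain ⟨U, hU⟩ : ∃ U, U = (FF d p A B).filter fun z =>
    (univ.filter fun a' => (a', z.2) ∈ FF d p A B ∧ (p z.1).2 ≤ (p a').2).card ≤ K := ⟨_, rfl⟩
  have h1 : FF d p A B ⊆ R ∪ U := by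
    rintro ⟨a, b⟩ hz
    rw [mem_union, hR, hU, mem_filter, mem_filter]
    rcases red_blue h hd hd1 he hde hS hc hz with h2 | h2
    · exact Or.inl ⟨hz, h2⟩
    · exact Or.inr ⟨hz, h2⟩
  have h2 : R.card ≤ K * A.card := by
    refine card_le_mul_card_image_of_maps_to (f := fun z : Fin n × Fin n => z.1) ?_ K ?_
    · rintro ⟨a, b⟩ hz
      rw [hR, mem_filter] at hz
      exact (mem_FF.1 hz.1).1.1
    · intro a _
      rcases (R.filter fun z => z.1 = a).eq_empty_or_nonempty with h0 | h0
      · rw [h0]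
        exact Nat.zero_le _
      · obtain ⟨z0, hz0, hmin⟩ := exists_min_image (R.filter fun z => z.1 = a) (fun z => (p z.2).2) h0
        rw [mem_filter, hR, mem_filter] at hz0
        refine le_trans ?_ hz0.1.2
        refine card_le_card_of_injOn (fun z => z.2) ?_ ?_
        · intro z hz
          have hz1 : z ∈ R.filter fun z => z.1 = a := hz
          have hz2 := hmin z hz1
          rw [mem_filter, hR, mem_filter] at hz1
          rw [mem_coe, mem_filter]
          refine ⟨mem_univ _, ?_, hz2⟩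
          rw [hz0.2, ← hz1.2]
          exact hz1.1.1
        · intro z hz z' hz' hzz
          have hz1 : z ∈ R.filter fun z => z.1 = a := hz
          have hz2 : z' ∈ R.filter fun z => z.1 = a := hz'
          rw [mem_filter] at hz1 hz2
          exact Prod.ext (hz1.2.trans hz2.2.symm) hzz
  have h3 : U.card ≤ K * B.card := by
    refine card_le_mul_card_image_of_maps_to (f := fun z : Fin n × Fin n => z.2) ?_ K ?_
    · rintro ⟨a, b⟩ hz
      rw [hU, mem_filter] at hz
      exact (mem_FF.1 hz.1).1.2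
    · intro b _
      rcases (U.filter fun z => z.2 = b).eq_empty_or_nonempty with h0 | h0
      · rw [h0]
        exact Nat.zero_le _
      · obtain ⟨z0, hz0, hmin⟩ := exists_min_image (U.filter fun z => z.2 = b) (fun z => (p z.1).2) h0
        rw [mem_filter, hU, mem_filter] at hz0
        refine le_trans ?_ hz0.1.2
        refine card_le_card_of_injOn (fun z => z.1) ?_ ?_
        · intro z hz
          have hz1 : z ∈ U.filter fun z => z.2 = b := hz
          have hz2 := hmin z hz1
          rw [mem_filter, hU, mem_filter] at hz1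
          rw [mem_coe, mem_filter]
          refine ⟨mem_univ _, ?_, hz2⟩
          rw [hz0.2, ← hz1.2]
          exact hz1.1.1
        · intro z hz z' hz' hzz
          have hz1 : z ∈ U.filter fun z => z.2 = b := hz
          have hz2 : z' ∈ U.filter fun z => z.2 = b := hz'
          rw [mem_filter] at hz1 hz2
          exact Prod.ext hzz (hz1.2.trans hz2.2.symm)
  calc (FF d p A B).card ≤ (R ∪ U).card := card_le_card h1
    _ ≤ R.card + U.card := card_union_le _ _
    _ ≤ K * A.card + K * B.card := add_le_add h2 h3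
    _ = _ := by ring

private theorem near_swap {d : ℝ} {a b : ℝ × ℝ} : Near d a.swap b.swap ↔ Near d a b := by
  unfold Near
  simp only [Prod.fst_swap, Prod.snd_swap]
  rw [add_comm]

private theorem close_swap {a b : ℝ × ℝ} : Close a.swap b.swap ↔ Close a b := by
  unfold Close
  simp only [Prod.fst_swap, Prod.snd_swap]
  rw [add_comm]

private theorem reg_swap {d e : ℝ} {a b z : ℝ × ℝ} : Reg d e a.swap b.swap z.swap ↔ Reg d e a b z := by
  unfold Reg
  rw [near_swap]
  simp only [Prod.fst_swap, Prod.snd_swap]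
  rw [or_comm]

open Classical in
private theorem sparse_swap {d e : ℝ} {n K : ℕ} {p : Fin n → ℝ × ℝ} (hS : Sparse d e K p) :
    Sparse d e K (fun i => (p i).swap) := by
  intro i j hij
  have h1 := hS i j hij
  have h2 : (univ.filter fun k => Reg d e ((fun i => (p i).swap) i) ((fun i => (p i).swap) j)
      ((fun i => (p i).swap) k)) = univ.filter fun k => Reg d e (p i) (p j) (p k) := by
    ext k
    rw [mem_filter, mem_filter]
    simp only
    rw [reg_swap]
  rw [h2]
  exact h1

open Classical in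
theorem del (h : KeyStmt) : DelStmt := by
  intro d e hd hd1 he hde n K p hS A B hc
  have hc' : ∀ i ∈ B, ∀ j ∈ A, ¬ Close (p i) (p j) := fun i hi j hj hh => hc j hj i hi (close_symm hh)
  have k1 := one_dir h hd hd1 he hde hS hc
  have k2 := one_dir h hd hd1 he hde hS hc'
  have k3 := one_dir h hd hd1 he hde (sparse_swap hS) (A := A) (B := B)
    (fun i hi j hj hh => hc i hi j hj (close_swap.1 hh))
  have k4 := one_dir h hd hd1 he hde (sparse_swap hS) (A := B) (B := A)
    (fun i hi j hj hh => hc' i hi j hj (close_swap.1 hh))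
  have hsub : ((A ×ˢ B).filter fun z => Near d (p z.1) (p z.2)) ⊆
      (FF d p A B ∪ (FF d p B A).image Prod.swap) ∪
        (FF d (fun i => (p i).swap) A B ∪ (FF d (fun i => (p i).swap) B A).image Prod.swap) := by
    rintro ⟨a, b⟩ hz
    rw [mem_filter, mem_product] at hz
    obtain ⟨⟨ha, hb⟩, hN⟩ := hz
    simp only at ha hb hN
    simp only [mem_union]
    rcases le_total |(p b).2 - (p a).2| |(p b).1 - (p a).1| with h1 | h1
    · rcases le_total 0 ((p b).1 - (p a).1) with h2 | h2
      · left; left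
        rw [abs_of_nonneg h2] at h1
        exact mem_FF.2 ⟨⟨ha, hb⟩, hN, h1⟩
      · left; right
        rw [mem_image]
        refine ⟨(b, a), mem_FF.2 ⟨⟨hb, ha⟩, near_symm hN, ?_⟩, rfl⟩
        rw [abs_of_nonpos h2] at h1
        rw [abs_sub_comm]
        linarith
    · rcases le_total 0 ((p b).2 - (p a).2) with h2 | h2
      · right; left
        rw [abs_of_nonneg h2] at h1
        refine mem_FF.2 ⟨⟨ha, hb⟩, near_swap.2 hN, ?_⟩
        simp only [Prod.fst_swap, Prod.snd_swap]
        exact h1
      · right; right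
        rw [mem_image]
        refine ⟨(b, a), mem_FF.2 ⟨⟨hb, ha⟩, near_swap.2 (near_symm hN), ?_⟩, rfl⟩
        simp only [Prod.fst_swap, Prod.snd_swap]
        rw [abs_of_nonpos h2] at h1
        rw [abs_sub_comm]
        linarith
  unfold cnt
  have h5 := card_le_card hsub
  have h6 := card_union_le (FF d p A B ∪ (FF d p B A).image Prod.swap)
    (FF d (fun i => (p i).swap) A B ∪ (FF d (fun i => (p i).swap) B A).image Prod.swap)
  have h7 := card_union_le (FF d p A B) ((FF d p B A).image Prod.swap)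
  have h8 := card_union_le (FF d (fun i => (p i).swap) A B)
    ((FF d (fun i => (p i).swap) B A).image Prod.swap)
  have h9 : ((FF d p B A).image Prod.swap).card ≤ (FF d p B A).card := card_image_le
  have h10 : ((FF d (fun i => (p i).swap) B A).image Prod.swap).card ≤
      (FF d (fun i => (p i).swap) B A).card := card_image_le
  have h11 : K * (B.card + A.card) = K * (A.card + B.card) := by ring
  have h12 : 4 * K * (A.card + B.card) = K * (A.card + B.card) + K * (A.card + B.card) +
      K * (A.card + B.card) + K * (A.card + B.card) := by ring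
  rw [h11] at k2 k4
  rw [h12]
  omega

end Pool.Agent.H31.UR
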