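import Pool.Agent.H31.UR.Def

/-!
# Fin: the theorem from the modules
-/

set_option autoImplicit false

namespace Pool.Agent.H31.UR

open MeasureTheory Finset

theorem near_symm (d : ℝ) (a b : ℝ × ℝ) (h : Near d a b) : Near d b a := by
  unfold Near at h ⊢
  have e1 : (b.1 - a.1) ^ 2 + (b.2 - a.2) ^ 2 = (a.1 - b.1) ^ 2 + (a.2 - b.2) ^ 2 := by ring
  rw [e1]; exact h

theorem near_ne (d : ℝ) (a : ℝ × ℝ) : ¬ Near d a a := by
  intro h
  have := h.1
  simp only [sub_self] at this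
  norm_num at this

theorem cover (n m : ℕ) (d : ℝ) (p : Fin n → ℝ × ℝ) (A B : Fin m → Finset (Fin n))
    (hcov : ∀ i j, i ≠ j → ∃ t, (i ∈ A t ∧ j ∈ B t) ∨ (j ∈ A t ∧ i ∈ B t)) :
    cnt d p univ univ ≤ ∑ t, 2 * cnt d p (A t) (B t) := by
  classical
  unfold cnt
  have hsub : (((univ : Finset (Fin n)) ×ˢ (univ : Finset (Fin n))).filter
      fun z => Near d (p z.1) (p z.2)) ⊆ (univ : Finset (Fin m)).biUnion fun t =>
      (((A t) ×ˢ (B t)).filter fun z => Near d (p z.1) (p z.2)) ∪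
      (((A t) ×ˢ (B t)).filter fun z => Near d (p z.1) (p z.2)).image Prod.swap := by
    intro z hz
    rw [mem_filter] at hz
    have hne : z.1 ≠ z.2 := by
      intro h
      have h2 := hz.2
      rw [h] at h2
      exact near_ne d _ h2
    obtain ⟨t, ht⟩ := hcov z.1 z.2 hne
    rw [mem_biUnion]
    refine ⟨t, mem_univ _, ?_⟩
    rw [mem_union]
    rcases ht with ht | ht
    · left
      rw [mem_filter, mem_product]
      exact ⟨ht, hz.2⟩
    · right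
      rw [mem_image]
      refine ⟨(z.2, z.1), ?_, rfl⟩
      rw [mem_filter, mem_product]
      exact ⟨ht, near_symm d _ _ hz.2⟩
  refine le_trans (card_le_card hsub) (le_trans card_biUnion_le (sum_le_sum fun t _ => ?_))
  refine le_trans (card_union_le _ _) ?_
  have h1 := card_image_le (s := ((A t) ×ˢ (B t)).filter fun z => Near d (p z.1) (p z.2))
    (f := Prod.swap)
  omega

/-- the numbers -/
noncomputable def dd (n : ℕ) : ℝ := (n : ℝ) ^ (-(2 / 3) : ℝ) / 100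

noncomputable def ee (n : ℕ) : ℝ := 3 * √(dd n)

noncomputable def LL (n : ℕ) : ℕ := ⌈Real.log n⌉₊

theorem dd_facts (n : ℕ) (hn : 3 ≤ n) : 0 < dd n ∧ dd n ≤ 1 / 10 ∧ 0 < ee n ∧
    9 * dd n ≤ ee n ^ 2 ∧ (n : ℝ) * (3 / 2 * ee n * dd n) = 9 / 2000 ∧
    (n : ℝ) ^ 2 * dd n = (n : ℝ) ^ (4 / 3 : ℝ) / 100 := by
  have hn0 : (0 : ℝ) < n := by exact_mod_cast (by omega : 0 < n)
  have hn1 : (1 : ℝ) ≤ n := by exact_mod_cast (by omega : 1 ≤ n)
  have hy0 : 0 < (n : ℝ) ^ (-(1 / 3) : ℝ) := Real.rpow_pos_of_pos hn0 _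
  have hy1 : (n : ℝ) ^ (-(1 / 3) : ℝ) ≤ 1 := Real.rpow_le_one_of_one_le_of_nonpos hn1 (by norm_num)
  have hy3 : ((n : ℝ) ^ (-(1 / 3) : ℝ)) ^ 3 = 1 / n := by
    rw [← Real.rpow_natCast, ← Real.rpow_mul hn0.le]
    norm_num
    rw [Real.rpow_neg_one]
  have hd : dd n = ((n : ℝ) ^ (-(1 / 3) : ℝ)) ^ 2 / 100 := by
    unfold dd
    rw [← Real.rpow_natCast ((n : ℝ) ^ (-(1 / 3) : ℝ)) 2, ← Real.rpow_mul hn0.le]
    norm_num
  obtain ⟨y, hy⟩ : ∃ y : ℝ, y = (n : ℝ) ^ (-(1 / 3) : ℝ) := ⟨_, rfl⟩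
  rw [← hy] at hy0 hy1 hy3 hd
  have he : ee n = 3 * (y / 10) := by
    unfold ee
    rw [hd, show y ^ 2 / 100 = (y / 10) ^ 2 by ring, Real.sqrt_sq (by positivity)]
  refine ⟨by rw [hd]; positivity, ?_, by rw [he]; positivity, ?_, ?_, ?_⟩
  · rw [hd]; nlinarith
  · rw [hd, he]; nlinarith
  · rw [hd, he, show (n : ℝ) * (3 / 2 * (3 * (y / 10)) * (y ^ 2 / 100)) = n * y ^ 3 * (9 / 2000) by
      ring, hy3]
    field_simp
  · unfold dd
    rw [mul_div_assoc', ← Real.rpow_natCast (n : ℝ) 2, ← Real.rpow_add hn0]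
    norm_num

theorem log_facts (n : ℕ) (hn : 3 ≤ n) : 1 ≤ Real.log n ∧
    ((LL n + 2 : ℕ) : ℝ) ≤ 4 * Real.log n ∧ ((Nat.clog 2 n + 2 : ℕ) : ℝ) ≤ 5 * Real.log n := by
  have hn0 : (0 : ℝ) < n := by exact_mod_cast (by omega : 0 < n)
  have hn3 : (3 : ℝ) ≤ n := by exact_mod_cast hn
  have h1 : 1 ≤ Real.log n := by
    rw [Real.le_log_iff_exp_le hn0]
    have := Real.exp_one_lt_d9
    linarith
  refine ⟨h1, ?_, ?_⟩
  · have h2 := Nat.ceil_lt_add_one (a := Real.log n) (by linarith)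
    unfold LL
    push_cast
    linarith
  · have h2 := Nat.pow_pred_clog_lt_self (b := 2) (by norm_num) (x := n) (by omega)
    have h3 : (2 : ℝ) ^ (Nat.clog 2 n).pred < n := by exact_mod_cast h2
    have h4 := Real.log_lt_log (by positivity) h3
    rw [Real.log_pow] at h4
    have h5 : (((Nat.clog 2 n).pred : ℕ) : ℝ) ≥ (Nat.clog 2 n : ℝ) - 1 := by
      have : Nat.clog 2 n ≤ (Nat.clog 2 n).pred + 1 := by
        rw [Nat.pred_eq_sub_one]; omega
      have h6 : ((Nat.clog 2 n : ℕ) : ℝ) ≤ ((Nat.clog 2 n).pred : ℕ) + 1 := by exact_mod_cast this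
      linarith
    have h6 := Real.log_two_gt_d9
    push_cast
    nlinarith

noncomputable def cc (r : ℕ) : ℝ := 1 / (1280000 * 5 ^ r)

theorem core (hB : BlkStmt) (hD : DelStmt) (r n : ℕ) (hn : 3 ≤ n) (p : Fin n → ℝ × ℝ)
    (hsp : Sparse (dd n) (ee n) (LL n + 2) p)
    (hcnt : (n : ℝ) ^ 2 * dd n / 400 ≤ (cnt (dd n) p univ univ : ℝ)) :
    ¬ Cheap r (cc r * (n : ℝ) ^ (4 / 3 : ℝ) / Real.log n ^ (r + 1)) p := by
  rintro ⟨m, A, B, hE, hcov, hlt⟩
  obtain ⟨hd0, hd1, he0, hde, -, hnd⟩ := dd_facts n hn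
  obtain ⟨hl1, hl2, hl3⟩ := log_facts n hn
  have h1 := cover n m (dd n) p A B hcov
  have h2 : ∀ t, cnt (dd n) p (A t) (B t) ≤
      ((A t).card + (B t).card) * (4 * (LL n + 2) * (Nat.clog 2 n + 2) ^ r) := fun t =>
    hB r n (4 * (LL n + 2)) (dd n) p (fun A' B' h => hD (dd n) (ee n) hd0 hd1 he0 hde n (LL n + 2) p
      hsp A' B' h) (A t) (B t) (hE t)
  have h3 : (cnt (dd n) p univ univ : ℝ) ≤ ∑ t, 2 * ((((A t).card : ℝ) + (B t).card) *
      (4 * ((LL n + 2 : ℕ) : ℝ) * ((Nat.clog 2 n + 2 : ℕ) : ℝ) ^ r)) := by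
    have h4 : (cnt (dd n) p univ univ : ℝ) ≤ ((∑ t, 2 * cnt (dd n) p (A t) (B t) : ℕ) : ℝ) := by
      exact_mod_cast h1
    refine le_trans h4 ?_
    push_cast
    refine sum_le_sum fun t _ => ?_
    have h5 : (cnt (dd n) p (A t) (B t) : ℝ) ≤
        ((((A t).card + (B t).card) * (4 * (LL n + 2) * (Nat.clog 2 n + 2) ^ r) : ℕ) : ℝ) := by
      exact_mod_cast h2 t
    push_cast at h5
    linarith
  have hn0 : (0 : ℝ) < n := by exact_mod_cast (by omega : 0 < n)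
  have hN : 0 < (n : ℝ) ^ (4 / 3 : ℝ) := Real.rpow_pos_of_pos hn0 _
  have hl0 : 0 < Real.log n := by linarith
  have hK0 : (0 : ℝ) < ((LL n + 2 : ℕ) : ℝ) := by positivity
  have hW0 : (0 : ℝ) < ((Nat.clog 2 n + 2 : ℕ) : ℝ) := by positivity
  obtain ⟨K, hK⟩ : ∃ K : ℝ, K = ((LL n + 2 : ℕ) : ℝ) := ⟨_, rfl⟩
  obtain ⟨W, hW⟩ : ∃ W : ℝ, W = ((Nat.clog 2 n + 2 : ℕ) : ℝ) := ⟨_, rfl⟩
  rw [← hK] at h3 hK0 hl2
  rw [← hW] at h3 hW0 hl3
  have h6 : ∑ t, 2 * ((((A t).card : ℝ) + (B t).card) * (4 * K * W ^ r)) =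
      (∑ t, (((A t).card : ℝ) + (B t).card)) * (8 * K * W ^ r) := by
    rw [sum_mul]
    refine sum_congr rfl fun t _ => by ring
  rw [h6] at h3
  obtain ⟨S, hS⟩ : ∃ S : ℝ, S = ∑ t, (((A t).card : ℝ) + (B t).card) := ⟨_, rfl⟩
  rw [← hS] at h3 hlt
  have hpos : 0 < 8 * K * W ^ r := by positivity
  have h7 : S * (8 * K * W ^ r) <
      cc r * (n : ℝ) ^ (4 / 3 : ℝ) / Real.log n ^ (r + 1) * (8 * K * W ^ r) :=
    mul_lt_mul_of_pos_right hlt hpos
  have h8 : 8 * K * W ^ r ≤ 8 * (4 * Real.log n) * (5 * Real.log n) ^ r := by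
    apply mul_le_mul (by linarith) (pow_le_pow_left₀ hW0.le hl3 r) (by positivity) (by positivity)
  have h9 : cc r * (n : ℝ) ^ (4 / 3 : ℝ) / Real.log n ^ (r + 1) * (8 * K * W ^ r) ≤
      cc r * (n : ℝ) ^ (4 / 3 : ℝ) / Real.log n ^ (r + 1) *
        (8 * (4 * Real.log n) * (5 * Real.log n) ^ r) := by
    apply mul_le_mul_of_nonneg_left h8
    unfold cc
    positivity
  have h10 : cc r * (n : ℝ) ^ (4 / 3 : ℝ) / Real.log n ^ (r + 1) *
        (8 * (4 * Real.log n) * (5 * Real.log n) ^ r) = (n : ℝ) ^ (4 / 3 : ℝ) / 40000 := by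
    unfold cc
    rw [mul_pow, pow_succ]
    field_simp
    norm_num
  rw [hnd] at hcnt
  linarith

theorem main (hB : BlkStmt) (hD : DelStmt) (hS : SparseStmt) (hC : CountStmt) : MainStmt := by
  intro r
  obtain ⟨C, hC0, hC⟩ := hC
  refine ⟨cc r, by unfold cc; positivity, ?_⟩
  have hbound : ∀ n : ℕ, 3 ≤ n → (Measure.pi fun _ : Fin n => unif)
      {p | Cheap r (cc r * (n : ℝ) ^ (4 / 3 : ℝ) / Real.log n ^ (r + 1)) p} ≤
      ENNReal.ofReal ((1 + 101 * C) / n) := by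
    intro n hn
    obtain ⟨hd0, hd1, he0, hde, hne, hnd⟩ := dd_facts n hn
    obtain ⟨hl1, hl2, hl3⟩ := log_facts n hn
    have hn0 : (0 : ℝ) < n := by exact_mod_cast (by omega : 0 < n)
    have hn1 : (1 : ℝ) ≤ n := by exact_mod_cast (by omega : 1 ≤ n)
    have hsub : {p : Fin n → ℝ × ℝ | Cheap r (cc r * (n : ℝ) ^ (4 / 3 : ℝ) /
        Real.log n ^ (r + 1)) p} ⊆ {p | ¬ Sparse (dd n) (ee n) (LL n + 2) p} ∪
        {p | (cnt (dd n) p univ univ : ℝ) < (n : ℝ) ^ 2 * dd n / 400} := by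
      intro p hp
      by_contra hc
      have hc1 : Sparse (dd n) (ee n) (LL n + 2) p := by
        by_contra h
        exact hc (Or.inl h)
      have hc2 : (n : ℝ) ^ 2 * dd n / 400 ≤ (cnt (dd n) p univ univ : ℝ) := by
        by_contra h
        exact hc (Or.inr (not_le.mp h))
      exact core hB hD r n hn p hc1 hc2 hp
    refine le_trans (measure_mono hsub) (le_trans (measure_union_le _ _) ?_)
    refine le_trans (add_le_add (hS n (LL n) (dd n) (ee n) hd0 hd1 he0)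
      (hC n (by omega) (dd n) hd0 hd1)) ?_
    rw [← ENNReal.ofReal_add (by rw [hne]; positivity) (by positivity)]
    apply ENNReal.ofReal_le_ofReal
    rw [hne]
    have h1 : (9 / 2000 : ℝ) ^ LL n ≤ 1 / (n : ℝ) ^ 3 := by
      have h2 : (9 / 2000 : ℝ) ≤ Real.exp (-3) := by
        rw [Real.exp_neg, le_inv_comm₀ (by norm_num) (Real.exp_pos _)]
        have h3 : Real.exp 3 = Real.exp 1 ^ 3 := by
          rw [← Real.exp_nat_mul]; norm_num
        rw [h3]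
        have h4 := Real.exp_one_lt_d9
        have h5 : Real.exp 1 ^ 3 ≤ 3 ^ 3 := pow_le_pow_left₀ (Real.exp_pos 1).le (by linarith) 3
        linarith
      calc (9 / 2000 : ℝ) ^ LL n ≤ Real.exp (-3) ^ LL n := pow_le_pow_left₀ (by norm_num) h2 _
        _ = Real.exp (LL n * (-3)) := (Real.exp_nat_mul _ _).symm
        _ ≤ Real.exp (Real.log n * (-3)) := by
          apply Real.exp_le_exp.mpr
          have := Nat.le_ceil (Real.log n)
          unfold LL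
          linarith
        _ = 1 / (n : ℝ) ^ 3 := by
          rw [show Real.log n * (-3) = -(3 * Real.log n) by ring, Real.exp_neg,
            show (3 : ℝ) * Real.log n = ((3 : ℕ) : ℝ) * Real.log n by norm_num,
            Real.exp_nat_mul, Real.exp_log hn0, one_div]
    have h2 : (n : ℝ) ^ 2 * (9 / 2000 : ℝ) ^ LL n ≤ 1 / n := by
      calc (n : ℝ) ^ 2 * (9 / 2000 : ℝ) ^ LL n ≤ (n : ℝ) ^ 2 * (1 / (n : ℝ) ^ 3) :=
            mul_le_mul_of_nonneg_left h1 (by positivity)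
        _ = 1 / n := by field_simp
    have h3 : 1 / ((n : ℝ) ^ 2 * dd n) ≤ 100 / n := by
      rw [hnd]
      have h4 : (n : ℝ) ≤ (n : ℝ) ^ (4 / 3 : ℝ) := by
        calc (n : ℝ) = (n : ℝ) ^ (1 : ℝ) := (Real.rpow_one _).symm
          _ ≤ _ := Real.rpow_le_rpow_of_exponent_le hn1 (by norm_num)
      rw [show (1 : ℝ) / ((n : ℝ) ^ (4 / 3 : ℝ) / 100) = 100 / (n : ℝ) ^ (4 / 3 : ℝ) by
        rw [one_div_div]]
      exact div_le_div_of_nonneg_left (by norm_num) hn0 h4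
    have h4 : C * (1 / n + 1 / ((n : ℝ) ^ 2 * dd n)) ≤ C * (1 / n + 100 / n) :=
      mul_le_mul_of_nonneg_left (by linarith) hC0.le
    calc _ ≤ 1 / (n : ℝ) + C * (1 / n + 100 / n) := add_le_add h2 h4
      _ = (1 + 101 * C) / n := by ring
  have hlim : Filter.Tendsto (fun n : ℕ => ENNReal.ofReal ((1 + 101 * C) / n)) Filter.atTop
      (nhds 0) := by
    rw [← ENNReal.ofReal_zero]
    exact ENNReal.tendsto_ofReal (tendsto_const_div_atTop_nhds_zero_nat _)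
  refine tendsto_of_tendsto_of_tendsto_of_le_of_le' tendsto_const_nhds hlim
    (Filter.Eventually.of_forall fun n => zero_le) ?_
  filter_upwards [Filter.eventually_ge_atTop 3] with n hn
  exact hbound n hn

end Pool.Agent.H31.UR
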