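import Pool.Agent.H31.UR.Def

/-!
# Independent points with different densities: statements of the modules and of the theorem

The points `p i` are independent with densities `ρ i ≤ M`; for at least `δ n ^ 2` ordered pairs `(i, j)`
there are `x`, `y` at distance `1` such that `ρ i ≥ m` on the disc of radius `s` about `x` and
`ρ j ≥ m` on the disc of radius `s` about `y`. (Contains: identical densities; fixed points plus noise.)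
-/

set_option autoImplicit false

namespace Pool.Agent.H31.UR

open MeasureTheory Finset

/-- module `FubN`: conditioning on two points -/
def FubN : Prop := ∀ (n : ℕ) (μ : Fin n → Measure (ℝ × ℝ)), (∀ k, IsProbabilityMeasure (μ k)) →
  ∀ S : Set ((ℝ × ℝ) × (ℝ × ℝ) × (ℝ × ℝ)), MeasurableSet S → ∀ q : ENNReal,
  (∀ k a b, μ k {z | (a, b, z) ∈ S} ≤ q) → ∀ (i j : Fin n) (T : Finset (Fin n)), i ∉ T → j ∉ T →
  (Measure.pi μ) {p | ∀ k ∈ T, (p i, p j, p k) ∈ S} ≤ q ^ T.card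

/-- module `CntN` (uses `FubN`) -/
def CountN : Prop := ∀ (n : ℕ) (μ : Fin n → Measure (ℝ × ℝ)), (∀ k, IsProbabilityMeasure (μ k)) →
  ∀ (d q1 q2 : ℝ) (G : Finset (Fin n × Fin n)), 0 < q1 → 0 ≤ q2 → G.Nonempty →
  (∀ k a, μ k {z | Near d a z} ≤ ENNReal.ofReal q2) →
  (∀ g ∈ G, g.1 ≠ g.2 ∧ ENNReal.ofReal q1 ≤ ((μ g.1).prod (μ g.2)) {z | Near d z.1 z.2}) →
  (Measure.pi μ) {p | (cnt d p univ univ : ℝ) < (G.card : ℝ) * q1 / 2} ≤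
    ENNReal.ofReal (4 * ((n : ℝ) ^ 2 * (4 * n * q2 ^ 2 + 2 * q2)) / ((G.card : ℝ) * q1) ^ 2)

/-- module `SpaN` (uses `FubN`) -/
def SparseN : Prop := ∀ (n L : ℕ) (μ : Fin n → Measure (ℝ × ℝ)),
  (∀ k, IsProbabilityMeasure (μ k)) → ∀ d e q : ℝ, 0 ≤ q →
  (∀ k a b, μ k {z | Reg d e a b z} ≤ ENNReal.ofReal q) →
  (Measure.pi μ) {p | ¬ Sparse d e (L + 2) p} ≤ ENNReal.ofReal ((n : ℝ) ^ 2 * ((n : ℝ) * q) ^ L)

/-- module `LowN`: lower bound for the area, constants depending only on `s` -/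
def LowN : Prop := ∀ s : ℝ, 0 < s → ∃ w d0 c0 : ℝ, 0 < w ∧ 2 * w ^ 2 < s ^ 2 ∧ 0 < d0 ∧ 0 < c0 ∧
  ∀ x y : ℝ × ℝ, (x.1 - y.1) ^ 2 + (x.2 - y.2) ^ 2 = 1 → ∀ d : ℝ, 0 < d → d ≤ d0 →
  ∀ a : ℝ × ℝ, |a.1 - x.1| ≤ w → |a.2 - x.2| ≤ w → ENNReal.ofReal (c0 * d) ≤
    volume ({z | Near d a z} ∩ {z | (z.1 - y.1) ^ 2 + (z.2 - y.2) ^ 2 < s ^ 2})

/-- the theorem -/
def MainN : Prop := ∀ M m s δ : ℝ, 0 < m → 0 < s → 0 < δ → ∃ c C : ℝ, 0 < c ∧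
  ∀ n : ℕ, 3 ≤ n → ∀ ρ : Fin n → ℝ × ℝ → ENNReal, (∀ i, Measurable (ρ i)) →
  (∀ i, ∫⁻ z, ρ i z = 1) → (∀ i z, ρ i z ≤ ENNReal.ofReal M) →
  ∀ G : Finset (Fin n × Fin n), δ * (n : ℝ) ^ 2 ≤ G.card → (∀ g ∈ G, g.1 ≠ g.2 ∧
    ∃ x y : ℝ × ℝ, (x.1 - y.1) ^ 2 + (x.2 - y.2) ^ 2 = 1 ∧
      (∀ z, (z.1 - x.1) ^ 2 + (z.2 - x.2) ^ 2 < s ^ 2 → ENNReal.ofReal m ≤ ρ g.1 z) ∧
      (∀ z, (z.1 - y.1) ^ 2 + (z.2 - y.2) ^ 2 < s ^ 2 → ENNReal.ofReal m ≤ ρ g.2 z)) →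
  (Measure.pi fun i => volume.withDensity (ρ i))
    {p | ∃ r, Cheap r (c * (n : ℝ) ^ (4 / 3 : ℝ) / (5 * Real.log n) ^ (r + 1)) p} ≤
      ENNReal.ofReal (C / n)

end Pool.Agent.H31.UR
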