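import Pool.Agent.H31.UR.Fing
import Pool.Agent.H31.UR.GenN

/-!
# FinN: the theorem for different densities from the modules
-/

set_option autoImplicit false

namespace Pool.Agent.H31.UR

open MeasureTheory Finset

theorem prod_geN (ρ ρ' : ℝ × ℝ → ENNReal) (m s w d c0 : ℝ) (x y : ℝ × ℝ)
    [IsProbabilityMeasure (volume.withDensity ρ)] [IsProbabilityMeasure (volume.withDensity ρ')]
    (hm : 0 < m) (hw : 0 < w)
    (hws : 2 * w ^ 2 < s ^ 2) (hc0 : 0 < c0) (hd : 0 < d)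
    (hx : ∀ z, (z.1 - x.1) ^ 2 + (z.2 - x.2) ^ 2 < s ^ 2 → ENNReal.ofReal m ≤ ρ z)
    (hy : ∀ z, (z.1 - y.1) ^ 2 + (z.2 - y.2) ^ 2 < s ^ 2 → ENNReal.ofReal m ≤ ρ' z)
    (hlow : ∀ a : ℝ × ℝ, |a.1 - x.1| ≤ w → |a.2 - x.2| ≤ w → ENNReal.ofReal (c0 * d) ≤
      volume ({z | Near d a z} ∩ {z | (z.1 - y.1) ^ 2 + (z.2 - y.2) ^ 2 < s ^ 2})) :
    ENNReal.ofReal (4 * w ^ 2 * m ^ 2 * c0 * d) ≤
      ((volume.withDensity ρ).prod (volume.withDensity ρ')) {z | Near d z.1 z.2} := by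
  rw [Measure.prod_apply (near_meas_g d)]
  obtain ⟨Q, hQ⟩ : ∃ Q : Set (ℝ × ℝ), Q = Set.Icc (x.1 - w) (x.1 + w) ×ˢ
    Set.Icc (x.2 - w) (x.2 + w) := ⟨_, rfl⟩
  have hQm : MeasurableSet Q := by rw [hQ]; exact measurableSet_Icc.prod measurableSet_Icc
  have hQa : ∀ a ∈ Q, |a.1 - x.1| ≤ w ∧ |a.2 - x.2| ≤ w := by
    intro a ha
    rw [hQ] at ha
    obtain ⟨h1, h2⟩ := ha
    have h1' := h1.1
    have h1'' := h1.2
    have h2' := h2.1
    have h2'' := h2.2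
    exact ⟨abs_le.mpr ⟨by linarith, by linarith⟩, abs_le.mpr ⟨by linarith, by linarith⟩⟩
  have hQv : volume Q = ENNReal.ofReal (4 * w ^ 2) := by
    rw [hQ, Measure.volume_eq_prod, Measure.prod_prod, Real.volume_Icc, Real.volume_Icc,
      ← ENNReal.ofReal_mul (by linarith)]
    have e1 : (x.1 + w - (x.1 - w)) * (x.2 + w - (x.2 - w)) = 4 * w ^ 2 := by ring
    rw [e1]
  have hQμ : ENNReal.ofReal (m * (4 * w ^ 2)) ≤ volume.withDensity ρ Q := by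
    rw [ENNReal.ofReal_mul hm.le, ← hQv]
    refine dens_ge ρ m Q hQm fun z hz => hx z ?_
    obtain ⟨h1, h2⟩ := hQa z hz
    have h3 : (z.1 - x.1) ^ 2 ≤ w ^ 2 := sq_le_sq' (by linarith [(abs_le.mp h1).1])
      (abs_le.mp h1).2
    have h4 : (z.2 - x.2) ^ 2 ≤ w ^ 2 := sq_le_sq' (by linarith [(abs_le.mp h2).1])
      (abs_le.mp h2).2
    linarith
  have hball : MeasurableSet {z : ℝ × ℝ | (z.1 - y.1) ^ 2 + (z.2 - y.2) ^ 2 < s ^ 2} :=
    measurableSet_lt (by fun_prop) measurable_const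
  have hsec : ∀ a ∈ Q, ENNReal.ofReal (m * (c0 * d)) ≤
      volume.withDensity ρ' (Prod.mk a ⁻¹' {z | Near d z.1 z.2}) := by
    intro a ha
    obtain ⟨h1, h2⟩ := hQa a ha
    have hnm : MeasurableSet {z : ℝ × ℝ | Near d a z} :=
      (measurable_prodMk_left (x := a)) (near_meas_g d)
    calc ENNReal.ofReal (m * (c0 * d)) = ENNReal.ofReal m * ENNReal.ofReal (c0 * d) :=
          ENNReal.ofReal_mul hm.le
      _ ≤ ENNReal.ofReal m * volume ({z | Near d a z} ∩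
          {z | (z.1 - y.1) ^ 2 + (z.2 - y.2) ^ 2 < s ^ 2}) := mul_le_mul_right (hlow a h1 h2) _
      _ ≤ volume.withDensity ρ' ({z | Near d a z} ∩
          {z | (z.1 - y.1) ^ 2 + (z.2 - y.2) ^ 2 < s ^ 2}) :=
          dens_ge ρ' m _ (hnm.inter hball) fun z hz => hy z hz.2
      _ ≤ _ := measure_mono Set.inter_subset_left
  calc ENNReal.ofReal (4 * w ^ 2 * m ^ 2 * c0 * d)
      = ENNReal.ofReal (m * (c0 * d)) * ENNReal.ofReal (m * (4 * w ^ 2)) := by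
        rw [← ENNReal.ofReal_mul (by positivity)]
        have e1 : m * (c0 * d) * (m * (4 * w ^ 2)) = 4 * w ^ 2 * m ^ 2 * c0 * d := by ring
        rw [e1]
    _ ≤ ENNReal.ofReal (m * (c0 * d)) * volume.withDensity ρ Q := mul_le_mul_right hQμ _
    _ = ∫⁻ a in Q, ENNReal.ofReal (m * (c0 * d)) ∂(volume.withDensity ρ) := by
        rw [setLIntegral_const]
    _ ≤ ∫⁻ a in Q, volume.withDensity ρ' (Prod.mk a ⁻¹' {z | Near d z.1 z.2})
          ∂(volume.withDensity ρ) := setLIntegral_mono' hQm hsec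
    _ ≤ ∫⁻ a, volume.withDensity ρ' (Prod.mk a ⁻¹' {z | Near d z.1 z.2})
          ∂(volume.withDensity ρ) := setLIntegral_le_lintegral _ _

theorem mainN (hB : BlkStmt) (hD : DelStmt) (hA1 : ∀ d e : ℝ, 0 < d → d ≤ 1 / 10 → 0 < e →
    ∀ a b : ℝ × ℝ, volume {z | Reg d e a b z} ≤ ENNReal.ofReal (6 * e * d))
    (hA2 : ∀ d : ℝ, 0 < d → d ≤ 1 / 10 → ∀ a : ℝ × ℝ,
      volume {z | Near d a z} ≤ ENNReal.ofReal (6 * d))
    (hL : LowN) (hS : SparseN) (hC : CountN) : MainN := by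
  intro M m s δ hm hs hδ
  obtain ⟨w, d0, c0, hw, hws, hd0, hc0, hlow⟩ := hL s hs
  -- the size of `d`
  obtain ⟨M1, hM1⟩ : ∃ M1 : ℝ, M1 = max M 1 := ⟨_, rfl⟩
  have hM1' : 1 ≤ M1 := by rw [hM1]; exact le_max_right _ _
  obtain ⟨v, hv⟩ : ∃ v : ℝ, v = min (min 1 d0) (1 / (4000 * M1)) := ⟨_, rfl⟩
  have hv0 : 0 < v := by rw [hv]; positivity
  have hv1 : v ≤ 1 := by rw [hv]; exact le_trans (min_le_left _ _) (min_le_left _ _)
  have hvd : v ≤ d0 := by rw [hv]; exact le_trans (min_le_left _ _) (min_le_right _ _)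
  have hvM : v ≤ 1 / (4000 * M1) := by rw [hv]; exact min_le_right _ _
  have hvM' : v * M1 ≤ 1 / 4000 := by
    calc v * M1 ≤ 1 / (4000 * M1) * M1 := mul_le_mul_of_nonneg_right hvM (by linarith)
      _ = 1 / 4000 := by field_simp
  have hv4 : v ≤ 1 / 4000 := by nlinarith
  have hvv : v ^ 2 ≤ v := by nlinarith
  have hvvv : v ^ 3 ≤ v := by nlinarith [mul_nonneg hv0.le hv0.le]
  obtain ⟨k, hk⟩ : ∃ k : ℝ, k = 4 * w ^ 2 * m ^ 2 * c0 := ⟨_, rfl⟩
  have hk0 : 0 < k := by rw [hk]; positivity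
  refine ⟨δ * k * v ^ 2 / 64, 1 + (16 * (6 * M1) ^ 2 / (δ * k) ^ 2 +
    8 * (6 * M1) / ((δ * k) ^ 2 * v ^ 2)), by positivity, ?_⟩
  intro n hn ρ hρ h1 hM G hG hGG
  have hMM : ∀ i z, ρ i z ≤ ENNReal.ofReal M1 := fun i z => le_trans (hM i z)
    (ENNReal.ofReal_le_ofReal (by rw [hM1]; exact le_max_left _ _))
  have hprob : ∀ i, IsProbabilityMeasure (volume.withDensity (ρ i)) := by
    intro i
    constructor
    rw [withDensity_apply _ MeasurableSet.univ, Measure.restrict_univ, h1 i]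
  have hn0 : (0 : ℝ) < n := by exact_mod_cast (by omega : 0 < n)
  have hn1 : (1 : ℝ) ≤ n := by exact_mod_cast (by omega : 1 ≤ n)
  obtain ⟨hd1, hd2, he1, hde, hned, hnd⟩ := dg_facts v hv0 n hn
  obtain ⟨d, hd⟩ : ∃ d : ℝ, d = dg v n := ⟨_, rfl⟩
  obtain ⟨e, he⟩ : ∃ e : ℝ, e = eg v n := ⟨_, rfl⟩
  rw [← hd, ← he] at hned hde
  rw [← hd] at hd1 hd2 hnd
  rw [← he] at he1
  have hd10 : d ≤ 1 / 10 := by linarith
  have hdd0 : d ≤ d0 := by linarith
  have hg0 : (0 : ℝ) < G.card := lt_of_lt_of_le (by positivity) hG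
  have hGn : G.Nonempty := by
    rw [← Finset.card_pos]
    exact_mod_cast hg0
  -- the two probabilities
  have hreg : ∀ i a b, (volume.withDensity (ρ i)) {z | Reg d e a b z} ≤
      ENNReal.ofReal (M1 * (6 * e * d)) := by
    intro i a b
    rw [ENNReal.ofReal_mul (by linarith)]
    exact le_trans (dens_le (ρ i) M1 (hMM i) _) (mul_le_mul_right (hA1 d e hd1 hd10 he1 a b) _)
  have hnear : ∀ i a, (volume.withDensity (ρ i)) {z | Near d a z} ≤
      ENNReal.ofReal (M1 * (6 * d)) := by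
    intro i a
    rw [ENNReal.ofReal_mul (by linarith)]
    exact le_trans (dens_le (ρ i) M1 (hMM i) _) (mul_le_mul_right (hA2 d hd1 hd10 a) _)
  have hq : (n : ℝ) * (M1 * (6 * e * d)) ≤ 9 / 2000 := by
    have e1 : (n : ℝ) * (M1 * (6 * e * d)) = 6 * M1 * (n * (e * d)) := by ring
    rw [e1, hned]
    have e2 : M1 * v ^ 3 ≤ M1 * v := mul_le_mul_of_nonneg_left hvvv (by linarith)
    nlinarith
  have hp1 := hS n (LL n) (fun i => volume.withDensity (ρ i)) hprob d e (M1 * (6 * e * d))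
    (by positivity) hreg
  have hprodge : ∀ g ∈ G, g.1 ≠ g.2 ∧ ENNReal.ofReal (k * d) ≤
      ((volume.withDensity (ρ g.1)).prod (volume.withDensity (ρ g.2))) {z | Near d z.1 z.2} := by
    intro g hg
    obtain ⟨hne, x, y, hxy, hx, hy⟩ := hGG g hg
    refine ⟨hne, ?_⟩
    rw [hk]
    exact prod_geN (ρ g.1) (ρ g.2) m s w d c0 x y hm hw hws hc0 hd1 hx hy
      (fun a ha1 ha2 => hlow x y hxy d hd1 hdd0 a ha1 ha2)
  have hp2 := hC n (fun i => volume.withDensity (ρ i)) hprob d (k * d) (M1 * (6 * d)) G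
    (by positivity) (by positivity) hGn hnear hprodge
  have hgk : δ * k * v ^ 2 / 2 * (n : ℝ) ^ (4 / 3 : ℝ) ≤ (G.card : ℝ) * (k * d) / 2 := by
    have e1 : δ * k * v ^ 2 / 2 * (n : ℝ) ^ (4 / 3 : ℝ) = δ * (n : ℝ) ^ 2 * (k * d) / 2 := by
      rw [show δ * (n : ℝ) ^ 2 * (k * d) / 2 = δ * k * (n ^ 2 * d) / 2 by ring, hnd]
      ring
    rw [e1]
    have e2 : δ * (n : ℝ) ^ 2 * (k * d) ≤ (G.card : ℝ) * (k * d) :=
      mul_le_mul_of_nonneg_right hG (by positivity)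
    linarith
  have hsub : {p : Fin n → ℝ × ℝ | ∃ r, Cheap r (δ * k * v ^ 2 / 64 * (n : ℝ) ^ (4 / 3 : ℝ) /
      (5 * Real.log n) ^ (r + 1)) p} ⊆ {p | ¬ Sparse d e (LL n + 2) p} ∪
      {p | (cnt d p univ univ : ℝ) < (G.card : ℝ) * (k * d) / 2} := by
    rintro p ⟨r, hp⟩
    by_contra hc
    have hc1 : Sparse d e (LL n + 2) p := by
      by_contra h
      exact hc (Or.inl h)
    have hc2 : (G.card : ℝ) * (k * d) / 2 ≤ (cnt d p univ univ : ℝ) := by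
      by_contra h
      exact hc (Or.inr (not_le.mp h))
    refine coreG hB hD r n hn p d e (δ * k * v ^ 2 / 64) hd1 hd10 he1 hde (by positivity) hc1 ?_ hp
    refine le_trans (le_of_eq ?_) (le_trans hgk hc2)
    ring
  refine le_trans (measure_mono hsub) (le_trans (measure_union_le _ _) ?_)
  refine le_trans (add_le_add hp1 hp2) ?_
  rw [← ENNReal.ofReal_add (by positivity) (by positivity)]
  apply ENNReal.ofReal_le_ofReal
  have h2 := pow_small n hn (M1 * (6 * e * d)) (by positivity) hq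
  have h3 : 4 * ((n : ℝ) ^ 2 * (4 * n * (M1 * (6 * d)) ^ 2 + 2 * (M1 * (6 * d)))) /
      ((G.card : ℝ) * (k * d)) ^ 2 ≤ 4 * ((n : ℝ) ^ 2 * (4 * n * (M1 * (6 * d)) ^ 2 +
        2 * (M1 * (6 * d)))) / (δ * (n : ℝ) ^ 2 * (k * d)) ^ 2 := by
    apply div_le_div_of_nonneg_left (by positivity) (by positivity)
    apply pow_le_pow_left₀ (by positivity)
    exact mul_le_mul_of_nonneg_right hG (by positivity)
  have h4 : 4 * ((n : ℝ) ^ 2 * (4 * n * (M1 * (6 * d)) ^ 2 + 2 * (M1 * (6 * d)))) /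
      (δ * (n : ℝ) ^ 2 * (k * d)) ^ 2 = 16 * (6 * M1) ^ 2 / (δ * k) ^ 2 / n +
        8 * (6 * M1) / ((δ * k) ^ 2 * (n ^ 2 * d)) := by
    field_simp
    ring
  have h5 : 8 * (6 * M1) / ((δ * k) ^ 2 * ((n : ℝ) ^ 2 * d)) ≤
      8 * (6 * M1) / ((δ * k) ^ 2 * v ^ 2) / n := by
    rw [hnd, div_div]
    apply div_le_div_of_nonneg_left (by positivity) (by positivity)
    have h5 : (n : ℝ) ≤ (n : ℝ) ^ (4 / 3 : ℝ) := by
      calc (n : ℝ) = (n : ℝ) ^ (1 : ℝ) := (Real.rpow_one _).symm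
        _ ≤ _ := Real.rpow_le_rpow_of_exponent_le hn1 (by norm_num)
    rw [show (δ * k) ^ 2 * v ^ 2 * (n : ℝ) = (δ * k) ^ 2 * (v ^ 2 * n) by ring]
    apply mul_le_mul_of_nonneg_left _ (by positivity)
    exact mul_le_mul_of_nonneg_left h5 (by positivity)
  calc _ ≤ 1 / (n : ℝ) + (16 * (6 * M1) ^ 2 / (δ * k) ^ 2 / n +
        8 * (6 * M1) / ((δ * k) ^ 2 * v ^ 2) / n) :=
        add_le_add h2 (le_trans h3 (le_trans (le_of_eq h4) (add_le_add le_rfl h5)))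
    _ = _ := by ring

end Pool.Agent.H31.UR
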