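import Pool.Agent.H31.UR.FinN
import Pool.Agent.H31.UR.BlkT

/-!
# FinT: the theorem for different densities and decision trees
-/

set_option autoImplicit false

namespace Pool.Agent.H31.UR

open MeasureTheory Finset

/-- the theorem -/
def MainT : Prop := ∀ M m s δ : ℝ, 0 < m → 0 < s → 0 < δ → ∃ c κ C : ℝ, 0 < c ∧ 0 < κ ∧
  ∀ n : ℕ, 3 ≤ n → ∀ ρ : Fin n → ℝ × ℝ → ENNReal, (∀ i, Measurable (ρ i)) →
  (∀ i, ∫⁻ z, ρ i z = 1) → (∀ i z, ρ i z ≤ ENNReal.ofReal M) →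
  ∀ G : Finset (Fin n × Fin n), δ * (n : ℝ) ^ 2 ≤ G.card → (∀ g ∈ G, g.1 ≠ g.2 ∧
    ∃ x y : ℝ × ℝ, (x.1 - y.1) ^ 2 + (x.2 - y.2) ^ 2 = 1 ∧
      (∀ z, (z.1 - x.1) ^ 2 + (z.2 - x.2) ^ 2 < s ^ 2 → ENNReal.ofReal m ≤ ρ g.1 z) ∧
      (∀ z, (z.1 - y.1) ^ 2 + (z.2 - y.2) ^ 2 < s ^ 2 → ENNReal.ofReal m ≤ ρ g.2 z)) →
  (Measure.pi fun i => volume.withDensity (ρ i)) {p | ∃ r, CheapT (κ * (n : ℝ) ^ (-(2 / 3) : ℝ)) r
    (c * (n : ℝ) ^ (4 / 3 : ℝ) / (5 * Real.log n) ^ (r + 1)) p} ≤ ENNReal.ofReal (C / n)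

theorem dg_eq (y : ℝ) (n : ℕ) : dg y n = y ^ 2 * (n : ℝ) ^ (-(2 / 3) : ℝ) := by
  unfold dg
  rw [mul_pow, ← Real.rpow_natCast ((n : ℝ) ^ (-(1 / 3) : ℝ)) 2, ← Real.rpow_mul (Nat.cast_nonneg n)]
  norm_num

theorem coverN (n m : ℕ) (d : ℝ) (p : Fin n → ℝ × ℝ) (A B : Fin m → Finset (Fin n))
    (hcov : ∀ i j, Near d (p i) (p j) → ∃ t, (i ∈ A t ∧ j ∈ B t) ∨ (j ∈ A t ∧ i ∈ B t)) :
    cnt d p univ univ ≤ ∑ t, 2 * cnt d p (A t) (B t) := by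
  classical
  unfold cnt
  have hsub : (((univ : Finset (Fin n)) ×ˢ (univ : Finset (Fin n))).filter
      fun z => Near d (p z.1) (p z.2)) ⊆ (univ : Finset (Fin m)).biUnion fun t =>
      (((A t) ×ˢ (B t)).filter fun z => Near d (p z.1) (p z.2)) ∪
      (((A t) ×ˢ (B t)).filter fun z => Near d (p z.1) (p z.2)).image Prod.swap := by
    intro z hz
    rw [mem_filter] at hz
    obtain ⟨t, ht⟩ := hcov z.1 z.2 hz.2
    rw [mem_biUnion]
    refine ⟨t, mem_univ _, ?_⟩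
    rw [mem_union]
    rcases ht with ht | ht
    · left
      rw [mem_filter, mem_product]
      exact ⟨ht, hz.2⟩
    · right
      rw [mem_image]
      refine ⟨(z.2, z.1), ?_, rfl⟩
      rw [mem_filter, mem_product]
      exact ⟨ht, near_symm d _ _ hz.2⟩
  refine le_trans (card_le_card hsub) (le_trans card_biUnion_le (sum_le_sum fun t _ => ?_))
  refine le_trans (card_union_le _ _) ?_
  have h1 := card_image_le (s := ((A t) ×ˢ (B t)).filter fun z => Near d (p z.1) (p z.2))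
    (f := Prod.swap)
  omega

theorem coreT (hD : DelStmt) (r n : ℕ) (hn : 3 ≤ n) (p : Fin n → ℝ × ℝ)
    (d e g : ℝ) (hd0 : 0 < d) (hd1 : d ≤ 1 / 10) (he0 : 0 < e) (hde : 9 * d ≤ e ^ 2) (hg : 0 < g)
    (hsp : Sparse d e (LL n + 2) p)
    (hcnt : 32 * g * (n : ℝ) ^ (4 / 3 : ℝ) ≤ (cnt d p univ univ : ℝ)) :
    ¬ CheapT d r (g * (n : ℝ) ^ (4 / 3 : ℝ) / (5 * Real.log n) ^ (r + 1)) p := by
  rintro ⟨m, A, B, hE, hcov, hlt⟩
  obtain ⟨hl1, hl2, hl3⟩ := log_facts n hn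
  have h1 := coverN n m d p A B hcov
  have h2 : ∀ t, cnt d p (A t) (B t) ≤
      ((A t).card + (B t).card) * (4 * (LL n + 2) * (Nat.clog 2 n + 2) ^ r) := fun t =>
    blkT r n (4 * (LL n + 2)) d p (fun A' B' h => hD d e hd0 hd1 he0 hde n (LL n + 2) p
      hsp A' B' h) (A t) (B t) (hE t)
  have h3 : (cnt d p univ univ : ℝ) ≤ ∑ t, 2 * ((((A t).card : ℝ) + (B t).card) *
      (4 * ((LL n + 2 : ℕ) : ℝ) * ((Nat.clog 2 n + 2 : ℕ) : ℝ) ^ r)) := by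
    have h4 : (cnt d p univ univ : ℝ) ≤ ((∑ t, 2 * cnt d p (A t) (B t) : ℕ) : ℝ) := by
      exact_mod_cast h1
    refine le_trans h4 ?_
    push_cast
    refine sum_le_sum fun t _ => ?_
    have h5 : (cnt d p (A t) (B t) : ℝ) ≤
        ((((A t).card + (B t).card) * (4 * (LL n + 2) * (Nat.clog 2 n + 2) ^ r) : ℕ) : ℝ) := by
      exact_mod_cast h2 t
    push_cast at h5
    linarith
  have hn0 : (0 : ℝ) < n := by exact_mod_cast (by omega : 0 < n)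
  have hN : 0 < (n : ℝ) ^ (4 / 3 : ℝ) := Real.rpow_pos_of_pos hn0 _
  have hl0 : 0 < Real.log n := by linarith
  have hK0 : (0 : ℝ) < ((LL n + 2 : ℕ) : ℝ) := by positivity
  have hW0 : (0 : ℝ) < ((Nat.clog 2 n + 2 : ℕ) : ℝ) := by positivity
  obtain ⟨K, hK⟩ : ∃ K : ℝ, K = ((LL n + 2 : ℕ) : ℝ) := ⟨_, rfl⟩
  obtain ⟨W, hW⟩ : ∃ W : ℝ, W = ((Nat.clog 2 n + 2 : ℕ) : ℝ) := ⟨_, rfl⟩
  rw [← hK] at h3 hK0 hl2
  rw [← hW] at h3 hW0 hl3
  have h6 : ∑ t, 2 * ((((A t).card : ℝ) + (B t).card) * (4 * K * W ^ r)) =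
      (∑ t, (((A t).card : ℝ) + (B t).card)) * (8 * K * W ^ r) := by
    rw [sum_mul]
    refine sum_congr rfl fun t _ => by ring
  rw [h6] at h3
  obtain ⟨S, hS⟩ : ∃ S : ℝ, S = ∑ t, (((A t).card : ℝ) + (B t).card) := ⟨_, rfl⟩
  rw [← hS] at h3 hlt
  have hpos : 0 < 8 * K * W ^ r := by positivity
  have h7 : S * (8 * K * W ^ r) <
      g * (n : ℝ) ^ (4 / 3 : ℝ) / (5 * Real.log n) ^ (r + 1) * (8 * K * W ^ r) :=
    mul_lt_mul_of_pos_right hlt hpos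
  have h8 : 8 * K * W ^ r ≤ 8 * (4 * Real.log n) * (5 * Real.log n) ^ r := by
    apply mul_le_mul (by linarith) (pow_le_pow_left₀ hW0.le hl3 r) (by positivity) (by positivity)
  have h9 : g * (n : ℝ) ^ (4 / 3 : ℝ) / (5 * Real.log n) ^ (r + 1) * (8 * K * W ^ r) ≤
      g * (n : ℝ) ^ (4 / 3 : ℝ) / (5 * Real.log n) ^ (r + 1) *
        (8 * (4 * Real.log n) * (5 * Real.log n) ^ r) :=
    mul_le_mul_of_nonneg_left h8 (by positivity)
  have h10 : g * (n : ℝ) ^ (4 / 3 : ℝ) / (5 * Real.log n) ^ (r + 1) *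
        (8 * (4 * Real.log n) * (5 * Real.log n) ^ r) = g * (n : ℝ) ^ (4 / 3 : ℝ) * (32 / 5) := by
    rw [pow_succ]
    field_simp
    norm_num
  have h11 : 0 < g * (n : ℝ) ^ (4 / 3 : ℝ) := by positivity
  linarith

theorem mainT (hD : DelStmt) (hA1 : ∀ d e : ℝ, 0 < d → d ≤ 1 / 10 → 0 < e →
    ∀ a b : ℝ × ℝ, volume {z | Reg d e a b z} ≤ ENNReal.ofReal (6 * e * d))
    (hA2 : ∀ d : ℝ, 0 < d → d ≤ 1 / 10 → ∀ a : ℝ × ℝ,
      volume {z | Near d a z} ≤ ENNReal.ofReal (6 * d))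
    (hL : LowN) (hS : SparseN) (hC : CountN) : MainT := by
  intro M m s δ hm hs hδ
  obtain ⟨w, d0, c0, hw, hws, hd0, hc0, hlow⟩ := hL s hs
  -- the size of `d`
  obtain ⟨M1, hM1⟩ : ∃ M1 : ℝ, M1 = max M 1 := ⟨_, rfl⟩
  have hM1' : 1 ≤ M1 := by rw [hM1]; exact le_max_right _ _
  obtain ⟨v, hv⟩ : ∃ v : ℝ, v = min (min 1 d0) (1 / (4000 * M1)) := ⟨_, rfl⟩
  have hv0 : 0 < v := by rw [hv]; positivity
  have hv1 : v ≤ 1 := by rw [hv]; exact le_trans (min_le_left _ _) (min_le_left _ _)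
  have hvd : v ≤ d0 := by rw [hv]; exact le_trans (min_le_left _ _) (min_le_right _ _)
  have hvM : v ≤ 1 / (4000 * M1) := by rw [hv]; exact min_le_right _ _
  have hvM' : v * M1 ≤ 1 / 4000 := by
    calc v * M1 ≤ 1 / (4000 * M1) * M1 := mul_le_mul_of_nonneg_right hvM (by linarith)
      _ = 1 / 4000 := by field_simp
  have hv4 : v ≤ 1 / 4000 := by nlinarith
  have hvv : v ^ 2 ≤ v := by nlinarith
  have hvvv : v ^ 3 ≤ v := by nlinarith [mul_nonneg hv0.le hv0.le]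
  obtain ⟨k, hk⟩ : ∃ k : ℝ, k = 4 * w ^ 2 * m ^ 2 * c0 := ⟨_, rfl⟩
  have hk0 : 0 < k := by rw [hk]; positivity
  refine ⟨δ * k * v ^ 2 / 64, v ^ 2, 1 + (16 * (6 * M1) ^ 2 / (δ * k) ^ 2 +
    8 * (6 * M1) / ((δ * k) ^ 2 * v ^ 2)), by positivity, by positivity, ?_⟩
  intro n hn ρ hρ h1 hM G hG hGG
  have hMM : ∀ i z, ρ i z ≤ ENNReal.ofReal M1 := fun i z => le_trans (hM i z)
    (ENNReal.ofReal_le_ofReal (by rw [hM1]; exact le_max_left _ _))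
  have hprob : ∀ i, IsProbabilityMeasure (volume.withDensity (ρ i)) := by
    intro i
    constructor
    rw [withDensity_apply _ MeasurableSet.univ, Measure.restrict_univ, h1 i]
  have hn0 : (0 : ℝ) < n := by exact_mod_cast (by omega : 0 < n)
  have hn1 : (1 : ℝ) ≤ n := by exact_mod_cast (by omega : 1 ≤ n)
  obtain ⟨hd1, hd2, he1, hde, hned, hnd⟩ := dg_facts v hv0 n hn
  obtain ⟨d, hd⟩ : ∃ d : ℝ, d = dg v n := ⟨_, rfl⟩
  obtain ⟨e, he⟩ : ∃ e : ℝ, e = eg v n := ⟨_, rfl⟩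
  rw [← hd, ← he] at hned hde
  rw [← hd] at hd1 hd2 hnd
  rw [← he] at he1
  have hd10 : d ≤ 1 / 10 := by linarith
  have hdd0 : d ≤ d0 := by linarith
  have hg0 : (0 : ℝ) < G.card := lt_of_lt_of_le (by positivity) hG
  have hGn : G.Nonempty := by
    rw [← Finset.card_pos]
    exact_mod_cast hg0
  -- the two probabilities
  have hreg : ∀ i a b, (volume.withDensity (ρ i)) {z | Reg d e a b z} ≤
      ENNReal.ofReal (M1 * (6 * e * d)) := by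
    intro i a b
    rw [ENNReal.ofReal_mul (by linarith)]
    exact le_trans (dens_le (ρ i) M1 (hMM i) _) (mul_le_mul_right (hA1 d e hd1 hd10 he1 a b) _)
  have hnear : ∀ i a, (volume.withDensity (ρ i)) {z | Near d a z} ≤
      ENNReal.ofReal (M1 * (6 * d)) := by
    intro i a
    rw [ENNReal.ofReal_mul (by linarith)]
    exact le_trans (dens_le (ρ i) M1 (hMM i) _) (mul_le_mul_right (hA2 d hd1 hd10 a) _)
  have hq : (n : ℝ) * (M1 * (6 * e * d)) ≤ 9 / 2000 := by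
    have e1 : (n : ℝ) * (M1 * (6 * e * d)) = 6 * M1 * (n * (e * d)) := by ring
    rw [e1, hned]
    have e2 : M1 * v ^ 3 ≤ M1 * v := mul_le_mul_of_nonneg_left hvvv (by linarith)
    nlinarith
  have hp1 := hS n (LL n) (fun i => volume.withDensity (ρ i)) hprob d e (M1 * (6 * e * d))
    (by positivity) hreg
  have hprodge : ∀ g ∈ G, g.1 ≠ g.2 ∧ ENNReal.ofReal (k * d) ≤
      ((volume.withDensity (ρ g.1)).prod (volume.withDensity (ρ g.2))) {z | Near d z.1 z.2} := by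
    intro g hg
    obtain ⟨hne, x, y, hxy, hx, hy⟩ := hGG g hg
    refine ⟨hne, ?_⟩
    rw [hk]
    exact prod_geN (ρ g.1) (ρ g.2) m s w d c0 x y hm hw hws hc0 hd1 hx hy
      (fun a ha1 ha2 => hlow x y hxy d hd1 hdd0 a ha1 ha2)
  have hp2 := hC n (fun i => volume.withDensity (ρ i)) hprob d (k * d) (M1 * (6 * d)) G
    (by positivity) (by positivity) hGn hnear hprodge
  have hgk : δ * k * v ^ 2 / 2 * (n : ℝ) ^ (4 / 3 : ℝ) ≤ (G.card : ℝ) * (k * d) / 2 := by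
    have e1 : δ * k * v ^ 2 / 2 * (n : ℝ) ^ (4 / 3 : ℝ) = δ * (n : ℝ) ^ 2 * (k * d) / 2 := by
      rw [show δ * (n : ℝ) ^ 2 * (k * d) / 2 = δ * k * (n ^ 2 * d) / 2 by ring, hnd]
      ring
    rw [e1]
    have e2 : δ * (n : ℝ) ^ 2 * (k * d) ≤ (G.card : ℝ) * (k * d) :=
      mul_le_mul_of_nonneg_right hG (by positivity)
    linarith
  have hdeq : v ^ 2 * (n : ℝ) ^ (-(2 / 3) : ℝ) = d := by rw [hd, dg_eq]
  rw [hdeq]
  have hsub : {p : Fin n → ℝ × ℝ | ∃ r, CheapT d r (δ * k * v ^ 2 / 64 *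
      (n : ℝ) ^ (4 / 3 : ℝ) / (5 * Real.log n) ^ (r + 1)) p} ⊆ {p | ¬ Sparse d e (LL n + 2) p} ∪
      {p | (cnt d p univ univ : ℝ) < (G.card : ℝ) * (k * d) / 2} := by
    rintro p ⟨r, hp⟩
    by_contra hc
    have hc1 : Sparse d e (LL n + 2) p := by
      by_contra h
      exact hc (Or.inl h)
    have hc2 : (G.card : ℝ) * (k * d) / 2 ≤ (cnt d p univ univ : ℝ) := by
      by_contra h
      exact hc (Or.inr (not_le.mp h))
    refine coreT hD r n hn p d e (δ * k * v ^ 2 / 64) hd1 hd10 he1 hde (by positivity) hc1 ?_ hp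
    refine le_trans (le_of_eq ?_) (le_trans hgk hc2)
    ring
  refine le_trans (measure_mono hsub) (le_trans (measure_union_le _ _) ?_)
  refine le_trans (add_le_add hp1 hp2) ?_
  rw [← ENNReal.ofReal_add (by positivity) (by positivity)]
  apply ENNReal.ofReal_le_ofReal
  have h2 := pow_small n hn (M1 * (6 * e * d)) (by positivity) hq
  have h3 : 4 * ((n : ℝ) ^ 2 * (4 * n * (M1 * (6 * d)) ^ 2 + 2 * (M1 * (6 * d)))) /
      ((G.card : ℝ) * (k * d)) ^ 2 ≤ 4 * ((n : ℝ) ^ 2 * (4 * n * (M1 * (6 * d)) ^ 2 +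
        2 * (M1 * (6 * d)))) / (δ * (n : ℝ) ^ 2 * (k * d)) ^ 2 := by
    apply div_le_div_of_nonneg_left (by positivity) (by positivity)
    apply pow_le_pow_left₀ (by positivity)
    exact mul_le_mul_of_nonneg_right hG (by positivity)
  have h4 : 4 * ((n : ℝ) ^ 2 * (4 * n * (M1 * (6 * d)) ^ 2 + 2 * (M1 * (6 * d)))) /
      (δ * (n : ℝ) ^ 2 * (k * d)) ^ 2 = 16 * (6 * M1) ^ 2 / (δ * k) ^ 2 / n +
        8 * (6 * M1) / ((δ * k) ^ 2 * (n ^ 2 * d)) := by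
    field_simp
    ring
  have h5 : 8 * (6 * M1) / ((δ * k) ^ 2 * ((n : ℝ) ^ 2 * d)) ≤
      8 * (6 * M1) / ((δ * k) ^ 2 * v ^ 2) / n := by
    rw [hnd, div_div]
    apply div_le_div_of_nonneg_left (by positivity) (by positivity)
    have h5 : (n : ℝ) ≤ (n : ℝ) ^ (4 / 3 : ℝ) := by
      calc (n : ℝ) = (n : ℝ) ^ (1 : ℝ) := (Real.rpow_one _).symm
        _ ≤ _ := Real.rpow_le_rpow_of_exponent_le hn1 (by norm_num)
    rw [show (δ * k) ^ 2 * v ^ 2 * (n : ℝ) = (δ * k) ^ 2 * (v ^ 2 * n) by ring]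
    apply mul_le_mul_of_nonneg_left _ (by positivity)
    exact mul_le_mul_of_nonneg_left h5 (by positivity)
  calc _ ≤ 1 / (n : ℝ) + (16 * (6 * M1) ^ 2 / (δ * k) ^ 2 / n +
        8 * (6 * M1) / ((δ * k) ^ 2 * v ^ 2) / n) :=
        add_le_add h2 (le_trans h3 (le_trans (le_of_eq h4) (add_le_add le_rfl h5)))
    _ = _ := by ring

end Pool.Agent.H31.UR
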