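import Pool.Agent.H31.UR.Fin
import Pool.Agent.H31.UR.Gen

/-!
# Fing: the theorem for general densities from the modules
-/

set_option autoImplicit false

namespace Pool.Agent.H31.UR

open MeasureTheory Finset

/-- the numbers -/
noncomputable def dg (y : ℝ) (n : ℕ) : ℝ := (y * (n : ℝ) ^ (-(1 / 3) : ℝ)) ^ 2

noncomputable def eg (y : ℝ) (n : ℕ) : ℝ := 3 * (y * (n : ℝ) ^ (-(1 / 3) : ℝ))

theorem dg_facts (y : ℝ) (hy : 0 < y) (n : ℕ) (hn : 3 ≤ n) : 0 < dg y n ∧ dg y n ≤ y ^ 2 ∧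
    0 < eg y n ∧ 9 * dg y n ≤ eg y n ^ 2 ∧ (n : ℝ) * (eg y n * dg y n) = 3 * y ^ 3 ∧
    (n : ℝ) ^ 2 * dg y n = y ^ 2 * (n : ℝ) ^ (4 / 3 : ℝ) := by
  have hn0 : (0 : ℝ) < n := by exact_mod_cast (by omega : 0 < n)
  have hn1 : (1 : ℝ) ≤ n := by exact_mod_cast (by omega : 1 ≤ n)
  have hz0 : 0 < (n : ℝ) ^ (-(1 / 3) : ℝ) := Real.rpow_pos_of_pos hn0 _
  have hz1 : (n : ℝ) ^ (-(1 / 3) : ℝ) ≤ 1 := Real.rpow_le_one_of_one_le_of_nonpos hn1 (by norm_num)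
  have hz3 : ((n : ℝ) ^ (-(1 / 3) : ℝ)) ^ 3 = 1 / n := by
    rw [← Real.rpow_natCast, ← Real.rpow_mul hn0.le]
    norm_num
    rw [Real.rpow_neg_one]
  have hz2 : (n : ℝ) ^ 2 * ((n : ℝ) ^ (-(1 / 3) : ℝ)) ^ 2 = (n : ℝ) ^ (4 / 3 : ℝ) := by
    rw [← Real.rpow_natCast ((n : ℝ) ^ (-(1 / 3) : ℝ)) 2, ← Real.rpow_mul hn0.le,
      ← Real.rpow_natCast (n : ℝ) 2, ← Real.rpow_add hn0]
    norm_num
  obtain ⟨z, hz⟩ : ∃ z : ℝ, z = (n : ℝ) ^ (-(1 / 3) : ℝ) := ⟨_, rfl⟩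
  unfold dg eg
  rw [← hz] at hz0 hz1 hz3 hz2 ⊢
  refine ⟨by positivity, ?_, by positivity, ?_, ?_, ?_⟩
  · rw [mul_pow]
    have : z ^ 2 ≤ 1 := by nlinarith
    have hy2 : 0 ≤ y ^ 2 := by positivity
    nlinarith
  · exact le_of_eq (by ring)
  · rw [show (n : ℝ) * (3 * (y * z) * (y * z) ^ 2) = 3 * y ^ 3 * (n * z ^ 3) by ring, hz3]
    field_simp
  · rw [mul_pow, ← mul_assoc, mul_comm ((n : ℝ) ^ 2) (y ^ 2), mul_assoc, hz2]

theorem coreG (hB : BlkStmt) (hD : DelStmt) (r n : ℕ) (hn : 3 ≤ n) (p : Fin n → ℝ × ℝ)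
    (d e g : ℝ) (hd0 : 0 < d) (hd1 : d ≤ 1 / 10) (he0 : 0 < e) (hde : 9 * d ≤ e ^ 2) (hg : 0 < g)
    (hsp : Sparse d e (LL n + 2) p)
    (hcnt : 32 * g * (n : ℝ) ^ (4 / 3 : ℝ) ≤ (cnt d p univ univ : ℝ)) :
    ¬ Cheap r (g * (n : ℝ) ^ (4 / 3 : ℝ) / (5 * Real.log n) ^ (r + 1)) p := by
  rintro ⟨m, A, B, hE, hcov, hlt⟩
  obtain ⟨hl1, hl2, hl3⟩ := log_facts n hn
  have h1 := cover n m d p A B hcov
  have h2 : ∀ t, cnt d p (A t) (B t) ≤
      ((A t).card + (B t).card) * (4 * (LL n + 2) * (Nat.clog 2 n + 2) ^ r) := fun t =>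
    hB r n (4 * (LL n + 2)) d p (fun A' B' h => hD d e hd0 hd1 he0 hde n (LL n + 2) p
      hsp A' B' h) (A t) (B t) (hE t)
  have h3 : (cnt d p univ univ : ℝ) ≤ ∑ t, 2 * ((((A t).card : ℝ) + (B t).card) *
      (4 * ((LL n + 2 : ℕ) : ℝ) * ((Nat.clog 2 n + 2 : ℕ) : ℝ) ^ r)) := by
    have h4 : (cnt d p univ univ : ℝ) ≤ ((∑ t, 2 * cnt d p (A t) (B t) : ℕ) : ℝ) := by
      exact_mod_cast h1
    refine le_trans h4 ?_
    push_cast
    refine sum_le_sum fun t _ => ?_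
    have h5 : (cnt d p (A t) (B t) : ℝ) ≤
        ((((A t).card + (B t).card) * (4 * (LL n + 2) * (Nat.clog 2 n + 2) ^ r) : ℕ) : ℝ) := by
      exact_mod_cast h2 t
    push_cast at h5
    linarith
  have hn0 : (0 : ℝ) < n := by exact_mod_cast (by omega : 0 < n)
  have hN : 0 < (n : ℝ) ^ (4 / 3 : ℝ) := Real.rpow_pos_of_pos hn0 _
  have hl0 : 0 < Real.log n := by linarith
  have hK0 : (0 : ℝ) < ((LL n + 2 : ℕ) : ℝ) := by positivity
  have hW0 : (0 : ℝ) < ((Nat.clog 2 n + 2 : ℕ) : ℝ) := by positivity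
  obtain ⟨K, hK⟩ : ∃ K : ℝ, K = ((LL n + 2 : ℕ) : ℝ) := ⟨_, rfl⟩
  obtain ⟨W, hW⟩ : ∃ W : ℝ, W = ((Nat.clog 2 n + 2 : ℕ) : ℝ) := ⟨_, rfl⟩
  rw [← hK] at h3 hK0 hl2
  rw [← hW] at h3 hW0 hl3
  have h6 : ∑ t, 2 * ((((A t).card : ℝ) + (B t).card) * (4 * K * W ^ r)) =
      (∑ t, (((A t).card : ℝ) + (B t).card)) * (8 * K * W ^ r) := by
    rw [sum_mul]
    refine sum_congr rfl fun t _ => by ring
  rw [h6] at h3
  obtain ⟨S, hS⟩ : ∃ S : ℝ, S = ∑ t, (((A t).card : ℝ) + (B t).card) := ⟨_, rfl⟩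
  rw [← hS] at h3 hlt
  have hpos : 0 < 8 * K * W ^ r := by positivity
  have h7 : S * (8 * K * W ^ r) <
      g * (n : ℝ) ^ (4 / 3 : ℝ) / (5 * Real.log n) ^ (r + 1) * (8 * K * W ^ r) :=
    mul_lt_mul_of_pos_right hlt hpos
  have h8 : 8 * K * W ^ r ≤ 8 * (4 * Real.log n) * (5 * Real.log n) ^ r := by
    apply mul_le_mul (by linarith) (pow_le_pow_left₀ hW0.le hl3 r) (by positivity) (by positivity)
  have h9 : g * (n : ℝ) ^ (4 / 3 : ℝ) / (5 * Real.log n) ^ (r + 1) * (8 * K * W ^ r) ≤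
      g * (n : ℝ) ^ (4 / 3 : ℝ) / (5 * Real.log n) ^ (r + 1) *
        (8 * (4 * Real.log n) * (5 * Real.log n) ^ r) :=
    mul_le_mul_of_nonneg_left h8 (by positivity)
  have h10 : g * (n : ℝ) ^ (4 / 3 : ℝ) / (5 * Real.log n) ^ (r + 1) *
        (8 * (4 * Real.log n) * (5 * Real.log n) ^ r) = g * (n : ℝ) ^ (4 / 3 : ℝ) * (32 / 5) := by
    rw [pow_succ]
    field_simp
    norm_num
  have h11 : 0 < g * (n : ℝ) ^ (4 / 3 : ℝ) := by positivity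
  linarith

/-- the probability that fewer than `log n` points ... -/
theorem pow_small (n : ℕ) (hn : 3 ≤ n) (q : ℝ) (hq0 : 0 ≤ q) (hq : (n : ℝ) * q ≤ 9 / 2000) :
    (n : ℝ) ^ 2 * ((n : ℝ) * q) ^ LL n ≤ 1 / n := by
  have hn0 : (0 : ℝ) < n := by exact_mod_cast (by omega : 0 < n)
  have h1 : (9 / 2000 : ℝ) ^ LL n ≤ 1 / (n : ℝ) ^ 3 := by
    have h2 : (9 / 2000 : ℝ) ≤ Real.exp (-3) := by
      rw [Real.exp_neg, le_inv_comm₀ (by norm_num) (Real.exp_pos _)]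
      have h3 : Real.exp 3 = Real.exp 1 ^ 3 := by
        rw [← Real.exp_nat_mul]; norm_num
      rw [h3]
      have h4 := Real.exp_one_lt_d9
      have h5 : Real.exp 1 ^ 3 ≤ 3 ^ 3 := pow_le_pow_left₀ (Real.exp_pos 1).le (by linarith) 3
      linarith
    calc (9 / 2000 : ℝ) ^ LL n ≤ Real.exp (-3) ^ LL n := pow_le_pow_left₀ (by norm_num) h2 _
      _ = Real.exp (LL n * (-3)) := (Real.exp_nat_mul _ _).symm
      _ ≤ Real.exp (Real.log n * (-3)) := by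
        apply Real.exp_le_exp.mpr
        have := Nat.le_ceil (Real.log n)
        unfold LL
        linarith
      _ = 1 / (n : ℝ) ^ 3 := by
        rw [show Real.log n * (-3) = -(3 * Real.log n) by ring, Real.exp_neg,
          show (3 : ℝ) * Real.log n = ((3 : ℕ) : ℝ) * Real.log n by norm_num,
          Real.exp_nat_mul, Real.exp_log hn0, one_div]
  calc (n : ℝ) ^ 2 * ((n : ℝ) * q) ^ LL n ≤ (n : ℝ) ^ 2 * (9 / 2000 : ℝ) ^ LL n := by
        apply mul_le_mul_of_nonneg_left _ (by positivity)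
        exact pow_le_pow_left₀ (by positivity) hq _
    _ ≤ (n : ℝ) ^ 2 * (1 / (n : ℝ) ^ 3) := mul_le_mul_of_nonneg_left h1 (by positivity)
    _ = 1 / n := by field_simp

theorem near_meas_g (d : ℝ) : MeasurableSet {z : (ℝ × ℝ) × (ℝ × ℝ) | Near d z.1 z.2} := by
  have h1 : MeasurableSet {z : (ℝ × ℝ) × (ℝ × ℝ) |
      1 ≤ (z.1.1 - z.2.1) ^ 2 + (z.1.2 - z.2.2) ^ 2} :=
    measurableSet_le measurable_const (by fun_prop)
  have h2 : MeasurableSet {z : (ℝ × ℝ) × (ℝ × ℝ) |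
      (z.1.1 - z.2.1) ^ 2 + (z.1.2 - z.2.2) ^ 2 ≤ 1 + d} :=
    measurableSet_le (by fun_prop) measurable_const
  exact h1.inter h2

/-- the measure of a set is at most `M` times the area -/
theorem dens_le (ρ : ℝ × ℝ → ENNReal) (M : ℝ) (hM : ∀ z, ρ z ≤ ENNReal.ofReal M)
    (E : Set (ℝ × ℝ)) : volume.withDensity ρ E ≤ ENNReal.ofReal M * volume E := by
  have h1 : volume.withDensity ρ ≤ volume.withDensity (fun _ : ℝ × ℝ => ENNReal.ofReal M) :=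
    withDensity_mono (Filter.Eventually.of_forall hM)
  refine le_trans (h1 E) (le_of_eq ?_)
  rw [withDensity_const]
  rfl

/-- the measure of a set where the density is at least `m` -/
theorem dens_ge (ρ : ℝ × ℝ → ENNReal) (m : ℝ) (E : Set (ℝ × ℝ)) (hE : MeasurableSet E)
    (h : ∀ z ∈ E, ENNReal.ofReal m ≤ ρ z) :
    ENNReal.ofReal m * volume E ≤ volume.withDensity ρ E := by
  rw [withDensity_apply _ hE, ← setLIntegral_const]
  exact setLIntegral_mono' hE h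

theorem prod_ge (ρ : ℝ × ℝ → ENNReal) (m s w d c0 : ℝ) (x y : ℝ × ℝ)
    [IsProbabilityMeasure (volume.withDensity ρ)] (hm : 0 < m) (hw : 0 < w)
    (hws : 2 * w ^ 2 < s ^ 2) (hc0 : 0 < c0) (hd : 0 < d)
    (hx : ∀ z, (z.1 - x.1) ^ 2 + (z.2 - x.2) ^ 2 < s ^ 2 → ENNReal.ofReal m ≤ ρ z)
    (hy : ∀ z, (z.1 - y.1) ^ 2 + (z.2 - y.2) ^ 2 < s ^ 2 → ENNReal.ofReal m ≤ ρ z)
    (hlow : ∀ a : ℝ × ℝ, |a.1 - x.1| ≤ w → |a.2 - x.2| ≤ w → ENNReal.ofReal (c0 * d) ≤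
      volume ({z | Near d a z} ∩ {z | (z.1 - y.1) ^ 2 + (z.2 - y.2) ^ 2 < s ^ 2})) :
    ENNReal.ofReal (4 * w ^ 2 * m ^ 2 * c0 * d) ≤
      ((volume.withDensity ρ).prod (volume.withDensity ρ)) {z | Near d z.1 z.2} := by
  rw [Measure.prod_apply (near_meas_g d)]
  obtain ⟨Q, hQ⟩ : ∃ Q : Set (ℝ × ℝ), Q = Set.Icc (x.1 - w) (x.1 + w) ×ˢ
    Set.Icc (x.2 - w) (x.2 + w) := ⟨_, rfl⟩
  have hQm : MeasurableSet Q := by rw [hQ]; exact measurableSet_Icc.prod measurableSet_Icc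
  have hQa : ∀ a ∈ Q, |a.1 - x.1| ≤ w ∧ |a.2 - x.2| ≤ w := by
    intro a ha
    rw [hQ] at ha
    obtain ⟨h1, h2⟩ := ha
    have h1' := h1.1
    have h1'' := h1.2
    have h2' := h2.1
    have h2'' := h2.2
    exact ⟨abs_le.mpr ⟨by linarith, by linarith⟩, abs_le.mpr ⟨by linarith, by linarith⟩⟩
  have hQv : volume Q = ENNReal.ofReal (4 * w ^ 2) := by
    rw [hQ, Measure.volume_eq_prod, Measure.prod_prod, Real.volume_Icc, Real.volume_Icc,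
      ← ENNReal.ofReal_mul (by linarith)]
    have e1 : (x.1 + w - (x.1 - w)) * (x.2 + w - (x.2 - w)) = 4 * w ^ 2 := by ring
    rw [e1]
  have hQμ : ENNReal.ofReal (m * (4 * w ^ 2)) ≤ volume.withDensity ρ Q := by
    rw [ENNReal.ofReal_mul hm.le, ← hQv]
    refine dens_ge ρ m Q hQm fun z hz => hx z ?_
    obtain ⟨h1, h2⟩ := hQa z hz
    have h3 : (z.1 - x.1) ^ 2 ≤ w ^ 2 := sq_le_sq' (by linarith [(abs_le.mp h1).1])
      (abs_le.mp h1).2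
    have h4 : (z.2 - x.2) ^ 2 ≤ w ^ 2 := sq_le_sq' (by linarith [(abs_le.mp h2).1])
      (abs_le.mp h2).2
    linarith
  have hball : MeasurableSet {z : ℝ × ℝ | (z.1 - y.1) ^ 2 + (z.2 - y.2) ^ 2 < s ^ 2} :=
    measurableSet_lt (by fun_prop) measurable_const
  have hsec : ∀ a ∈ Q, ENNReal.ofReal (m * (c0 * d)) ≤
      volume.withDensity ρ (Prod.mk a ⁻¹' {z | Near d z.1 z.2}) := by
    intro a ha
    obtain ⟨h1, h2⟩ := hQa a ha
    have hnm : MeasurableSet {z : ℝ × ℝ | Near d a z} :=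
      (measurable_prodMk_left (x := a)) (near_meas_g d)
    calc ENNReal.ofReal (m * (c0 * d)) = ENNReal.ofReal m * ENNReal.ofReal (c0 * d) :=
          ENNReal.ofReal_mul hm.le
      _ ≤ ENNReal.ofReal m * volume ({z | Near d a z} ∩
          {z | (z.1 - y.1) ^ 2 + (z.2 - y.2) ^ 2 < s ^ 2}) := mul_le_mul_right (hlow a h1 h2) _
      _ ≤ volume.withDensity ρ ({z | Near d a z} ∩
          {z | (z.1 - y.1) ^ 2 + (z.2 - y.2) ^ 2 < s ^ 2}) :=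
          dens_ge ρ m _ (hnm.inter hball) fun z hz => hy z hz.2
      _ ≤ _ := measure_mono Set.inter_subset_left
  calc ENNReal.ofReal (4 * w ^ 2 * m ^ 2 * c0 * d)
      = ENNReal.ofReal (m * (c0 * d)) * ENNReal.ofReal (m * (4 * w ^ 2)) := by
        rw [← ENNReal.ofReal_mul (by positivity)]
        have e1 : m * (c0 * d) * (m * (4 * w ^ 2)) = 4 * w ^ 2 * m ^ 2 * c0 * d := by ring
        rw [e1]
    _ ≤ ENNReal.ofReal (m * (c0 * d)) * volume.withDensity ρ Q := mul_le_mul_right hQμ _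
    _ = ∫⁻ a in Q, ENNReal.ofReal (m * (c0 * d)) ∂(volume.withDensity ρ) := by
        rw [setLIntegral_const]
    _ ≤ ∫⁻ a in Q, volume.withDensity ρ (Prod.mk a ⁻¹' {z | Near d z.1 z.2})
          ∂(volume.withDensity ρ) := setLIntegral_mono' hQm hsec
    _ ≤ ∫⁻ a, volume.withDensity ρ (Prod.mk a ⁻¹' {z | Near d z.1 z.2})
          ∂(volume.withDensity ρ) := setLIntegral_le_lintegral _ _

theorem mainG (hB : BlkStmt) (hD : DelStmt) (hA1 : ∀ d e : ℝ, 0 < d → d ≤ 1 / 10 → 0 < e →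
    ∀ a b : ℝ × ℝ, volume {z | Reg d e a b z} ≤ ENNReal.ofReal (6 * e * d))
    (hA2 : ∀ d : ℝ, 0 < d → d ≤ 1 / 10 → ∀ a : ℝ × ℝ,
      volume {z | Near d a z} ≤ ENNReal.ofReal (6 * d))
    (hL : LowG) (hS : SparseG) (hC : CountG) : MainG := by
  intro ρ M m s x y hρ h1 hM hm hs hxy hx hy
  have hprob : IsProbabilityMeasure (volume.withDensity ρ) := by
    constructor
    rw [withDensity_apply _ MeasurableSet.univ, Measure.restrict_univ, h1]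
  obtain ⟨w, d0, c0, hw, hws, hd0, hc0, hlow⟩ := hL x y s hs hxy
  -- the size of `d`
  obtain ⟨M1, hM1⟩ : ∃ M1 : ℝ, M1 = max M 1 := ⟨_, rfl⟩
  have hM1' : 1 ≤ M1 := by rw [hM1]; exact le_max_right _ _
  have hMM : ∀ z, ρ z ≤ ENNReal.ofReal M1 := fun z => le_trans (hM z)
    (ENNReal.ofReal_le_ofReal (by rw [hM1]; exact le_max_left _ _))
  obtain ⟨v, hv⟩ : ∃ v : ℝ, v = min (min 1 d0) (1 / (4000 * M1)) := ⟨_, rfl⟩
  have hv0 : 0 < v := by rw [hv]; positivity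
  have hv1 : v ≤ 1 := by rw [hv]; exact le_trans (min_le_left _ _) (min_le_left _ _)
  have hvd : v ≤ d0 := by rw [hv]; exact le_trans (min_le_left _ _) (min_le_right _ _)
  have hvM : v ≤ 1 / (4000 * M1) := by rw [hv]; exact min_le_right _ _
  have hvM' : v * M1 ≤ 1 / 4000 := by
    calc v * M1 ≤ 1 / (4000 * M1) * M1 := mul_le_mul_of_nonneg_right hvM (by linarith)
      _ = 1 / 4000 := by field_simp
  have hv4 : v ≤ 1 / 4000 := by nlinarith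
  have hvv : v ^ 2 ≤ v := by nlinarith
  have hvvv : v ^ 3 ≤ v := by nlinarith [mul_nonneg hv0.le hv0.le]
  obtain ⟨k, hk⟩ : ∃ k : ℝ, k = 4 * w ^ 2 * m ^ 2 * c0 := ⟨_, rfl⟩
  have hk0 : 0 < k := by rw [hk]; positivity
  refine ⟨k * v ^ 2 / 128, 1 + (64 * (6 * M1) ^ 2 / k ^ 2 + 32 * (6 * M1) / (k ^ 2 * v ^ 2)),
    by positivity, ?_⟩
  intro n hn
  have hn0 : (0 : ℝ) < n := by exact_mod_cast (by omega : 0 < n)
  have hn1 : (1 : ℝ) ≤ n := by exact_mod_cast (by omega : 1 ≤ n)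
  obtain ⟨hd1, hd2, he1, hde, hned, hnd⟩ := dg_facts v hv0 n hn
  obtain ⟨d, hd⟩ : ∃ d : ℝ, d = dg v n := ⟨_, rfl⟩
  obtain ⟨e, he⟩ : ∃ e : ℝ, e = eg v n := ⟨_, rfl⟩
  rw [← hd, ← he] at hned hde
  rw [← hd] at hd1 hd2 hnd
  rw [← he] at he1
  have hd10 : d ≤ 1 / 10 := by linarith
  have hdd0 : d ≤ d0 := by linarith
  -- the two probabilities
  have hreg : ∀ a b, (volume.withDensity ρ) {z | Reg d e a b z} ≤
      ENNReal.ofReal (M1 * (6 * e * d)) := by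
    intro a b
    rw [ENNReal.ofReal_mul (by linarith)]
    exact le_trans (dens_le ρ M1 hMM _) (mul_le_mul_right (hA1 d e hd1 hd10 he1 a b) _)
  have hnear : ∀ a, (volume.withDensity ρ) {z | Near d a z} ≤ ENNReal.ofReal (M1 * (6 * d)) := by
    intro a
    rw [ENNReal.ofReal_mul (by linarith)]
    exact le_trans (dens_le ρ M1 hMM _) (mul_le_mul_right (hA2 d hd1 hd10 a) _)
  have hq : (n : ℝ) * (M1 * (6 * e * d)) ≤ 9 / 2000 := by
    have e1 : (n : ℝ) * (M1 * (6 * e * d)) = 6 * M1 * (n * (e * d)) := by ring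
    rw [e1, hned]
    have e2 : M1 * v ^ 3 ≤ M1 * v := mul_le_mul_of_nonneg_left hvvv (by linarith)
    nlinarith
  have hp1 := hS _ hprob n (LL n) d e (M1 * (6 * e * d)) (by positivity) hreg
  have hprodge := prod_ge ρ m s w d c0 x y hm hw hws hc0 hd1 hx hy
    (fun a ha1 ha2 => hlow d hd1 hdd0 a ha1 ha2)
  rw [← hk] at hprodge
  have hp2 := hC _ hprob n d (k * d) (M1 * (6 * d)) (by omega) (by positivity) (by positivity)
    hnear hprodge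
  have hsub : {p : Fin n → ℝ × ℝ | ∃ r, Cheap r (k * v ^ 2 / 128 * (n : ℝ) ^ (4 / 3 : ℝ) /
      (5 * Real.log n) ^ (r + 1)) p} ⊆ {p | ¬ Sparse d e (LL n + 2) p} ∪
      {p | (cnt d p univ univ : ℝ) < (n : ℝ) ^ 2 * (k * d) / 4} := by
    rintro p ⟨r, hp⟩
    by_contra hc
    have hc1 : Sparse d e (LL n + 2) p := by
      by_contra h
      exact hc (Or.inl h)
    have hc2 : (n : ℝ) ^ 2 * (k * d) / 4 ≤ (cnt d p univ univ : ℝ) := by
      by_contra h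
      exact hc (Or.inr (not_le.mp h))
    refine coreG hB hD r n hn p d e (k * v ^ 2 / 128) hd1 hd10 he1 hde (by positivity) hc1 ?_ hp
    refine le_trans (le_of_eq ?_) hc2
    rw [show (n : ℝ) ^ 2 * (k * d) / 4 = k * (n ^ 2 * d) / 4 by ring, hnd]
    ring
  refine le_trans (measure_mono hsub) (le_trans (measure_union_le _ _) ?_)
  refine le_trans (add_le_add hp1 hp2) ?_
  rw [← ENNReal.ofReal_add (by positivity) (by positivity)]
  apply ENNReal.ofReal_le_ofReal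
  have h2 := pow_small n hn (M1 * (6 * e * d)) (by positivity) hq
  have h3 : 64 * (M1 * (6 * d)) ^ 2 / (n * (k * d) ^ 2) = 64 * (6 * M1) ^ 2 / k ^ 2 / n := by
    field_simp
  have h4 : 32 * (M1 * (6 * d)) / ((n : ℝ) ^ 2 * (k * d) ^ 2) ≤
      32 * (6 * M1) / (k ^ 2 * v ^ 2) / n := by
    have e1 : 32 * (M1 * (6 * d)) / ((n : ℝ) ^ 2 * (k * d) ^ 2) =
        32 * (6 * M1) / (k ^ 2 * (n ^ 2 * d)) := by
      field_simp
    rw [e1, hnd, div_div]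
    apply div_le_div_of_nonneg_left (by positivity) (by positivity)
    have h5 : (n : ℝ) ≤ (n : ℝ) ^ (4 / 3 : ℝ) := by
      calc (n : ℝ) = (n : ℝ) ^ (1 : ℝ) := (Real.rpow_one _).symm
        _ ≤ _ := Real.rpow_le_rpow_of_exponent_le hn1 (by norm_num)
    rw [show k ^ 2 * v ^ 2 * (n : ℝ) = k ^ 2 * (v ^ 2 * n) by ring]
    apply mul_le_mul_of_nonneg_left _ (by positivity)
    exact mul_le_mul_of_nonneg_left h5 (by positivity)
  rw [h3]
  calc _ ≤ 1 / (n : ℝ) + (64 * (6 * M1) ^ 2 / k ^ 2 / n + 32 * (6 * M1) / (k ^ 2 * v ^ 2) / n) :=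
        add_le_add h2 (add_le_add le_rfl h4)
    _ = _ := by ring

end Pool.Agent.H31.UR
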