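import Pool.Agent.H31.UR.GenN
import Pool.Agent.H31.UR.Fub

/-!
# Conditioning on two points, different densities (MP_31a0d1_lc, RandomPoints): `fubN`

The measure of `{p | ∀ k ∈ T, (p i, p j, p k) ∈ S}` is at most `q ^ #T` if every section of `S` has
measure at most `q` for each of the measures and `i, j ∉ T`: integrate over the coordinates in `T` first.
-/

set_option autoImplicit false

namespace Pool.Agent.H31.UR.FubN

open MeasureTheory Finset Pool.Agent.H31.UR

theorem fub_marg {n : ℕ} (μ : Fin n → Measure (ℝ × ℝ)) [∀ k, IsProbabilityMeasure (μ k)]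
    {S : Set ((ℝ × ℝ) × (ℝ × ℝ) × (ℝ × ℝ))} (hS : MeasurableSet S) (q : ENNReal)
    (h : ∀ k a b, μ k {z | (a, b, z) ∈ S} ≤ q) (i j : Fin n) (T : Finset (Fin n)) :
    i ∉ T → j ∉ T → ∀ x : Fin n → ℝ × ℝ,
      lmarginal μ T (fubF S i j T) x ≤ q ^ T.card := by
  classical
  induction T using Finset.induction_on with
  | empty =>
    intro _ _ x
    rw [lmarginal_empty]
    simp [fubF]
  | insert k T hk ih =>
    intro hi hj x
    have hik : i ≠ k := fun e => hi (by simp [e])
    have hjk : j ≠ k := fun e => hj (by simp [e])
    have hi' : i ∉ T := fun e => hi (by simp [e])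
    have hj' : j ∉ T := fun e => hj (by simp [e])
    rw [lmarginal_insert' _ (fubF_meas hS i j _) hk, Finset.card_insert_of_notMem hk, pow_succ']
    have hb : (fun x : Fin n → ℝ × ℝ =>
        ∫⁻ y, fubF S i j (insert k T) (Function.update x k y) ∂(μ k)) ≤
        fun x => q * fubF S i j T x := by
      intro x
      have e : (fun y => fubF S i j (insert k T) (Function.update x k y)) =
          fun y => fubI S (x i, x j, y) * fubF S i j T x := by
        funext y
        unfold fubF
        rw [Finset.prod_insert hk]
        congr 1
        · rw [Function.update_of_ne hik, Function.update_of_ne hjk, Function.update_self]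
        · refine Finset.prod_congr rfl fun l hl => ?_
          have hlk : l ≠ k := fun e => hk (e ▸ hl)
          rw [Function.update_of_ne hik, Function.update_of_ne hjk, Function.update_of_ne hlk]
      show ∫⁻ y, fubF S i j (insert k T) (Function.update x k y) ∂(μ k) ≤ q * fubF S i j T x
      rw [e, lintegral_mul_const]
      · exact mul_le_mul_left (fub_inner hS (μ k) q (h k) (x i) (x j)) _
      · exact (fubI_meas hS).comp
          (measurable_const.prodMk (measurable_const.prodMk measurable_id))
    refine le_trans (lmarginal_mono hb x) ?_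
    have hm : lmarginal μ T (fun x => q * fubF S i j T x) x =
        q * lmarginal μ T (fubF S i j T) x := by
      unfold lmarginal
      rw [lintegral_const_mul]
      exact (fubF_meas hS i j T).comp measurable_updateFinset
    rw [hm]
    exact mul_le_mul_right (ih hi' hj' x) _

end Pool.Agent.H31.UR.FubN

namespace Pool.Agent.H31.UR

open MeasureTheory Finset

/-- **Conditioning on two points**, different measures. -/
theorem fubN : FubN := by
  classical
  intro n μ hμ S hS q h i j T hi hj
  have hset : MeasurableSet {p : Fin n → ℝ × ℝ | ∀ k ∈ T, (p i, p j, p k) ∈ S} := by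
    have e : {p : Fin n → ℝ × ℝ | ∀ k ∈ T, (p i, p j, p k) ∈ S} =
        ⋂ k ∈ T, {p : Fin n → ℝ × ℝ | (p i, p j, p k) ∈ S} := by
      ext p
      simp
    rw [e]
    refine Finset.measurableSet_biInter T fun k _ => ?_
    exact ((measurable_pi_apply i).prodMk
      ((measurable_pi_apply j).prodMk (measurable_pi_apply k))) hS
  have e : ({p : Fin n → ℝ × ℝ | ∀ k ∈ T, (p i, p j, p k) ∈ S}).indicator 1 = fubF S i j T := by
    funext p
    by_cases hp : ∀ k ∈ T, (p i, p j, p k) ∈ S
    · rw [Set.indicator_of_mem (by exact hp)]
      unfold fubF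
      rw [Finset.prod_eq_one]
      · rfl
      · intro k hk
        simp [fubI, hp k hk]
    · rw [Set.indicator_of_notMem (by exact hp)]
      push Not at hp
      obtain ⟨k, hk, hk'⟩ := hp
      unfold fubF
      rw [Finset.prod_eq_zero hk]
      simp [fubI, hk']
  rw [← lintegral_indicator_one hset, e, lintegral_eq_lmarginal_univ (fun _ => 0)]
  have hu : (univ : Finset (Fin n)) = (univ \ T) ∪ T := by
    rw [Finset.sdiff_union_self_eq_union]
    simp
  rw [hu, lmarginal_union μ _ (fubF_meas hS i j T) Finset.sdiff_disjoint]
  refine le_trans (lmarginal_mono (g := fun _ => q ^ T.card)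
    (fun x => FubN.fub_marg μ hS q h i j T hi hj x) _) ?_
  unfold lmarginal
  rw [lintegral_const, measure_univ, mul_one]

end Pool.Agent.H31.UR
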