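import Pool.Agent.H31.UR.GenN

/-!
# Areas: the lower bound near a general pair of points, uniform constants (MP_31a0d1_lc)
-/

set_option autoImplicit false

namespace Pool.Agent.H31.UR

open MeasureTheory Finset

/-- pointwise part of the horizontal case -/
private theorem low_pt {x1 x2 y1 y2 a1 a2 s w σ p d t u S : ℝ} (hs : 0 < s) (hs1 : s ≤ 1)
    (hw : w = s / 16) (hσ : σ = 1 ∨ σ = -1) (hp : p = σ * (y1 - x1)) (hp0 : 7 / 10 ≤ p)
    (hxy : (x1 - y1) ^ 2 + (x2 - y2) ^ 2 = 1) (hv : (x1 - y1) ^ 2 ≥ 1 / 2)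
    (hd : 0 < d) (hdw : d ≤ w) (ha1 : |a1 - x1| ≤ w) (ha2 : |a2 - x2| ≤ w)
    (hu : |u - (a2 + (y2 - x2))| ≤ w) (hS0 : 0 ≤ S) (hS : S ^ 2 = max 0 (1 - (u - a2) ^ 2))
    (h1 : S ≤ σ * (t - a1)) (h2 : σ * (t - a1) ≤ S + 2 / 5 * d) :
    Near d (a1, a2) (t, u) ∧ (t - y1) ^ 2 + (u - y2) ^ 2 < s ^ 2 := by
  have hw0 : 0 < w := by rw [hw]; positivity
  have hw1 : w ≤ 1 / 16 := by rw [hw]; linarith
  set h : ℝ := u - a2 with hh
  set v2 : ℝ := y2 - x2 with hv2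
  have hhv : |h - v2| ≤ w := by
    have : h - v2 = u - (a2 + v2) := by rw [hh]; ring
    rw [this]; exact hu
  have hv2s : v2 ^ 2 ≤ 1 / 2 := by
    have : v2 ^ 2 = (x2 - y2) ^ 2 := by rw [hv2]; ring
    rw [this]; linarith
  have hv2a : |v2| ≤ 71 / 100 := by
    apply abs_le_of_sq_le_sq _ (by norm_num)
    linarith
  have hha : |h| ≤ 78 / 100 := by
    have : h = (h - v2) + v2 := by ring
    rw [this]
    calc |h - v2 + v2| ≤ |h - v2| + |v2| := abs_add_le _ _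
      _ ≤ 1 / 16 + 71 / 100 := by linarith
      _ ≤ 78 / 100 := by norm_num
  have hhs : h ^ 2 ≤ (78 / 100) ^ 2 := by
    rw [← sq_abs]; exact pow_le_pow_left₀ (abs_nonneg _) hha 2
  have hS' : S ^ 2 = 1 - h ^ 2 := by
    rw [hS]; apply max_eq_right; linarith
  have hS6 : 3 / 5 ≤ S := by
    by_contra hc
    push Not at hc
    have : S ^ 2 < (3 / 5) ^ 2 := pow_lt_pow_left₀ hc hS0 (by norm_num)
    linarith
  have hS1 : S ≤ 1 := by
    by_contra hc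
    push Not at hc
    have h3 : 1 < S ^ 2 := one_lt_pow₀ hc two_ne_zero
    have h4 : 0 ≤ h ^ 2 := sq_nonneg h
    linarith
  set q : ℝ := σ * (t - a1) with hq
  have hσ2 : σ ^ 2 = 1 := by rcases hσ with h | h <;> rw [h] <;> norm_num
  have hq2 : (t - a1) ^ 2 = q ^ 2 := by rw [hq, mul_pow, hσ2, one_mul]
  have hqs1 : S ^ 2 ≤ q ^ 2 := pow_le_pow_left₀ hS0 h1 2
  have hqs2 : q ^ 2 ≤ (S + 2 / 5 * d) ^ 2 := pow_le_pow_left₀ (by linarith) h2 2
  have hqs3 : (S + 2 / 5 * d) ^ 2 ≤ S ^ 2 + d := by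
    have r1 : S * d ≤ 1 * d := mul_le_mul_of_nonneg_right hS1 hd.le
    have r2 : d * d ≤ 1 / 16 * d := mul_le_mul_of_nonneg_right (hdw.trans hw1) hd.le
    have r3 : (S + 2 / 5 * d) ^ 2 = S ^ 2 + 4 / 5 * (S * d) + 4 / 25 * (d * d) := by ring
    rw [r3]; linarith
  constructor
  · constructor
    · change 1 ≤ (a1 - t) ^ 2 + (a2 - u) ^ 2
      have e : (a1 - t) ^ 2 + (a2 - u) ^ 2 = q ^ 2 + h ^ 2 := by rw [← hq2, hh]; ring
      rw [e]; linarith
    · change (a1 - t) ^ 2 + (a2 - u) ^ 2 ≤ 1 + d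
      have e : (a1 - t) ^ 2 + (a2 - u) ^ 2 = q ^ 2 + h ^ 2 := by rw [← hq2, hh]; ring
      rw [e]; linarith
  · have hp2 : p ^ 2 = 1 - v2 ^ 2 := by
      have e1 : p ^ 2 = (x1 - y1) ^ 2 := by rw [hp, mul_pow, hσ2]; ring
      have e2 : v2 ^ 2 = (x2 - y2) ^ 2 := by rw [hv2]; ring
      rw [e1, e2]; linarith
    have hprod : |S - p| * (S + p) = |v2 - h| * |v2 + h| := by
      have hsp : S + p = |S + p| := (abs_of_nonneg (by linarith)).symm
      rw [hsp, ← abs_mul, ← abs_mul]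
      congr 1
      have r1 : (S - p) * (S + p) = S ^ 2 - p ^ 2 := by ring
      have r2 : (v2 - h) * (v2 + h) = v2 ^ 2 - h ^ 2 := by ring
      rw [r1, r2, hS', hp2]; ring
    have b1 : |v2 - h| ≤ w := by rw [abs_sub_comm]; exact hhv
    have b2 : |v2 + h| ≤ 3 / 2 := by
      calc |v2 + h| ≤ |v2| + |h| := abs_add_le _ _
        _ ≤ 3 / 2 := by linarith
    have b3 : |S - p| * (13 / 10) ≤ w * (3 / 2) := by
      calc |S - p| * (13 / 10) ≤ |S - p| * (S + p) :=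
            mul_le_mul_of_nonneg_left (by linarith) (abs_nonneg _)
        _ = |v2 - h| * |v2 + h| := hprod
        _ ≤ w * (3 / 2) := mul_le_mul b1 b2 (abs_nonneg _) hw0.le
    have b4 : |S - p| ≤ 6 / 5 * w := by linarith
    have b5 : |q - p| ≤ 8 / 5 * w := by
      have e : q - p = (q - S) + (S - p) := by ring
      rw [e]
      calc |q - S + (S - p)| ≤ |q - S| + |S - p| := abs_add_le _ _
        _ ≤ 2 / 5 * w + 6 / 5 * w := by
          refine add_le_add ?_ b4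
          rw [abs_of_nonneg (by linarith)]
          linarith
        _ = 8 / 5 * w := by ring
    have b6 : |t - y1| ≤ 13 / 5 * w := by
      have e : t - y1 = (a1 - x1) + σ * (q - p) := by
        rw [hq, hp]
        have : σ * (σ * (t - a1) - σ * (y1 - x1)) = σ ^ 2 * ((t - a1) - (y1 - x1)) := by ring
        rw [this, hσ2]; ring
      rw [e]
      have e2 : |σ * (q - p)| = |q - p| := by
        rw [abs_mul]
        have : |σ| = 1 := by rcases hσ with h | h <;> rw [h] <;> norm_num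
        rw [this, one_mul]
      calc |a1 - x1 + σ * (q - p)| ≤ |a1 - x1| + |σ * (q - p)| := abs_add_le _ _
        _ ≤ w + 8 / 5 * w := by rw [e2]; linarith
        _ = 13 / 5 * w := by ring
    have b7 : |u - y2| ≤ 2 * w := by
      have e : u - y2 = (h - v2) + (a2 - x2) := by rw [hh, hv2]; ring
      rw [e]
      calc |h - v2 + (a2 - x2)| ≤ |h - v2| + |a2 - x2| := abs_add_le _ _
        _ ≤ 2 * w := by linarith
    have c1 : (t - y1) ^ 2 ≤ (13 / 5 * w) ^ 2 := by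
      rw [← sq_abs (t - y1)]; exact pow_le_pow_left₀ (abs_nonneg _) b6 2
    have c2 : (u - y2) ^ 2 ≤ (2 * w) ^ 2 := by
      rw [← sq_abs (u - y2)]; exact pow_le_pow_left₀ (abs_nonneg _) b7 2
    have hsw : s = 16 * w := by rw [hw]; ring
    have c3 : 0 < w ^ 2 := pow_pos hw0 2
    have c4 : (13 / 5 * w) ^ 2 = 169 / 25 * w ^ 2 := by ring
    have c5 : (2 * w) ^ 2 = 4 * w ^ 2 := by ring
    have c6 : s ^ 2 = 256 * w ^ 2 := by rw [hsw]; ring
    rw [c4] at c1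
    rw [c5] at c2
    rw [c6]
    linarith

private theorem slice_vol {σ : ℝ} (hσ : σ = 1 ∨ σ = -1) (a S d : ℝ) :
    ENNReal.ofReal (2 / 5 * d) ≤
      volume {t : ℝ | S ≤ σ * (t - a) ∧ σ * (t - a) ≤ S + 2 / 5 * d} := by
  rcases hσ with h | h
  · have e : {t : ℝ | S ≤ σ * (t - a) ∧ σ * (t - a) ≤ S + 2 / 5 * d} =
        Set.Icc (a + S) (a + S + 2 / 5 * d) := by
      ext t
      simp only [Set.mem_ofPred_eq, Set.mem_Icc, h]
      constructor
      · rintro ⟨h1, h2⟩; constructor <;> linarith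
      · rintro ⟨h1, h2⟩; constructor <;> linarith
    rw [e, Real.volume_Icc]
    exact le_of_eq (by congr 1; ring)
  · have e : {t : ℝ | S ≤ σ * (t - a) ∧ σ * (t - a) ≤ S + 2 / 5 * d} =
        Set.Icc (a - S - 2 / 5 * d) (a - S) := by
      ext t
      simp only [Set.mem_ofPred_eq, Set.mem_Icc, h]
      constructor
      · rintro ⟨h1, h2⟩; constructor <;> linarith
      · rintro ⟨h1, h2⟩; constructor <;> linarith
    rw [e, Real.volume_Icc]
    exact le_of_eq (by congr 1; ring)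

/-- horizontal case -/
private theorem lowH {x y : ℝ × ℝ} {s : ℝ} (hs : 0 < s) (hs1 : s ≤ 1)
    (hxy : (x.1 - y.1) ^ 2 + (x.2 - y.2) ^ 2 = 1) (hv : (x.1 - y.1) ^ 2 ≥ 1 / 2)
    {d : ℝ} (hd : 0 < d) (hds : d ≤ s / 16) {a : ℝ × ℝ} (ha1 : |a.1 - x.1| ≤ s / 16)
    (ha2 : |a.2 - x.2| ≤ s / 16) :
    ENNReal.ofReal (s / 20 * d) ≤
      volume ({z | Near d a z} ∩ {z | (z.1 - y.1) ^ 2 + (z.2 - y.2) ^ 2 < s ^ 2}) := by
  obtain ⟨x1, x2⟩ := x
  obtain ⟨y1, y2⟩ := y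
  obtain ⟨a1, a2⟩ := a
  simp only at hxy hv ha1 ha2 ⊢
  obtain ⟨σ, hσ, hp0⟩ : ∃ σ : ℝ, (σ = 1 ∨ σ = -1) ∧ 7 / 10 ≤ σ * (y1 - x1) := by
    have habs : 7 / 10 ≤ |y1 - x1| := by
      by_contra hc
      push Not at hc
      have h1 : |y1 - x1| ^ 2 < (7 / 10) ^ 2 := pow_lt_pow_left₀ hc (abs_nonneg _) (by norm_num)
      rw [sq_abs] at h1
      nlinarith
    rcases abs_cases (y1 - x1) with ⟨h1, _⟩ | ⟨h1, _⟩
    · exact ⟨1, Or.inl rfl, by rw [one_mul, ← h1]; exact habs⟩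
    · exact ⟨-1, Or.inr rfl, by rw [neg_one_mul, ← h1]; exact habs⟩
  set w : ℝ := s / 16 with hw
  have hw0 : 0 < w := by rw [hw]; positivity
  set v2 : ℝ := y2 - x2 with hv2
  have hsc : Continuous (fun u : ℝ => Real.sqrt (max 0 (1 - (u - a2) ^ 2))) := by fun_prop
  generalize hS : (fun u : ℝ => Real.sqrt (max 0 (1 - (u - a2) ^ 2))) = S at hsc
  have hSu : ∀ u, S u = Real.sqrt (max 0 (1 - (u - a2) ^ 2)) := fun u => by rw [← hS]
  have hRm : MeasurableSet {z : ℝ × ℝ | (a2 + v2 - w ≤ z.2 ∧ z.2 ≤ a2 + v2 + w) ∧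
      (S z.2 ≤ σ * (z.1 - a1) ∧ σ * (z.1 - a1) ≤ S z.2 + 2 / 5 * d)} := by
    apply IsClosed.measurableSet
    refine IsClosed.and (IsClosed.and ?_ ?_) (IsClosed.and ?_ ?_)
    · exact isClosed_le (by fun_prop) (by fun_prop)
    · exact isClosed_le (by fun_prop) (by fun_prop)
    · exact isClosed_le (by fun_prop) (by fun_prop)
    · exact isClosed_le (by fun_prop) (by fun_prop)
  have hsub : {z : ℝ × ℝ | (a2 + v2 - w ≤ z.2 ∧ z.2 ≤ a2 + v2 + w) ∧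
      (S z.2 ≤ σ * (z.1 - a1) ∧ σ * (z.1 - a1) ≤ S z.2 + 2 / 5 * d)} ⊆
      {z | Near d (a1, a2) z} ∩ {z | (z.1 - y1) ^ 2 + (z.2 - y2) ^ 2 < s ^ 2} := by
    rintro ⟨t, u⟩ ⟨⟨h1, h2⟩, h3, h4⟩
    simp only at h1 h2 h3 h4
    have hu : |u - (a2 + (y2 - x2))| ≤ w := by
      rw [abs_le]
      rw [hv2] at h1 h2
      constructor <;> linarith
    have hS0 : 0 ≤ S u := by rw [hSu]; exact Real.sqrt_nonneg _
    have hSs : S u ^ 2 = max 0 (1 - (u - a2) ^ 2) := by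
      rw [hSu]; exact Real.sq_sqrt (le_max_left _ _)
    exact low_pt hs hs1 hw hσ rfl hp0 hxy hv hd hds ha1 ha2 hu hS0 hSs h3 h4
  refine le_trans ?_ (measure_mono hsub)
  rw [Measure.volume_eq_prod, Measure.prod_apply_symm hRm]
  calc ENNReal.ofReal (s / 20 * d)
      = ∫⁻ _ in Set.Icc (a2 + v2 - w) (a2 + v2 + w), ENNReal.ofReal (2 / 5 * d) := by
        rw [setLIntegral_const, Real.volume_Icc, ← ENNReal.ofReal_mul (by positivity)]
        congr 1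
        rw [hw]; ring
    _ ≤ ∫⁻ u in Set.Icc (a2 + v2 - w) (a2 + v2 + w),
          volume ((fun t : ℝ => (t, u)) ⁻¹' {z : ℝ × ℝ | (a2 + v2 - w ≤ z.2 ∧ z.2 ≤ a2 + v2 + w) ∧
            (S z.2 ≤ σ * (z.1 - a1) ∧ σ * (z.1 - a1) ≤ S z.2 + 2 / 5 * d)}) := by
        apply setLIntegral_mono' measurableSet_Icc
        intro u hu
        have hsl : {t : ℝ | S u ≤ σ * (t - a1) ∧ σ * (t - a1) ≤ S u + 2 / 5 * d} ⊆
            (fun t : ℝ => (t, u)) ⁻¹' {z : ℝ × ℝ | (a2 + v2 - w ≤ z.2 ∧ z.2 ≤ a2 + v2 + w) ∧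
            (S z.2 ≤ σ * (z.1 - a1) ∧ σ * (z.1 - a1) ≤ S z.2 + 2 / 5 * d)} :=
          fun t ht => ⟨⟨hu.1, hu.2⟩, ht.1, ht.2⟩
        exact le_trans (slice_vol hσ a1 (S u) d) (measure_mono hsl)
    _ ≤ _ := setLIntegral_le_lintegral _ _

/-- vertical case -/
private theorem lowV {x y : ℝ × ℝ} {s : ℝ} (hs : 0 < s) (hs1 : s ≤ 1)
    (hxy : (x.1 - y.1) ^ 2 + (x.2 - y.2) ^ 2 = 1) (hv : (x.2 - y.2) ^ 2 ≥ 1 / 2)
    {d : ℝ} (hd : 0 < d) (hds : d ≤ s / 16) {a : ℝ × ℝ} (ha1 : |a.1 - x.1| ≤ s / 16)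
    (ha2 : |a.2 - x.2| ≤ s / 16) :
    ENNReal.ofReal (s / 20 * d) ≤
      volume ({z | Near d a z} ∩ {z | (z.1 - y.1) ^ 2 + (z.2 - y.2) ^ 2 < s ^ 2}) := by
  have h := lowH (x := x.swap) (y := y.swap) hs hs1 (by
    simp only [Prod.fst_swap, Prod.snd_swap]; linarith) hv hd hds (a := a.swap) ha2 ha1
  have hm : MeasurableSet ({z | Near d a.swap z} ∩
      {z : ℝ × ℝ | (z.1 - y.swap.1) ^ 2 + (z.2 - y.swap.2) ^ 2 < s ^ 2}) := by
    refine MeasurableSet.inter ?_ ?_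
    · unfold Near
      apply IsClosed.measurableSet
      refine IsClosed.and ?_ ?_
      · exact isClosed_le (by fun_prop) (by fun_prop)
      · exact isClosed_le (by fun_prop) (by fun_prop)
    · exact measurableSet_lt (by fun_prop) (by fun_prop)
  have hp : MeasurePreserving (Prod.swap : ℝ × ℝ → ℝ × ℝ) volume volume :=
    Measure.measurePreserving_swap
  rw [← hp.measure_preimage hm.nullMeasurableSet] at h
  refine h.trans (measure_mono ?_)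
  rintro ⟨z1, z2⟩ ⟨⟨h1, h2⟩, h3⟩
  simp only [Set.mem_ofPred_eq, Prod.fst_swap, Prod.snd_swap, Prod.swap_prod_mk] at h1 h2 h3
  refine ⟨⟨?_, ?_⟩, ?_⟩
  · change 1 ≤ (a.1 - z1) ^ 2 + (a.2 - z2) ^ 2
    linarith
  · change (a.1 - z1) ^ 2 + (a.2 - z2) ^ 2 ≤ 1 + d
    linarith
  · change (z1 - y.1) ^ 2 + (z2 - y.2) ^ 2 < s ^ 2
    linarith

theorem lowN : LowN := by
  intro s0 hs0
  set s : ℝ := min s0 1 with hs
  have hsp : 0 < s := lt_min hs0 one_pos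
  have hs1 : s ≤ 1 := min_le_right _ _
  have hs2 : s ^ 2 ≤ s0 ^ 2 := pow_le_pow_left₀ hsp.le (min_le_left _ _) 2
  refine ⟨s / 16, s / 16, s / 20, by positivity, ?_, by positivity, by positivity, ?_⟩
  · have : 0 < s ^ 2 := by positivity
    have e : 2 * (s / 16) ^ 2 = s ^ 2 / 128 := by ring
    rw [e]; linarith
  intro x y hxy d hd hds a ha1 ha2
  have hmono : volume ({z | Near d a z} ∩ {z | (z.1 - y.1) ^ 2 + (z.2 - y.2) ^ 2 < s ^ 2}) ≤
      volume ({z | Near d a z} ∩ {z | (z.1 - y.1) ^ 2 + (z.2 - y.2) ^ 2 < s0 ^ 2}) := by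
    apply measure_mono
    rintro z ⟨h1, h2⟩
    exact ⟨h1, lt_of_lt_of_le h2 hs2⟩
  refine le_trans ?_ hmono
  rcases le_total (1 / 2) ((x.1 - y.1) ^ 2) with h | h
  · exact lowH hsp hs1 hxy h hd hds ha1 ha2
  · exact lowV hsp hs1 hxy (by linarith) hd hds ha1 ha2

end Pool.Agent.H31.UR
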