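import Pool.Agent.H31.UR.GenN

/-!
# Sparse point sets, independent points with different distributions (module `SpaN` of MP_31a0d1_lc)
-/

set_option autoImplicit false

namespace Pool.Agent.H31.UR

open MeasureTheory Finset

namespace SpN

theorem near_meas' {d : ℝ} {α : Type*} [MeasurableSpace α] {f g : α → ℝ × ℝ} (hf : Measurable f)
    (hg : Measurable g) : MeasurableSet {z | Near d (f z) (g z)} := by
  have h1 : Measurable fun z => ((f z).1 - (g z).1) ^ 2 + ((f z).2 - (g z).2) ^ 2 := by fun_prop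
  exact (measurableSet_le measurable_const h1).inter (measurableSet_le h1 measurable_const)

theorem reg_meas' (d e : ℝ) : MeasurableSet
    {z : (ℝ × ℝ) × (ℝ × ℝ) × (ℝ × ℝ) | Reg d e z.1 z.2.1 z.2.2} := by
  have h1 : Measurable fun z : (ℝ × ℝ) × (ℝ × ℝ) × (ℝ × ℝ) => |z.1.2 - z.2.2.2| :=
    (by fun_prop : Continuous _).measurable
  have h2 : Measurable fun z : (ℝ × ℝ) × (ℝ × ℝ) × (ℝ × ℝ) => |z.1.1 - z.2.2.1| :=
    (by fun_prop : Continuous _).measurable
  have h3 : Measurable fun z : (ℝ × ℝ) × (ℝ × ℝ) × (ℝ × ℝ) => |z.2.2.2 - z.2.1.2| :=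
    (by fun_prop : Continuous _).measurable
  have h4 : Measurable fun z : (ℝ × ℝ) × (ℝ × ℝ) × (ℝ × ℝ) => |z.2.2.1 - z.2.1.1| :=
    (by fun_prop : Continuous _).measurable
  have h0 : MeasurableSet {z : (ℝ × ℝ) × (ℝ × ℝ) × (ℝ × ℝ) | Near d z.1 z.2.2} :=
    near_meas' measurable_fst (measurable_snd.comp measurable_snd)
  exact h0.inter (((measurableSet_le h1 h2).inter (measurableSet_lt h3 measurable_const)).union
    ((measurableSet_le h2 h1).inter (measurableSet_lt h4 measurable_const)))

end SpN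

theorem spaN (hF : FubN) : SparseN := by
  classical
  intro n L μ hP d e q0 hq0 h1
  set S : Set ((ℝ × ℝ) × (ℝ × ℝ) × (ℝ × ℝ)) := {z | Reg d e z.1 z.2.1 z.2.2} with hS
  set q : ENNReal := ENNReal.ofReal q0 with hq
  set F : Fin n → Fin n → Finset (Finset (Fin n)) := fun i j =>
    (univ.powersetCard L).filter fun T => i ∉ T ∧ j ∉ T with hFdef
  have h2 : {p : Fin n → ℝ × ℝ | ¬ Sparse d e (L + 2) p} ⊆
      ⋃ i ∈ (univ : Finset (Fin n)), ⋃ j ∈ (univ : Finset (Fin n)), ⋃ T ∈ F i j,
        {p | ∀ k ∈ T, (p i, p j, p k) ∈ S} := by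
    intro p hp
    rw [Set.mem_setOf_eq, Sparse] at hp
    push Not at hp
    obtain ⟨i, j, hij, hc⟩ := hp
    have h3 : L ≤ (((univ.filter fun k => Reg d e (p i) (p j) (p k)).erase i).erase j).card := by
      have e1 := Finset.pred_card_le_card_erase
        (s := univ.filter fun k => Reg d e (p i) (p j) (p k)) (a := i)
      have e2 := Finset.pred_card_le_card_erase
        (s := (univ.filter fun k => Reg d e (p i) (p j) (p k)).erase i) (a := j)
      omega
    obtain ⟨T, hT, hTc⟩ := Finset.exists_subset_card_eq h3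
    simp only [Set.mem_iUnion]
    refine ⟨i, mem_univ i, j, mem_univ j, T, ?_, fun k hk => ?_⟩
    · rw [hFdef]
      simp only [mem_filter, mem_powersetCard]
      refine ⟨⟨subset_univ T, hTc⟩, fun hi => ?_, fun hj => ?_⟩
      · have := hT hi
        simp at this
      · have := hT hj
        simp at this
    · have := hT hk
      simp only [mem_erase, mem_filter] at this
      exact this.2.2.2
  have h4 : ∀ i j : Fin n, (Measure.pi μ)
      (⋃ T ∈ F i j, {p | ∀ k ∈ T, (p i, p j, p k) ∈ S}) ≤ (n : ENNReal) ^ L * q ^ L := by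
    intro i j
    refine (measure_biUnion_finset_le _ _).trans ?_
    have h5 : ∀ T ∈ F i j, (Measure.pi μ)
        {p | ∀ k ∈ T, (p i, p j, p k) ∈ S} ≤ q ^ L := by
      intro T hT
      rw [hFdef] at hT
      simp only [mem_filter, mem_powersetCard] at hT
      have := hF n μ hP S (SpN.reg_meas' d e) q h1 i j T hT.2.1 hT.2.2
      rwa [hT.1.2] at this
    refine (Finset.sum_le_card_nsmul _ _ _ h5).trans ?_
    rw [nsmul_eq_mul]
    refine mul_le_mul_left ?_ _
    have h6 : (F i j).card ≤ n ^ L := by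
      refine (Finset.card_filter_le _ _).trans ?_
      rw [card_powersetCard, card_univ, Fintype.card_fin]
      exact Nat.choose_le_pow n L
    exact_mod_cast h6
  have h7 : (Measure.pi μ) {p | ¬ Sparse d e (L + 2) p} ≤
      (n : ENNReal) * ((n : ENNReal) * ((n : ENNReal) ^ L * q ^ L)) := by
    refine (measure_mono h2).trans ((measure_biUnion_finset_le _ _).trans ?_)
    refine (Finset.sum_le_card_nsmul _ _ _ (fun i _ => (measure_biUnion_finset_le _ _).trans
      (Finset.sum_le_card_nsmul _ _ _ (fun j _ => h4 i j)))).trans (le_of_eq ?_)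
    simp [card_univ]
  refine h7.trans (le_of_eq ?_)
  have hn : (n : ENNReal) = ENNReal.ofReal n := by simp
  rw [hn, hq, ← ENNReal.ofReal_pow (by positivity), ← ENNReal.ofReal_pow (by positivity),
    ← ENNReal.ofReal_mul (by positivity), ← ENNReal.ofReal_mul (by positivity),
    ← ENNReal.ofReal_mul (by positivity)]
  congr 1
  ring

end Pool.Agent.H31.UR
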